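import Pool.Agent.Lib_helper26.TB.Defs

/-!
# The sum of the cubic form over several points, with the coefficients in the input
-/

set_option autoImplicit false

namespace Pool.Agent.Lib_helper26.TB

/-- The input cells: `n ^ 3` coefficients, and `L` points of `3 * n` bits. -/
abbrev LCell (n L : ℕ) : Type := (Fin n × Fin n × Fin n) ⊕ (Fin L × Cell n)

/-- The sum over the `L` points of the cubic form with the given coefficients. -/
def cubSum {n L : ℕ} (z : LCell n L → ZMod 2) : ZMod 2 :=
  ∑ l : Fin L, cub (fun i j k => z (Sum.inl (i, j, k))) (fun c => z (Sum.inr (l, c)))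

end Pool.Agent.Lib_helper26.TB
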