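import Mathlib

/-!
# Numbers
-/

set_option autoImplicit false
set_option linter.unusedSectionVars false

namespace Pool.Agent.Lib_helper26.TB

/-- the logarithm of the number of colours -/
def gam (k : ℕ) : ℕ := 32 * (Nat.log 2 k + 1)

theorem gam_ge (k : ℕ) : 32 ≤ gam k := by
  unfold gam
  omega

theorem lt_gam (k : ℕ) : k ^ 2 ≤ 2 ^ gam k := by
  unfold gam
  have h1 : k < 2 ^ (Nat.log 2 k + 1) := Nat.lt_pow_succ_log_self (by norm_num) k
  calc k ^ 2 ≤ (2 ^ (Nat.log 2 k + 1)) ^ 2 := Nat.pow_le_pow_left h1.le 2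
    _ = 2 ^ (2 * (Nat.log 2 k + 1)) := by rw [← pow_mul, mul_comm]
    _ ≤ _ := Nat.pow_le_pow_right (by norm_num) (by omega)

/-- the main inequality between the parameters -/
theorem gam_main (k : ℕ) : 83200 * (k * gam k) ^ 2 ≤ 2 ^ gam k := by
  unfold gam
  set l := Nat.log 2 k + 1 with hl
  have hl1 : 1 ≤ l := by omega
  have h1 : k < 2 ^ l := Nat.lt_pow_succ_log_self (by norm_num) k
  have h2 : l ≤ 2 ^ l := Nat.lt_two_pow_self.le
  calc 83200 * (k * (32 * l)) ^ 2 ≤ 2 ^ 17 * (2 ^ l * (2 ^ 5 * 2 ^ l)) ^ 2 := by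
        gcongr
        · norm_num
        · norm_num
    _ = 2 ^ (27 + 4 * l) := by ring
    _ ≤ 2 ^ (32 * l) := Nat.pow_le_pow_right (by norm_num) (by omega)

theorem pow_gam (k : ℕ) (hk : 1 ≤ k) : 2 ^ (20 * (k * gam k)) ≤ (k + 1) ^ (1280 * k) := by
  have h1 : 2 ^ (Nat.log 2 k + 1) ≤ (k + 1) ^ 2 := by
    have h2 : 2 ^ Nat.log 2 k ≤ k := Nat.pow_log_le_self 2 (by omega)
    rw [pow_succ]
    nlinarith
  unfold gam
  calc 2 ^ (20 * (k * (32 * (Nat.log 2 k + 1)))) = (2 ^ (Nat.log 2 k + 1)) ^ (640 * k) := by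
        rw [← pow_mul]
        congr 1
        ring
    _ ≤ ((k + 1) ^ 2) ^ (640 * k) := Nat.pow_le_pow_left h1 _
    _ = (k + 1) ^ (1280 * k) := by
        rw [← pow_mul]
        congr 1
        ring

theorem sq_le_pow (ρ : ℕ) (h : 1024 ≤ ρ) : ρ ^ 2 ≤ 2 ^ (ρ / 32) := by
  have h1 : ∀ t : ℕ, 32 ≤ t → (32 * (t + 1)) ^ 2 ≤ 2 ^ t := by
    intro t ht
    induction t, ht using Nat.le_induction with
    | base => norm_num
    | succ t ht ih =>
      rw [pow_succ 2 t]
      nlinarith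
  have h2 : 32 ≤ ρ / 32 := by omega
  refine le_trans (Nat.pow_le_pow_left ?_ 2) (h1 _ h2)
  omega

/-- the parameters -/
structure Par (n k s W : ℕ) : Prop where
  hk : 1 ≤ k
  hs : 1 ≤ s
  hn : s * (W + 1) * (k + 1) ^ (1280 * k) ≤ n

variable {n k s W : ℕ}

/-- a quarter of the size of the smaller sets -/
def rho (n k : ℕ) : ℕ := n / 2 ^ (6 * (k * gam k) + 4)

/-- the number of segments -/
def seg (k W : ℕ) : ℕ := 36864 * k ^ 2 * 2 ^ (12 * (k * gam k)) * (W + 1)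

theorem seg_pos (k W : ℕ) (hk : 1 ≤ k) : 0 < seg k W := by
  unfold seg
  positivity

theorem rho_le (n k : ℕ) : 2 ^ (6 * (k * gam k) + 4) * rho n k ≤ n := Nat.mul_div_le n _

theorem X_ge (k : ℕ) (hk : 1 ≤ k) : 32 ≤ k * gam k :=
  (gam_ge k).trans (Nat.le_mul_of_pos_left _ hk)

theorem n_ge (h : Par n k s W) : s * (W + 1) * 2 ^ (20 * (k * gam k)) ≤ n :=
  (Nat.mul_le_mul_left _ (pow_gam k h.hk)).trans h.hn

theorem rho_ge (h : Par n k s W) :
    s * (W + 1) * 2 ^ (14 * (k * gam k) - 5) ≤ rho n k ∧ n ≤ 2 ^ (6 * (k * gam k) + 5) * rho n k := by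
  have h1 := n_ge h
  have hX := X_ge k h.hk
  set X := k * gam k with hXd
  have hsW : 1 ≤ s * (W + 1) := Nat.mul_pos h.hs (Nat.succ_pos W)
  have h2 : 2 ^ (6 * X + 4) ≤ n := by
    calc 2 ^ (6 * X + 4) ≤ 1 * 2 ^ (20 * X) := by
          rw [one_mul]
          exact Nat.pow_le_pow_right (by norm_num) (by omega)
      _ ≤ s * (W + 1) * 2 ^ (20 * X) := Nat.mul_le_mul_right _ hsW
      _ ≤ n := h1
  have h3 : 1 ≤ rho n k := Nat.div_pos h2 (by positivity)
  have h4 : n < 2 ^ (6 * X + 4) * (rho n k + 1) := by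
    have := Nat.lt_mul_div_succ n (show 0 < 2 ^ (6 * X + 4) by positivity)
    exact this
  have h5 : n ≤ 2 ^ (6 * X + 5) * rho n k := by
    calc n ≤ 2 ^ (6 * X + 4) * (rho n k + 1) := h4.le
      _ ≤ 2 ^ (6 * X + 4) * (2 * rho n k) := Nat.mul_le_mul_left _ (by omega)
      _ = _ := by
          rw [show 6 * X + 5 = (6 * X + 4) + 1 by ring, pow_succ]
          ring
  refine ⟨?_, h5⟩
  have h6 : 0 < 2 ^ (6 * X + 5) := by positivity
  refine Nat.le_of_mul_le_mul_left ?_ h6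
  calc 2 ^ (6 * X + 5) * (s * (W + 1) * 2 ^ (14 * X - 5)) =
        s * (W + 1) * 2 ^ (20 * X) := by
        rw [show 20 * X = (6 * X + 5) + (14 * X - 5) by omega, pow_add]
        ring
    _ ≤ n := h1
    _ ≤ _ := h5

theorem seg_small (h : Par n k s W) : 32 * (s * (seg k W + 1)) ≤ rho n k := by
  have hX := X_ge k h.hk
  have h1 := (rho_ge h).1
  have h2 : seg k W + 1 ≤ 2 ^ (17 + 13 * (k * gam k)) * (W + 1) := by
    have h3 := seg_pos k W h.hk
    have h4 : k ^ 2 ≤ 2 ^ (k * gam k) :=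
      (lt_gam k).trans (Nat.pow_le_pow_right (by norm_num) (Nat.le_mul_of_pos_left _ h.hk))
    calc seg k W + 1 ≤ 2 * seg k W := by omega
      _ = 73728 * k ^ 2 * 2 ^ (12 * (k * gam k)) * (W + 1) := by unfold seg; ring
      _ ≤ 2 ^ 17 * 2 ^ (k * gam k) * 2 ^ (12 * (k * gam k)) * (W + 1) := by
          gcongr
          norm_num
      _ = _ := by
          rw [← pow_add, ← pow_add]
          congr 2
          ring
  calc 32 * (s * (seg k W + 1)) ≤ 32 * (s * (2 ^ (17 + 13 * (k * gam k)) * (W + 1))) := by gcongr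
    _ = s * (W + 1) * 2 ^ (22 + 13 * (k * gam k)) := by
        rw [show 22 + 13 * (k * gam k) = 5 + (17 + 13 * (k * gam k)) by ring, pow_add 2 5]
        ring
    _ ≤ s * (W + 1) * 2 ^ (14 * (k * gam k) - 5) := by
        gcongr
        · norm_num
        · omega
    _ ≤ _ := h1

theorem rho_big (h : Par n k s W) : 1024 ≤ rho n k ∧ 32 * (W + 8) ≤ rho n k := by
  have hX := X_ge k h.hk
  have h1 := (rho_ge h).1
  have h2 : 1024 * (W + 1) ≤ rho n k := by
    refine le_trans ?_ h1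
    calc 1024 * (W + 1) = 1 * (W + 1) * 2 ^ 10 := by ring
      _ ≤ s * (W + 1) * 2 ^ (14 * (k * gam k) - 5) := by
          gcongr
          · exact h.hs
          · norm_num
          · omega
  omega

theorem n_le_sq (h : Par n k s W) : n ≤ rho n k ^ 2 := by
  have hX := X_ge k h.hk
  obtain ⟨h1, h2⟩ := rho_ge h
  refine h2.trans ?_
  rw [sq]
  refine Nat.mul_le_mul_right _ (le_trans ?_ h1)
  calc 2 ^ (6 * (k * gam k) + 5) = 1 * 1 * 2 ^ (6 * (k * gam k) + 5) := by ring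
    _ ≤ s * (W + 1) * 2 ^ (14 * (k * gam k) - 5) := by
        gcongr
        · exact h.hs
        · omega
        · norm_num
        · omega

theorem n_le_pow (h : Par n k s W) : n ≤ 2 ^ (rho n k / 32) :=
  (n_le_sq h).trans (sq_le_pow _ (rho_big h).1)

end Pool.Agent.Lib_helper26.TB
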