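import Pool.Agent.Lib_helper26.TB.Color
import Pool.Agent.Lib_helper26.TB.Num

/-!
# The lower bound for PP mode
-/

set_option autoImplicit false
set_option linter.unusedSectionVars false

namespace Pool.Agent.Lib_helper26.TB

open Finset
open Pool.Agent.Lib_helper26.TS (fil mem_fil fil_congr card_fixed)
open Pool.Agent.Lib_helper26.TQ (Mach)

variable {n : ℕ} {V : Type} [Fintype V]

/-- the correlation of a small machine, with parameters -/
theorem corr_param {M : Fin n → Fin n → Fin n → ZMod 2} (hM : Rich M) {k s W T γ ρ r X : ℕ}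
    (hk : 1 ≤ k) (hs : 1 ≤ s) (hX : 32 ≤ X) (hXd : X = k * γ) (hgm : 83200 * X ^ 2 ≤ 2 ^ γ)
    (hγ1 : 32 ≤ γ) (hρ2 : n ≤ 2 ^ (6 * X + 5) * ρ) (hb1 : 1024 ≤ ρ) (hb2 : 32 * (W + 8) ≤ ρ)
    (hsq : n ≤ ρ ^ 2) (hpw : n ≤ 2 ^ (ρ / 32)) (hsg : 32 * (s * (r + 1)) ≤ ρ)
    (hrl : 2 ^ (6 * X + 4) * ρ ≤ n) (hr0 : 0 < r)
    (hr3 : (r : ℝ) = 36864 * k ^ 2 * 2 ^ (12 * X) * (W + 1))
    (hT : T ≤ k * (3 * n)) (hV : Fintype.card V ≤ 2 ^ s) (P : Mach (Cell n) (ZMod 2) V) :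
    |∑ z ∈ fil (P.Accepts T), sg (cub M z)| ≤ 2 ^ (3 * n) * (4 / 2 ^ (W + 8)) := by
  obtain ⟨q, hq⟩ : ∃ q, q = 400 * X * ρ := ⟨_, rfl⟩
  obtain ⟨e, he⟩ : ∃ e, e = 24 * k * q / 2 ^ γ := ⟨_, rfl⟩
  obtain ⟨m, hm⟩ : ∃ m, m = 400 * X := ⟨_, rfl⟩
  obtain ⟨L, hL⟩ : ∃ L, L = T / r + 1 := ⟨_, rfl⟩
  obtain ⟨w, hw⟩ : ∃ w, w + 1 = 2 ^ γ := ⟨2 ^ γ - 1, Nat.sub_add_cancel Nat.one_le_two_pow⟩
  have hL0 : 0 < L := by
    rw [hL]
    exact Nat.succ_pos _
  have hTL : T ≤ r * L := by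
    rw [hL]
    have := Nat.div_add_mod T r
    have h3 := Nat.mod_lt T hr0
    have h4 : r * (T / r + 1) = r * (T / r) + r := by ring
    omega
  have hq0 : 0 < q := by
    rw [hq]
    exact Nat.mul_pos (by omega) (by omega)
  have h2γ : 0 < 2 ^ γ := by positivity
  -- the number of exceptional cells
  have he1 : 8 * γ * e ≤ ρ := by
    have h1 : e * 2 ^ γ ≤ 24 * k * q := by
      rw [he]
      exact Nat.div_mul_le_self _ _
    refine Nat.le_of_mul_le_mul_right ?_ h2γ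
    calc 8 * γ * e * 2 ^ γ = 8 * γ * (e * 2 ^ γ) := by ring
      _ ≤ 8 * γ * (24 * k * q) := Nat.mul_le_mul_left _ h1
      _ = 76800 * X ^ 2 * ρ := by rw [hq, hXd]; ring
      _ ≤ 83200 * X ^ 2 * ρ := by gcongr; norm_num
      _ ≤ 2 ^ γ * ρ := Nat.mul_le_mul_right _ hgm
      _ = ρ * 2 ^ γ := Nat.mul_comm _ _
  have he2 : 256 * e ≤ ρ := by
    have : 256 * e ≤ 8 * γ * e := Nat.mul_le_mul_right _ (by omega)
    omega
  have heq : e ≤ q := by
    rw [hq]
    have : ρ ≤ 400 * X * ρ := Nat.le_mul_of_pos_left _ (by omega)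
    omega
  -- the blocks
  obtain ⟨u, hu⟩ : ∃ u, u = ρ / 64 + 1 := ⟨_, rfl⟩
  have hqu : q ≤ 2 ^ γ * u := by
    have h1 : ρ ≤ 64 * u := by omega
    have h2 : 25600 * X ≤ 2 ^ γ := by
      refine le_trans ?_ hgm
      rw [sq]
      calc 25600 * X ≤ 83200 * X := by omega
        _ ≤ 83200 * (X * X) := Nat.mul_le_mul_left _ (Nat.le_mul_of_pos_left _ (by omega))
    have h3 : q * 64 ≤ 2 ^ γ * u * 64 := by
      calc q * 64 = 25600 * X * ρ := by rw [hq]; ring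
        _ ≤ 2 ^ γ * (64 * u) := Nat.mul_le_mul h2 h1
        _ = _ := by ring
    omega
  -- the powers
  have hn1 : 1 ≤ n := by
    have := Nat.mul_pos (show 0 < 2 ^ (6 * X + 4) by positivity) (show 0 < ρ by omega)
    omega
  -- the estimate of the main term
  have hρ3 : n ≤ 2 ^ (6 * X + 3) * (4 * ρ) := by
    refine hρ2.trans (le_of_eq ?_)
    rw [show 6 * X + 5 = (6 * X + 3) + 2 by ring, pow_add]
    ring
  have hchoose : (n.choose (4 * ρ) : ℝ) ≤ 2 ^ (20 * ρ + 24 * X * ρ) := by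
    refine (choose_bound (a := 4 * ρ) hρ3).trans (le_of_eq ?_)
    congr 1
    ring
  have hEm : 2 * ((n.choose (4 * ρ) : ℝ) ^ 2) / 2 ^ (q - e) ≤ ((1 / 2 : ℝ) ^ (ρ / 2)) ^ m := by
    rw [div_le_iff₀ (by positivity), ← pow_mul, one_div, inv_pow, ← div_eq_inv_mul,
      le_div_iff₀ (by positivity)]
    calc 2 * ((n.choose (4 * ρ) : ℝ) ^ 2) * 2 ^ (ρ / 2 * m) ≤
          2 * ((2 ^ (20 * ρ + 24 * X * ρ)) ^ 2) * 2 ^ (ρ / 2 * m) := by gcongr
      _ = 2 ^ (1 + (20 * ρ + 24 * X * ρ) * 2 + ρ / 2 * m) := by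
          rw [← pow_mul, ← pow_succ', ← pow_add]
          congr 1
          ring
      _ ≤ 2 ^ (q - e) := by
          refine pow_le_pow_right₀ (by norm_num) ?_
          have h1 : ρ / 2 * m ≤ 200 * (X * ρ) := by
            rw [hm]
            calc ρ / 2 * (400 * X) = (2 * (ρ / 2)) * (200 * X) := by ring
              _ ≤ ρ * (200 * X) := Nat.mul_le_mul_right _ (by omega)
              _ = _ := by ring
          have h2 : (20 * ρ + 24 * X * ρ) * 2 = 40 * ρ + 48 * (X * ρ) := by ring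
          have h3 : q = 400 * (X * ρ) := by rw [hq]; ring
          have h4 : 32 * ρ ≤ X * ρ := Nat.mul_le_mul_right _ hX
          rw [h2, h3]
          omega
  -- the colouring
  have h6k : 2 * T ≤ n * (6 * k + 1) := by
    have h3 : n * (6 * k + 1) = 2 * (k * (3 * n)) + n := by ring
    omega
  have hcol := exists_col (w := w) (r := r) P (T := T) (L := L) (k := 6 * k) (ρ := ρ)
    (q := q) (e := e) (σ := r * (L : ℝ) ^ 2) (E := (W : ℝ) + 8) hL0 hr0 h6k hq0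
  have hwc : ((w : ℝ) + 1) = 2 ^ γ := by exact_mod_cast hw
  rw [hwc] at hcol
  have hL0' : (0:ℝ) < L := by exact_mod_cast hL0
  have hr0' : (0:ℝ) < r := by exact_mod_cast hr0
  have hrn : r ≤ n := by
    have h1 : r ≤ ρ := by
      have : r + 1 ≤ s * (r + 1) := Nat.le_mul_of_pos_left _ hs
      omega
    have h2 : ρ ≤ 2 ^ (6 * X + 4) * ρ := Nat.le_mul_of_pos_left _ (by positivity)
    omega
  have hrL : r * L ≤ 6 * k * n := by
    have h1 : r * L ≤ T + r := by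
      rw [hL]
      have := Nat.mul_div_le T r
      have h4 : r * (T / r + 1) = r * (T / r) + r := by ring
      omega
    have h2 : n ≤ k * n := Nat.le_mul_of_pos_left _ hk
    have h3 : k * (3 * n) = 3 * (k * n) := by ring
    have h4 : 6 * k * n = 6 * (k * n) := by ring
    omega
  have hrL' : (r : ℝ) * L ≤ 6 * k * n := by exact_mod_cast hrL
  obtain ⟨ω, hω⟩ := hcol (by
      have h1 : 4 * ρ * (4 * (2 ^ γ) ^ (6 * k)) ≤ n := by
        refine le_trans (le_of_eq ?_) hrl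
        rw [← pow_mul, hXd, show 6 * (k * γ) + 4 = γ * (6 * k) + 4 by ring, pow_add]
        ring
      exact_mod_cast h1) (by omega) (by positivity) le_rfl (by
      rw [le_div_iff₀ (by positivity)]
      have h1 : (n : ℝ) ≤ 2 ^ (6 * X + 5) * ρ := by exact_mod_cast hρ2
      have h2 : ((r : ℝ) * L) ^ 2 ≤ (6 * k * n) ^ 2 := pow_le_pow_left₀ (by positivity) hrL' 2
      have h3 := hr3
      have h4 : (n : ℝ) ^ 2 ≤ (2 ^ (6 * X + 5) * ρ) ^ 2 := pow_le_pow_left₀ (by positivity) h1 2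
      refine le_of_mul_le_mul_right ?_ hr0'
      have h5 : ((W : ℝ) + 8) ≤ 8 * (W + 1) := by
        have : (0:ℝ) ≤ W := Nat.cast_nonneg W
        linarith
      calc ((W : ℝ) + 8) * (2 * (r * (L : ℝ) ^ 2)) * r = 2 * (W + 8) * (r * L) ^ 2 := by ring
        _ ≤ 2 * (8 * ((W : ℝ) + 1)) * (6 * (k : ℝ) * n) ^ 2 := by gcongr
        _ = 576 * ((W : ℝ) + 1) * (k : ℝ) ^ 2 * (n : ℝ) ^ 2 := by ring
        _ ≤ 576 * ((W : ℝ) + 1) * (k : ℝ) ^ 2 * (2 ^ (6 * X + 5) * (ρ : ℝ)) ^ 2 := by gcongr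
        _ = 16 * (ρ : ℝ) ^ 2 * (36864 * (k : ℝ) ^ 2 * 2 ^ (12 * X) * ((W : ℝ) + 1)) := by
            rw [show (6 * X + 5) = 6 * X + 5 from rfl, pow_add,
              show 12 * X = 6 * X + 6 * X by ring, pow_add]
            ring
        _ = (4 * ρ : ℝ) ^ 2 * r := by rw [h3]; ring) (by
      rw [le_div_iff₀ (by positivity)]
      have h3 := hr3
      have h5 : ((W : ℝ) + 8) ≤ 8 * (W + 1) := by
        have : (0:ℝ) ≤ W := Nat.cast_nonneg W
        linarith
      have h6 : (1:ℝ) ≤ (k:ℝ) ^ 2 := one_le_pow₀ (by exact_mod_cast hk)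
      have h7 : ((2:ℝ) ^ γ) ^ 2 ≤ 2 ^ (12 * X) := by
        rw [← pow_mul]
        refine pow_le_pow_right₀ (by norm_num) ?_
        have : γ ≤ X := by
          rw [hXd]
          exact Nat.le_mul_of_pos_left _ hk
        omega
      calc ((W : ℝ) + 8) * (2 * (2 ^ γ) ^ 2) ≤ (8 * (W + 1)) * (2 * 2 ^ (12 * X)) := by gcongr
        _ = 16 * 1 * 2 ^ (12 * X) * (W + 1) := by ring
        _ ≤ 36864 * k ^ 2 * 2 ^ (12 * X) * (W + 1) := by gcongr; norm_num
        _ = r := h3.symm) (by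
      have hqn : q ≤ n := by
        refine le_trans ?_ hrl
        rw [hq]
        refine Nat.mul_le_mul_right _ ?_
        have h1 : X < 2 ^ X := Nat.lt_two_pow_self
        calc 400 * X ≤ 2 ^ 9 * 2 ^ X := by
              have : 400 ≤ 2 ^ 9 := by norm_num
              exact Nat.mul_le_mul this h1.le
          _ = 2 ^ (9 + X) := by rw [← pow_add]
          _ ≤ 2 ^ (6 * X + 4) := Nat.pow_le_pow_right (by norm_num) (by omega)
      have h1 : (n : ℝ) / (2 * q) ≤ (n / q : ℕ) := by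
        rw [div_le_iff₀ (by positivity)]
        have h2 : n ≤ (n / q) * (2 * q) := by
          have h3 : 1 ≤ n / q := Nat.div_pos hqn hq0
          have h4 := Nat.lt_mul_div_succ n hq0
          have h5 : q * (n / q + 1) = (n / q) * q + q := by ring
          have h6 : (n / q) * (2 * q) = (n / q) * q + (n / q) * q := by ring
          have h7 : q ≤ (n / q) * q := Nat.le_mul_of_pos_left _ h3
          omega
        exact_mod_cast h2
      have h2 : (24 * k * q : ℝ) / 2 ^ γ ≤ (e + 1 : ℝ) := by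
        have h3 := Nat.lt_floor_add_one (((24 * k * q : ℕ) : ℝ) / ((2 ^ γ : ℕ) : ℝ))
        rw [Nat.floor_div_eq_div] at h3
        push_cast at h3
        rw [he]
        exact h3.le
      have hq0' : (0:ℝ) < q := by exact_mod_cast hq0
      push_cast
      calc 2 * ((r : ℝ) / 2 ^ γ) * L = 2 * (r * L) / 2 ^ γ := by ring
        _ ≤ 2 * (6 * k * n) / 2 ^ γ := by gcongr
        _ = (n : ℝ) / (2 * q) * ((24 * k * q : ℝ) / 2 ^ γ) := by field_simp; ring
        _ ≤ ((n / q : ℕ) : ℝ) * (e + 1 : ℝ) :=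
            mul_le_mul h1 h2 (by positivity) (Nat.cast_nonneg _))
  -- the correlation
  have hc := corr hM P hL0 hTL ω (ρ := ρ) (q := q) (e := e) (m := m)
    (E := (1 / 2 : ℝ) ^ (ρ / 2)) hsq (by
      rw [hq, hm]
      refine (Nat.sub_le _ _).trans (le_of_eq ?_)
      ring) (by omega) ⟨200 * X, by rw [hm]; ring⟩ (by positivity) hEm
  refine hc.trans ?_
  have hN : (0:ℝ) < 2 ^ (3 * n) := by positivity
  have t1 : (3:ℝ) * Real.exp (-((W : ℝ) + 8)) ≤ 3 / 2 ^ (W + 8) := by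
    have h1 : Real.exp (-((W : ℝ) + 8)) ≤ 1 / 2 ^ (W + 8) := by
      rw [Real.exp_neg, one_div]
      refine inv_anti₀ (by positivity) ?_
      have h2 : ((W : ℝ) + 8) = ((W + 8 : ℕ) : ℝ) * 1 := by push_cast; ring
      rw [h2, Real.exp_nat_mul]
      refine pow_le_pow_left₀ (by norm_num) ?_ _
      have := Real.exp_one_gt_d9
      linarith
    calc (3:ℝ) * Real.exp (-((W : ℝ) + 8)) ≤ 3 * (1 / 2 ^ (W + 8)) := by gcongr
      _ = _ := by ring
  have t2 : (Fintype.card V : ℝ) ^ (r + 1) * ((fam n q e).card * (2 ^ (3 * n) *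
      (1 / 2 : ℝ) ^ (ρ / 2))) ≤ 2 ^ (3 * n) * (1 / 2 ^ (W + 8)) := by
    have a1 : (Fintype.card V : ℝ) ^ (r + 1) ≤ 2 ^ (s * (r + 1)) := by
      rw [pow_mul]
      refine pow_le_pow_left₀ (by positivity) ?_ _
      exact_mod_cast hV
    have a2 : ((fam n q e).card : ℝ) ≤ 2 ^ (ρ / 32) * 2 ^ (2 * u + γ * e) := by
      have a3 := fam_card (n := n) hq0 heq
      calc ((fam n q e).card : ℝ) ≤ n * (q.choose e : ℝ) := by exact_mod_cast a3
        _ ≤ 2 ^ (ρ / 32) * 2 ^ (2 * u + γ * e) := by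
            refine mul_le_mul (by exact_mod_cast hpw) (choose_bound hqu) (by positivity)
              (by positivity)
    have a3 : (2:ℝ) ^ (s * (r + 1)) * (2 ^ (ρ / 32) * 2 ^ (2 * u + γ * e)) * 2 ^ (W + 8) ≤
        2 ^ (ρ / 2) := by
      rw [← pow_add, ← pow_add, ← pow_add]
      refine pow_le_pow_right₀ (by norm_num) ?_
      have h1 : 8 * (γ * e) ≤ ρ := by
        have : 8 * (γ * e) = 8 * γ * e := by ring
        omega
      revert h1 hsg
      generalize γ * e = x1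
      generalize s * (r + 1) = x2
      intro hsg h1
      omega
    have a4 : (1 / 2 : ℝ) ^ (ρ / 2) = 1 / 2 ^ (ρ / 2) := by rw [one_div, inv_pow, one_div]
    calc (Fintype.card V : ℝ) ^ (r + 1) * ((fam n q e).card * (2 ^ (3 * n) *
          (1 / 2 : ℝ) ^ (ρ / 2))) ≤ 2 ^ (s * (r + 1)) * ((2 ^ (ρ / 32) * 2 ^ (2 * u + γ * e)) *
          (2 ^ (3 * n) * (1 / 2 : ℝ) ^ (ρ / 2))) := by gcongr
      _ = 2 ^ (3 * n) * ((2 ^ (s * (r + 1)) * (2 ^ (ρ / 32) * 2 ^ (2 * u + γ * e))) /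
          2 ^ (ρ / 2)) := by rw [a4]; ring
      _ ≤ 2 ^ (3 * n) * (1 / 2 ^ (W + 8)) := by
          refine mul_le_mul_of_nonneg_left ?_ hN.le
          rw [div_le_div_iff₀ (by positivity) (by positivity), one_mul]
          exact a3
  have t3 := add_le_add (hω.trans (mul_le_mul_of_nonneg_left t1 hN.le)) t2
  refine t3.trans (le_of_eq ?_)
  have h4 : (4:ℝ) = 3 + 1 := by norm_num
  rw [h4, add_div, mul_add]

/-- the correlation of a small machine -/
theorem corr_small {M : Fin n → Fin n → Fin n → ZMod 2} (hM : Rich M) {k s W T : ℕ}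
    (h : Par n k s W) (hT : T ≤ k * (3 * n)) (hV : Fintype.card V ≤ 2 ^ s)
    (P : Mach (Cell n) (ZMod 2) V) :
    |∑ z ∈ fil (P.Accepts T), sg (cub M z)| ≤ 2 ^ (3 * n) * (4 / 2 ^ (W + 8)) := by
  refine corr_param hM (ρ := rho n k) (r := seg k W) h.hk h.hs (X_ge k h.hk) rfl (gam_main k)
    (gam_ge k) (rho_ge h).2 (rho_big h).1 (rho_big h).2 (n_le_sq h) (n_le_pow h) (seg_small h)
    (rho_le n k) (seg_pos k W h.hk) ?_ hT hV P
  unfold seg
  push_cast
  rfl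

end Pool.Agent.Lib_helper26.TB
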