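import Pool.Agent.Lib_helper26.TB.Skip
import Pool.Agent.Lib_helper26.TB.Defs2
import Pool.Agent.Lib_helper26.TB.Main

/-!
# The correlation of a machine with the sum of the cubic forms
-/

set_option autoImplicit false
set_option linter.unusedSectionVars false

namespace Pool.Agent.Lib_helper26.TB

open Finset
open Pool.Agent.Lib_helper26.TS (fil mem_fil fil_congr)
open Pool.Agent.Lib_helper26.TQ (Mach)

/-- averaging over one coordinate -/
theorem sum_update {ι β : Type} [Fintype ι] [DecidableEq ι] [Fintype β] (l : ι)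
    (g : (ι → β) → ℝ) :
    ∑ p : ι → β, ∑ x : β, g (Function.update p l x) = Fintype.card β * ∑ p, g p := by
  classical
  rw [← Fintype.sum_prod_type']
  let φ : (ι → β) × β → (ι → β) × β := fun q => (Function.update q.1 l q.2, q.1 l)
  have hφ : Function.Involutive φ := by
    rintro ⟨p, x⟩
    simp only [φ, Function.update_self, Function.update_idem, Function.update_eq_self]
  have h := Equiv.sum_comp hφ.toPerm (fun q : (ι → β) × β => g q.1)
  have h2 : ∑ q : (ι → β) × β, g (Function.update q.1 l q.2) = ∑ q : (ι → β) × β, g q.1 := h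
  rw [h2, Fintype.sum_prod_type, Finset.mul_sum]
  refine Finset.sum_congr rfl fun p _ => ?_
  simp only
  rw [Finset.sum_const, nsmul_eq_mul, card_univ]

/-- the first good member of a tuple -/
theorem first_good {r : ℕ} (b : Fin r → Prop) [DecidablePred b] :
    (1 : ℝ) = (∑ j : Fin r, if ¬ b j ∧ ∀ i : Fin r, i.val < j.val → b i then (1 : ℝ) else 0) +
      if ∀ i, b i then 1 else 0 := by
  classical
  by_cases h : ∀ i, b i
  · rw [if_pos h, Finset.sum_eq_zero, zero_add]
    intro j _
    rw [if_neg]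
    exact fun h' => h'.1 (h j)
  · rw [if_neg h, add_zero]
    push Not at h
    obtain ⟨j, hj, hmin⟩ : ∃ j : Fin r, ¬ b j ∧ ∀ i : Fin r, i.val < j.val → b i := by
      have hne : (univ.filter fun i : Fin r => ¬ b i).Nonempty := by
        obtain ⟨i, hi⟩ := h
        exact ⟨i, by simpa using hi⟩
      refine ⟨(univ.filter fun i : Fin r => ¬ b i).min' hne, ?_, ?_⟩
      · have := Finset.min'_mem _ hne
        exact (mem_filter.1 this).2
      · intro i hi
        by_contra hb
        have h1 := Finset.min'_le (univ.filter fun i : Fin r => ¬ b i) i (by simpa using hb)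
        have h2 : ((univ.filter fun i : Fin r => ¬ b i).min' hne).val ≤ i.val := h1
        omega
    rw [Finset.sum_eq_single j]
    · rw [if_pos ⟨hj, hmin⟩]
    · intro j' _ hne
      rw [if_neg]
      rintro ⟨h1, h2⟩
      rcases Nat.lt_or_ge j.val j'.val with h3 | h3
      · exact hj (h2 j h3)
      · exact h1 (hmin j' (lt_of_le_of_ne h3 fun h4 => hne (Fin.ext h4)))
    · intro h1
      exact absurd (mem_univ _) h1

variable {n L : ℕ}

/-- the input with coefficients `M` and points `p` -/
def inp (M : Fin n → Fin n → Fin n → ZMod 2) (p : Fin L → Cell n → ZMod 2) : LCell n L → ZMod 2 :=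
  Sum.elim (fun q => M q.1 q.2.1 q.2.2) (fun q => p q.1 q.2)

/-- the cells of a point -/
def pblk (l : Fin L) : LCell n L → Option (Cell n) := fun i =>
  match i with
  | Sum.inl _ => none
  | Sum.inr q => if q.1 = l then some q.2 else none

theorem put_inp (M : Fin n → Fin n → Fin n → ZMod 2) (p : Fin L → Cell n → ZMod 2) (l : Fin L)
    (x : Cell n → ZMod 2) : put (pblk l) (inp M p) x = inp M (Function.update p l x) := by
  funext i
  rcases i with q | ⟨l', c⟩
  · rfl
  · by_cases h : l' = l
    · subst h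
      have : pblk l' (Sum.inr (l', c) : LCell n L) = some c := by simp [pblk]
      rw [put_some this]
      simp [inp]
    · have : pblk l (Sum.inr (l', c) : LCell n L) = none := by simp [pblk, h]
      rw [put_none this]
      simp [inp, Function.update_of_ne h]

theorem cubSum_inp (M : Fin n → Fin n → Fin n → ZMod 2) (p : Fin L → Cell n → ZMod 2) :
    cubSum (inp M p) = ∑ l, cub M (p l) := rfl

theorem sg_update (M : Fin n → Fin n → Fin n → ZMod 2) (p : Fin L → Cell n → ZMod 2) (l : Fin L)
    (x : Cell n → ZMod 2) : sg (cubSum (inp M (Function.update p l x))) =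
      sg (∑ l' ∈ univ.erase l, cub M (p l')) * sg (cub M x) := by
  rw [cubSum_inp, ← Finset.sum_erase_add univ _ (mem_univ l), sg_add, Function.update_self]
  congr 2
  refine Finset.sum_congr rfl fun l' hl' => ?_
  rw [Function.update_of_ne (mem_erase.1 hl').1]

variable {V : Type}

/-- few blocks are read often -/
theorem rds_blocks (Q : Mach (LCell n L) (ZMod 2) V) (z : LCell n L → ZMod 2) (t : ℕ) :
    ∑ l : Fin L, rds Q (fun i => (pblk l i).isSome) z t ≤ t := by
  classical
  induction t with
  | zero => simp [rds]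
  | succ t ih =>
    simp only [rds_succ]
    rw [Finset.sum_add_distrib]
    refine Nat.add_le_add ih ?_
    generalize Q.query t (Q.state z t) = i
    rcases i with q | ⟨l', c⟩
    · simp [pblk]
    · have : ∀ l : Fin L, (pblk l (Sum.inr (l', c) : LCell n L)).isSome = decide (l' = l) := by
        intro l
        by_cases h : l' = l <;> simp [pblk, h]
      simp only [this, decide_eq_true_eq]
      rw [Finset.sum_ite_eq]
      simp

open Classical in
/-- the blocks that are read often -/
noncomputable def bads (Q : Mach (LCell n L) (ZMod 2) V) (T B : ℕ) (z : LCell n L → ZMod 2) :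
    Finset (Fin L) := univ.filter fun l => B < rds Q (fun i => (pblk l i).isSome) z T

theorem bads_card (Q : Mach (LCell n L) (ZMod 2) V) (T B : ℕ) (z : LCell n L → ZMod 2) :
    (bads Q T B z).card * (B + 1) ≤ T := by
  classical
  calc (bads Q T B z).card * (B + 1) = ∑ _l ∈ bads Q T B z, (B + 1) := by
        rw [Finset.sum_const, smul_eq_mul]
    _ ≤ ∑ l ∈ bads Q T B z, rds Q (fun i => (pblk l i).isSome) z T := by
        refine Finset.sum_le_sum fun l hl => ?_
        exact (mem_filter.1 hl).2
    _ ≤ ∑ l, rds Q (fun i => (pblk l i).isSome) z T :=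
        Finset.sum_le_sum_of_subset (subset_univ _)
    _ ≤ T := rds_blocks Q z T

/-- one tuple of blocks, one good block -/
theorem one_block {M : Fin n → Fin n → Fin n → ZMod 2} (Q : Mach (LCell n L) (ZMod 2) V)
    {T B r : ℕ} (c0 : Cell n) {δ : ℝ}
    (hδ : ∀ Q' : Mach (Cell n) (ZMod 2) ((V × (Fin r → Fin (B + 2))) × Fin (T + 1)),
      |∑ x ∈ fil (Q'.Accepts B), sg (cub M x)| ≤ 2 ^ (3 * n) * δ)
    (σ : Fin r → Fin L) (j : Fin r) [DecidablePred fun p : Fin L → Cell n → ZMod 2 =>
      Q.Accepts T (inp M p) ∧ ¬ (B < rds Q (fun i => (pblk (σ j) i).isSome) (inp M p) T) ∧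
        ∀ i : Fin r, i.val < j.val → B < rds Q (fun c => (pblk (σ i) c).isSome) (inp M p) T] :
    |∑ p : Fin L → Cell n → ZMod 2, if Q.Accepts T (inp M p) ∧
        ¬ (B < rds Q (fun i => (pblk (σ j) i).isSome) (inp M p) T) ∧
        (∀ i : Fin r, i.val < j.val → B < rds Q (fun c => (pblk (σ i) c).isSome) (inp M p) T)
        then sg (cubSum (inp M p)) else 0| ≤
      (Fintype.card (Fin L → Cell n → ZMod 2) : ℝ) * δ := by
  classical
  set g : (Fin L → Cell n → ZMod 2) → ℝ := fun p => if Q.Accepts T (inp M p) ∧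
        ¬ (B < rds Q (fun i => (pblk (σ j) i).isSome) (inp M p) T) ∧
        (∀ i : Fin r, i.val < j.val → B < rds Q (fun c => (pblk (σ i) c).isSome) (inp M p) T)
        then sg (cubSum (inp M p)) else 0 with hg
  have hN : (0:ℝ) < 2 ^ (3 * n) := by positivity
  have hcard : (Fintype.card (Cell n → ZMod 2) : ℝ) = 2 ^ (3 * n) := by
    rw [card_pi, card_cell]
  have h1 := sum_update (σ j) g
  rw [hcard] at h1
  have h2 : ∀ p : Fin L → Cell n → ZMod 2,
      |∑ x, g (Function.update p (σ j) x)| ≤ 2 ^ (3 * n) * δ := by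
    intro p
    set Q' := skM (ctM Q (fun i c => (pblk (σ i) c).isSome) B j.val) (pblk (σ j)) (inp M p) T c0
      with hQ'
    have h3 : ∀ x, g (Function.update p (σ j) x) =
        sg (∑ l' ∈ univ.erase (σ j), cub M (p l')) *
          (if Q'.Accepts B x then sg (cub M x) else 0) := by
      intro x
      have h4 := skM_accepts (ctM Q (fun i c => (pblk (σ i) c).isSome) B j.val) (pblk (σ j))
        (inp M p) T c0 x B
      rw [put_inp, ctM_accepts, ctM_rds] at h4
      rw [hg]
      simp only
      by_cases h : Q'.Accepts B x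
      · rw [if_pos h, ← sg_update, if_pos]
        obtain ⟨⟨a1, a2⟩, a3⟩ := h4.1 h
        exact ⟨a1, not_lt.2 a3, a2⟩
      · rw [if_neg h, mul_zero, if_neg]
        rintro ⟨a1, a2, a3⟩
        exact h (h4.2 ⟨⟨a1, a3⟩, not_lt.1 a2⟩)
    have h5 := hδ Q'
    rw [Finset.sum_congr rfl fun x _ => h3 x, ← Finset.mul_sum, abs_mul, abs_sg, one_mul,
      ← Finset.sum_filter]
    refine le_trans (le_of_eq ?_) h5
    congr 1
  have h3 : |2 ^ (3 * n) * ∑ p, g p| ≤ (Fintype.card (Fin L → Cell n → ZMod 2) : ℝ) *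
      (2 ^ (3 * n) * δ) := by
    rw [← h1]
    refine (Finset.abs_sum_le_sum_abs _ _).trans ((Finset.sum_le_sum fun p _ => h2 p).trans
      (le_of_eq ?_))
    rw [Finset.sum_const, nsmul_eq_mul, card_univ]
  rw [abs_mul, abs_of_pos hN, mul_left_comm] at h3
  exact le_of_mul_le_mul_left h3 hN

/-- the correlation with the sum -/
theorem block_corr {M : Fin n → Fin n → Fin n → ZMod 2} (Q : Mach (LCell n L) (ZMod 2) V)
    {T B r : ℕ} (c0 : Cell n) {δ : ℝ} (hL : 0 < L) (hTB : 4 * T ≤ L * (B + 1))
    (hδ : ∀ Q' : Mach (Cell n) (ZMod 2) ((V × (Fin r → Fin (B + 2))) × Fin (T + 1)),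
      |∑ x ∈ fil (Q'.Accepts B), sg (cub M x)| ≤ 2 ^ (3 * n) * δ) :
    |∑ p ∈ fil (fun p : Fin L → Cell n → ZMod 2 => Q.Accepts T (inp M p)),
      sg (cubSum (inp M p))| ≤
      (Fintype.card (Fin L → Cell n → ZMod 2) : ℝ) * (r * δ + 1 / 4 ^ r) := by
  classical
  set b : (Fin L → Cell n → ZMod 2) → Fin L → Prop := fun p l =>
    B < rds Q (fun i => (pblk l i).isSome) (inp M p) T with hb
  set a : (Fin L → Cell n → ZMod 2) → ℝ := fun p =>
    if Q.Accepts T (inp M p) then sg (cubSum (inp M p)) else 0 with ha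
  have h0 : ∑ p ∈ fil (fun p : Fin L → Cell n → ZMod 2 => Q.Accepts T (inp M p)),
      sg (cubSum (inp M p)) = ∑ p, a p := by
    rw [ha, ← Finset.sum_filter]
    refine Finset.sum_congr ?_ fun _ _ => rfl
    ext x
    rw [mem_filter, mem_fil]
    exact ⟨fun h => ⟨mem_univ _, h⟩, fun h => h.2⟩
  rw [h0]
  set K : ℝ := (Fintype.card (Fin L → Cell n → ZMod 2) : ℝ) with hK
  have hK0 : 0 ≤ K := Nat.cast_nonneg _
  have hL' : (0:ℝ) < L := by exact_mod_cast hL
  have hLr : (0:ℝ) < (L:ℝ) ^ r := by positivity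
  -- the tuples
  have h1 : (L : ℝ) ^ r * ∑ p, a p =
      (∑ σ : Fin r → Fin L, ∑ j : Fin r, ∑ p, if Q.Accepts T (inp M p) ∧
        ¬ (b p (σ j)) ∧ (∀ i : Fin r, i.val < j.val → b p (σ i))
        then sg (cubSum (inp M p)) else 0) +
      ∑ p, a p * ∑ σ : Fin r → Fin L, (if ∀ i, b p (σ i) then (1:ℝ) else 0) := by
    have e1 : (L : ℝ) ^ r * ∑ p, a p = ∑ σ : Fin r → Fin L, ∑ p, a p := by
      rw [Finset.sum_const, card_univ, Fintype.card_fun, Fintype.card_fin, Fintype.card_fin,
        nsmul_eq_mul]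
      push_cast
      rfl
    rw [e1]
    have e2 : ∀ (σ : Fin r → Fin L) (p : Fin L → Cell n → ZMod 2), a p =
        (∑ j : Fin r, if Q.Accepts T (inp M p) ∧
          ¬ (b p (σ j)) ∧ (∀ i : Fin r, i.val < j.val → b p (σ i))
          then sg (cubSum (inp M p)) else 0) + a p * (if ∀ i, b p (σ i) then (1:ℝ) else 0) := by
      intro σ p
      have h := first_good (fun i => b p (σ i))
      have h2 : a p = a p * 1 := (mul_one _).symm
      rw [h] at h2
      rw [mul_add, Finset.mul_sum] at h2
      refine h2.trans ?_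
      congr 1
      refine Finset.sum_congr rfl fun j _ => ?_
      rw [ha]
      simp only
      by_cases h3 : Q.Accepts T (inp M p)
      · simp only [h3, true_and, if_true]
        split_ifs <;> simp
      · simp [h3]
    rw [Finset.sum_congr rfl fun σ _ => Finset.sum_congr rfl fun p _ => e2 σ p]
    simp only [Finset.sum_add_distrib]
    congr 1
    · refine Finset.sum_congr rfl fun σ _ => ?_
      rw [Finset.sum_comm]
    · rw [Finset.sum_comm]
      refine Finset.sum_congr rfl fun p _ => ?_
      rw [Finset.mul_sum]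
  have h2 : |∑ σ : Fin r → Fin L, ∑ j : Fin r, ∑ p, if Q.Accepts T (inp M p) ∧
        ¬ (b p (σ j)) ∧ (∀ i : Fin r, i.val < j.val → b p (σ i))
        then sg (cubSum (inp M p)) else 0| ≤ (L:ℝ) ^ r * (r * (K * δ)) := by
    refine (Finset.abs_sum_le_sum_abs _ _).trans ?_
    have e1 : ∀ σ : Fin r → Fin L, |∑ j : Fin r, ∑ p, if Q.Accepts T (inp M p) ∧
        ¬ (b p (σ j)) ∧ (∀ i : Fin r, i.val < j.val → b p (σ i))
        then sg (cubSum (inp M p)) else 0| ≤ r * (K * δ) := by
      intro σ
      refine (Finset.abs_sum_le_sum_abs _ _).trans ?_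
      refine (Finset.sum_le_sum fun j _ => one_block Q c0 hδ σ j).trans (le_of_eq ?_)
      rw [Finset.sum_const, card_univ, Fintype.card_fin, nsmul_eq_mul]
    refine (Finset.sum_le_sum fun σ _ => e1 σ).trans (le_of_eq ?_)
    rw [Finset.sum_const, card_univ, Fintype.card_fun, Fintype.card_fin, Fintype.card_fin,
      nsmul_eq_mul]
    push_cast
    rfl
  have h3 : |∑ p, a p * ∑ σ : Fin r → Fin L, (if ∀ i, b p (σ i) then (1:ℝ) else 0)| ≤
      K * ((L:ℝ) ^ r / 4 ^ r) := by
    refine (Finset.abs_sum_le_sum_abs _ _).trans ?_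
    have e1 : ∀ p, |a p * ∑ σ : Fin r → Fin L, (if ∀ i, b p (σ i) then (1:ℝ) else 0)| ≤
        (L:ℝ) ^ r / 4 ^ r := by
      intro p
      have e2 : ∑ σ : Fin r → Fin L, (if ∀ i, b p (σ i) then (1:ℝ) else 0) =
          ((bads Q T B (inp M p)).card : ℝ) ^ r := by
        rw [← Finset.sum_filter, Finset.sum_const, nsmul_eq_mul, mul_one]
        have e3 : (univ.filter fun σ : Fin r → Fin L => ∀ i, b p (σ i)) =
            Fintype.piFinset fun _ : Fin r => bads Q T B (inp M p) := by
          ext σ
          rw [mem_filter, Fintype.mem_piFinset]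
          unfold bads
          simp only [mem_filter, mem_univ, true_and]
          exact Iff.rfl
        rw [e3, Fintype.card_piFinset, Finset.prod_const, card_univ, Fintype.card_fin]
        push_cast
        rfl
      have e4 : |a p| ≤ 1 := by
        rw [ha]
        simp only
        split_ifs
        · rw [abs_sg]
        · simp
      have e5 : ((bads Q T B (inp M p)).card : ℝ) ≤ L / 4 := by
        have e6 := bads_card Q T B (inp M p)
        have e7 : 4 * (bads Q T B (inp M p)).card ≤ L := by
          refine Nat.le_of_mul_le_mul_right ?_ (Nat.succ_pos B)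
          calc 4 * (bads Q T B (inp M p)).card * (B + 1) =
                4 * ((bads Q T B (inp M p)).card * (B + 1)) := by ring
            _ ≤ 4 * T := Nat.mul_le_mul_left _ e6
            _ ≤ L * (B + 1) := hTB
        rw [le_div_iff₀ (by norm_num)]
        have : ((4 * (bads Q T B (inp M p)).card : ℕ) : ℝ) ≤ L := by exact_mod_cast e7
        push_cast at this
        linarith
      rw [e2, abs_mul, abs_of_nonneg (by positivity :
        (0:ℝ) ≤ ((bads Q T B (inp M p)).card : ℝ) ^ r), ← div_pow]
      calc |a p| * ((bads Q T B (inp M p)).card : ℝ) ^ r ≤ 1 * ((L:ℝ) / 4) ^ r := by gcongr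
        _ = _ := one_mul _
    refine (Finset.sum_le_sum fun p _ => e1 p).trans (le_of_eq ?_)
    rw [Finset.sum_const, card_univ, nsmul_eq_mul]
  have h4 : (L:ℝ) ^ r * |∑ p, a p| ≤ (L:ℝ) ^ r * (K * (r * δ + 1 / 4 ^ r)) := by
    rw [← abs_of_pos hLr, ← abs_mul, h1, abs_of_pos hLr]
    refine (abs_add_le _ _).trans ((add_le_add h2 h3).trans (le_of_eq ?_))
    ring
  exact le_of_mul_le_mul_left h4 hLr

end Pool.Agent.Lib_helper26.TB
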