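import Mathlib

/-!
# The character of the field with two elements, mixing, and moments
-/

set_option autoImplicit false
set_option linter.unusedSectionVars false

namespace Pool.Agent.Lib_helper26.TB

open Finset

/-- the nontrivial character -/
noncomputable def sg (a : ZMod 2) : ℝ := if a = 0 then 1 else -1

theorem zmod2 (a : ZMod 2) : a = 0 ∨ a = 1 := by revert a; decide

theorem sg_zero : sg 0 = 1 := by simp [sg]

theorem sg_one : sg 1 = -1 := by simp [sg]

theorem sg_add (a b : ZMod 2) : sg (a + b) = sg a * sg b := by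
  have h11 : (1 : ZMod 2) + 1 = 0 := by decide
  rcases zmod2 a with rfl | rfl <;> rcases zmod2 b with rfl | rfl <;>
    simp [sg_zero, sg_one, h11]

theorem abs_sg (a : ZMod 2) : |sg a| = 1 := by
  rcases zmod2 a with rfl | rfl <;> simp [sg_zero, sg_one]

theorem sg_sum {ι : Type} (s : Finset ι) (f : ι → ZMod 2) :
    sg (∑ i ∈ s, f i) = ∏ i ∈ s, sg (f i) := by
  classical
  induction s using Finset.induction_on with
  | empty => simp [sg_zero]
  | insert a s ha ih => rw [Finset.sum_insert ha, Finset.prod_insert ha, sg_add, ih]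

variable {I : Type} [Fintype I] [DecidableEq I]

/-- `z` with the coordinates in `P` replaced by those of `c` -/
def mix (P : Finset I) (c z : I → ZMod 2) : I → ZMod 2 := fun i => if i ∈ P then c i else z i

theorem mix_pos {P : Finset I} {c z : I → ZMod 2} {i : I} (h : i ∈ P) : mix P c z i = c i := by
  simp [mix, h]

theorem mix_neg {P : Finset I} {c z : I → ZMod 2} {i : I} (h : i ∉ P) : mix P c z i = z i := by
  simp [mix, h]

theorem mix_mix (P : Finset I) (c z : I → ZMod 2) : mix P (mix P z c) (mix P c z) = z := by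
  funext i
  by_cases h : i ∈ P <;> simp [mix, h]

theorem mix_comm {P Q : Finset I} (h : Disjoint P Q) (c d z : I → ZMod 2) :
    mix P c (mix Q d z) = mix Q d (mix P c z) := by
  funext i
  by_cases hP : i ∈ P
  · have hQ : i ∉ Q := Finset.disjoint_left.1 h hP
    simp [mix, hP, hQ]
  · simp [mix, hP]

theorem card_pi : (Fintype.card (I → ZMod 2) : ℝ) = 2 ^ Fintype.card I := by
  rw [Fintype.card_fun, ZMod.card]
  push_cast
  rfl

theorem sum_mix (P : Finset I) (g : (I → ZMod 2) → ℝ) :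
    ∑ z, ∑ c, g (mix P c z) = 2 ^ Fintype.card I * ∑ z, g z := by
  let e : ((I → ZMod 2) × (I → ZMod 2)) ≃ ((I → ZMod 2) × (I → ZMod 2)) :=
    { toFun := fun p => (mix P p.2 p.1, mix P p.1 p.2)
      invFun := fun p => (mix P p.2 p.1, mix P p.1 p.2)
      left_inv := fun p => Prod.ext (mix_mix P _ _) (mix_mix P _ _)
      right_inv := fun p => Prod.ext (mix_mix P _ _) (mix_mix P _ _) }
  have h1 : ∑ z, ∑ c, g (mix P c z) = ∑ p : (I → ZMod 2) × (I → ZMod 2), g (e p).1 := by
    rw [Fintype.sum_prod_type]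
    rfl
  rw [h1, e.sum_comp (fun p => g p.1), Fintype.sum_prod_type]
  simp only [Finset.sum_const, card_univ, nsmul_eq_mul]
  rw [← Finset.mul_sum, card_pi]

theorem sum_sg_mul (h : ZMod 2) : ∑ t : ZMod 2, sg (t * h) = if h = 0 then 2 else 0 := by
  have e : (univ : Finset (ZMod 2)) = {0, 1} := by decide
  rw [e, Finset.sum_pair (by decide), zero_mul, one_mul, sg_zero]
  rcases zmod2 h with rfl | rfl
  · rw [sg_zero, if_pos rfl]
    norm_num
  · rw [sg_one, if_neg (by decide)]
    norm_num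

/-- sum over all vectors -/
theorem sum_vec (Q : Finset I) (h : I → ZMod 2) :
    ∑ y : I → ZMod 2, sg (∑ l ∈ Q, y l * h l) =
      if ∀ l ∈ Q, h l = 0 then (2 : ℝ) ^ Fintype.card I else 0 := by
  have h1 : ∀ y : I → ZMod 2, sg (∑ l ∈ Q, y l * h l) =
      ∏ l, (fun (l : I) (t : ZMod 2) => if l ∈ Q then sg (t * h l) else 1) l (y l) := by
    intro y
    rw [sg_sum]
    simp only
    rw [Finset.prod_ite, Finset.prod_const_one, mul_one]
    congr 1
    ext a
    simp
  simp only [h1]
  have h2 := Finset.prod_univ_sum (fun _ : I => (univ : Finset (ZMod 2)))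
    (fun (l : I) (t : ZMod 2) => if l ∈ Q then sg (t * h l) else (1:ℝ))
  rw [Fintype.piFinset_univ] at h2
  rw [← h2]
  split_ifs with hc
  · rw [Finset.prod_congr rfl (g := fun _ => (2:ℝ)), Finset.prod_const, card_univ]
    intro l _
    by_cases hl : l ∈ Q
    · simp only [hl, if_true]
      rw [sum_sg_mul, if_pos (hc l hl)]
    · simp only [hl, if_false]
      rw [Finset.sum_const, card_univ, ZMod.card]
      norm_num
  · push Not at hc
    obtain ⟨l, hl, hl'⟩ := hc
    refine Finset.prod_eq_zero (mem_univ l) ?_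
    simp only [hl, if_true]
    rw [sum_sg_mul, if_neg hl']

/-- dropping the signs -/
theorem drop_signs {C : Type} [Fintype C] (a : C → ℝ) (ha : ∀ c, |a c| ≤ 1) (Q : Finset I)
    (g : C → I → ZMod 2) (m : ℕ) :
    ∑ y : I → ZMod 2, (∑ c, a c * sg (∑ l ∈ Q, y l * g c l)) ^ m ≤
      ∑ y : I → ZMod 2, (∑ c, sg (∑ l ∈ Q, y l * g c l)) ^ m := by
  have h1 : ∀ y : I → ZMod 2, (∑ c, a c * sg (∑ l ∈ Q, y l * g c l)) ^ m =
      ∑ p : Fin m → C, (∏ s, a (p s)) * sg (∑ l ∈ Q, y l * ∑ s, g (p s) l) := by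
    intro y
    rw [Fintype.sum_pow]
    refine Finset.sum_congr rfl fun p _ => ?_
    rw [Finset.prod_mul_distrib]
    congr 1
    rw [← sg_sum, Finset.sum_comm]
    congr 1
    exact Finset.sum_congr rfl fun l _ => by rw [Finset.mul_sum]
  have h2 : ∀ y : I → ZMod 2, (∑ c, sg (∑ l ∈ Q, y l * g c l)) ^ m =
      ∑ p : Fin m → C, sg (∑ l ∈ Q, y l * ∑ s, g (p s) l) := by
    intro y
    rw [Fintype.sum_pow]
    refine Finset.sum_congr rfl fun p _ => ?_
    rw [← sg_sum, Finset.sum_comm]
    congr 1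
    exact Finset.sum_congr rfl fun l _ => by rw [Finset.mul_sum]
  simp only [h1, h2]
  rw [Finset.sum_comm, Finset.sum_comm (s := (univ : Finset (I → ZMod 2)))]
  refine Finset.sum_le_sum fun p _ => ?_
  rw [← Finset.mul_sum, sum_vec]
  split_ifs
  · refine mul_le_of_le_one_left (by positivity) ?_
    refine (le_abs_self _).trans ?_
    rw [Finset.abs_prod]
    exact Finset.prod_le_one (fun _ _ => abs_nonneg _) (fun s _ => ha _)
  · rw [mul_zero]

/-- the moment of the inner sums -/
theorem moment {P Q : Finset I} (hPQ : Disjoint P Q) {X : (I → ZMod 2) → ℝ}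
    (hX : ∀ z y, X (mix Q y z) = X z) (hX1 : ∀ z, |X z| ≤ 1) {f g0 : (I → ZMod 2) → ZMod 2}
    {g : I → (I → ZMod 2) → ZMod 2}
    (hf : ∀ z y, f (mix Q y z) = g0 z + ∑ l ∈ Q, y l * g l z) (m : ℕ) :
    2 ^ Fintype.card I * ∑ z, (∑ c, X (mix P c z) * sg (f (mix P c z))) ^ m ≤
      ∑ z, ∑ y : I → ZMod 2, (∑ c, sg (∑ l ∈ Q, y l * g l (mix P c z))) ^ m := by
  rw [← sum_mix Q (fun z => (∑ c, X (mix P c z) * sg (f (mix P c z))) ^ m)]
  refine Finset.sum_le_sum fun z _ => ?_
  have h1 : ∀ y : I → ZMod 2, (∑ c, X (mix P c (mix Q y z)) * sg (f (mix P c (mix Q y z)))) =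
      ∑ c, (X (mix P c z) * sg (g0 (mix P c z))) * sg (∑ l ∈ Q, y l * g l (mix P c z)) := by
    intro y
    refine Finset.sum_congr rfl fun c _ => ?_
    rw [mix_comm hPQ, hX, hf, sg_add]
    ring
  simp only [h1]
  refine drop_signs _ (fun c => ?_) Q (fun c l => g l (mix P c z)) m
  rw [abs_mul, abs_sg, mul_one]
  exact hX1 _

end Pool.Agent.Lib_helper26.TB
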