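import Pool.Agent.Lib_helper26.TB.Corr
import Pool.Agent.Lib_helper26.TS.McD

/-!
# A random colouring of the segments
-/

set_option autoImplicit false
set_option linter.unusedSectionVars false

namespace Pool.Agent.Lib_helper26.TB

open Finset
open Pool.Agent.Lib_helper26.TS (fil mem_fil fil_congr card_fixed mcd_upper mcd_lower)
open Pool.Agent.Lib_helper26.TQ (Mach segs mem_segs sum_segs seg_le)

variable {n : ℕ} {V : Type} {w r : ℕ}

/-- number of cells of `I` all of whose segments have colour zero -/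
noncomputable def nA {I : Type} [Fintype I] (S : I → Finset (Fin r)) (ω : Fin r → Fin (w + 1)) : ℝ :=
  ((fil fun i => ∀ j ∈ S i, ω j = 0).card : ℝ)

section general

variable {I : Type} [Fintype I]

theorem sum_nA (S : I → Finset (Fin r)) :
    ∑ ω : Fin r → Fin (w + 1), nA S ω =
      (∑ i, (1 / (w + 1 : ℝ)) ^ (S i).card) * (w + 1 : ℝ) ^ r := by
  classical
  have h1 : ∀ ω : Fin r → Fin (w + 1), nA S ω =
      ∑ i, if ∀ j ∈ S i, ω j = 0 then (1:ℝ) else 0 := by
    intro ω
    unfold nA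
    rw [← Finset.sum_filter, Finset.sum_const, nsmul_eq_mul, mul_one]
    congr 2
    ext i
    rw [mem_fil, mem_filter]
    exact ⟨fun h => ⟨mem_univ _, h⟩, fun h => h.2⟩
  simp only [h1]
  rw [Finset.sum_comm, Finset.sum_mul]
  refine Finset.sum_congr rfl fun i _ => ?_
  rw [← Finset.sum_filter, Finset.sum_const, nsmul_eq_mul, mul_one]
  have h := card_fixed (S i) (fun _ : Fin r => (0 : Fin (w + 1)))
  rw [Fintype.card_fin, Fintype.card_fin] at h
  have h2 : (univ.filter fun ω : Fin r → Fin (w + 1) => ∀ j ∈ S i, ω j = 0) =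
      fil fun ω : Fin r → Fin (w + 1) => ∀ j ∈ S i, ω j = 0 := by
    ext ω
    rw [mem_fil, mem_filter]
    exact ⟨fun h => h.2, fun h => ⟨mem_univ _, h⟩⟩
  rw [h2]
  have h3 : ((fil fun ω : Fin r → Fin (w + 1) => ∀ j ∈ S i, ω j = 0).card : ℝ) *
      (w + 1 : ℝ) ^ (S i).card = (w + 1 : ℝ) ^ r := by exact_mod_cast h
  have h4 : (0:ℝ) < (w + 1 : ℝ) := by positivity
  rw [← h3, one_div, inv_pow]
  field_simp

theorem nA_update (S : I → Finset (Fin r)) (L : ℕ)
    (hL : ∀ j, (fil fun i => j ∈ S i).card ≤ L) (ω : Fin r → Fin (w + 1)) (j : Fin r)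
    (v : Fin (w + 1)) : |nA S (Function.update ω j v) - nA S ω| ≤ (L : ℝ) := by
  classical
  set D := fil fun i => j ∈ S i with hD
  have hone : ∀ ω ω' : Fin r → Fin (w + 1), (∀ j', j' ≠ j → ω j' = ω' j') →
      nA S ω ≤ nA S ω' + L := by
    intro ω ω' hω
    have h1 : (fil fun i => ∀ j ∈ S i, ω j = 0) ⊆ (fil fun i => ∀ j ∈ S i, ω' j = 0) ∪ D := by
      intro i hi
      rw [mem_union]
      by_cases hj : j ∈ S i
      · right
        rw [hD]
        exact mem_fil.2 hj
      · left
        rw [mem_fil] at hi ⊢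
        intro j' hj'
        rw [← hω j' (fun h => hj (h ▸ hj'))]
        exact hi j' hj'
    have h2 := (card_le_card h1).trans (card_union_le _ _)
    have h3 := h2.trans (Nat.add_le_add_left (hL j) _)
    unfold nA
    exact_mod_cast h3
  have h1 := hone (Function.update ω j v) ω fun j' hj' => Function.update_of_ne hj' _ _
  have h2 := hone ω (Function.update ω j v) fun j' hj' => (Function.update_of_ne hj' _ _).symm
  rw [abs_le]
  constructor <;> linarith

/-- few reads: the mean is large -/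
theorem mean_ge (S : I → Finset (Fin r)) (T k : ℕ) (hT : ∑ e, (S e).card ≤ T)
    (hk : 2 * T ≤ Fintype.card I * (k + 1)) :
    (Fintype.card I : ℝ) / 2 * (1 / (w + 1 : ℝ)) ^ k ≤ ∑ i, (1 / (w + 1 : ℝ)) ^ (S i).card := by
  classical
  set J := univ.filter fun e => (S e).card ≤ k with hJ
  have h1 : ((univ.filter fun e => ¬ (S e).card ≤ k).card) * (k + 1) ≤ T := by
    calc ((univ.filter fun e => ¬ (S e).card ≤ k).card) * (k + 1)
        = ∑ _e ∈ univ.filter (fun e => ¬ (S e).card ≤ k), (k + 1) := by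
          rw [Finset.sum_const, smul_eq_mul]
      _ ≤ ∑ e ∈ univ.filter (fun e => ¬ (S e).card ≤ k), (S e).card := by
          refine Finset.sum_le_sum fun e he => ?_
          have := (mem_filter.1 he).2
          omega
      _ ≤ ∑ e, (S e).card := Finset.sum_le_sum_of_subset (filter_subset _ _)
      _ ≤ T := hT
  have h2 : J.card + (univ.filter fun e => ¬ (S e).card ≤ k).card = Fintype.card I := by
    rw [hJ, ← card_univ]
    exact card_filter_add_card_filter_not (s := (univ : Finset I)) (fun e => (S e).card ≤ k)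
  have h3 : Fintype.card I ≤ 2 * J.card := by
    have h4 : 2 * ((univ.filter fun e => ¬ (S e).card ≤ k).card) ≤ Fintype.card I := by
      have h5 : 2 * ((univ.filter fun e => ¬ (S e).card ≤ k).card) * (k + 1) ≤
          Fintype.card I * (k + 1) := by
        rw [mul_assoc]
        exact (Nat.mul_le_mul_left 2 h1).trans hk
      exact Nat.le_of_mul_le_mul_right h5 (Nat.succ_pos k)
    omega
  have h5 : (Fintype.card I : ℝ) / 2 ≤ J.card := by
    have : (Fintype.card I : ℝ) ≤ 2 * J.card := by exact_mod_cast h3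
    linarith
  have hw : (0:ℝ) < 1 / (w + 1 : ℝ) := by positivity
  have hw1 : 1 / (w + 1 : ℝ) ≤ 1 := by
    rw [div_le_one (by positivity)]
    have : (0:ℝ) ≤ w := Nat.cast_nonneg w
    linarith
  calc (Fintype.card I : ℝ) / 2 * (1 / (w + 1 : ℝ)) ^ k ≤ J.card * (1 / (w + 1 : ℝ)) ^ k :=
        mul_le_mul_of_nonneg_right h5 (by positivity)
    _ = ∑ _e ∈ J, (1 / (w + 1 : ℝ)) ^ k := by rw [Finset.sum_const, nsmul_eq_mul]
    _ ≤ ∑ e ∈ J, (1 / (w + 1 : ℝ)) ^ (S e).card :=
        Finset.sum_le_sum fun e he => pow_le_pow_of_le_one hw.le hw1 (mem_filter.1 he).2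
    _ ≤ _ := Finset.sum_le_sum_of_subset_of_nonneg (filter_subset _ _)
        fun _ _ _ => by positivity

/-- the lower tail -/
theorem tail_nA (S : I → Finset (Fin r)) (L : ℕ) (hL : ∀ j, (fil fun i => j ∈ S i).card ≤ L)
    (T k : ℕ) (hT : ∑ e, (S e).card ≤ T) (hk : 2 * T ≤ Fintype.card I * (k + 1)) {μ σ E : ℝ}
    (hμ : 2 * μ ≤ (Fintype.card I : ℝ) / 2 * (1 / (w + 1 : ℝ)) ^ k) (hμ0 : 0 ≤ μ) (hσ0 : 0 < σ)
    (hσ : r * (L : ℝ) ^ 2 ≤ σ) (hE : E ≤ μ ^ 2 / (2 * σ)) :
    ((univ.filter fun ω : Fin r → Fin (w + 1) => nA S ω ≤ μ).card : ℝ) ≤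
      (w + 1 : ℝ) ^ r * Real.exp (-E) := by
  classical
  have hm := mean_ge (w := w) S T k hT hk
  have hc : ∑ _j : Fin r, (L : ℝ) ^ 2 ≤ σ := by
    rw [Finset.sum_const, card_univ, Fintype.card_fin, nsmul_eq_mul]
    exact hσ
  have hcard : (Fintype.card (Fin (w + 1)) : ℝ) = w + 1 := by
    rw [Fintype.card_fin]
    push_cast
    rfl
  have h := mcd_lower (κ := Fin (w + 1)) (fun ω : Fin r → Fin (w + 1) => nA S ω) (fun _ => (L : ℝ))
    (fun ω j v => nA_update S L hL ω j v) σ (2 * μ) μ hσ0 hc hμ0 (by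
      rw [sum_nA, hcard, Fintype.card_fin]
      exact mul_le_mul_of_nonneg_right (hμ.trans hm) (by positivity))
  rw [hcard, Fintype.card_fin] at h
  have e1 : 2 * μ - μ = μ := by ring
  rw [e1] at h
  refine h.trans (mul_le_mul_of_nonneg_left ?_ (by positivity))
  rw [Real.exp_le_exp]
  linarith

/-- the number of segments of colour zero -/
noncomputable def c0 (ω : Fin r → Fin (w + 1)) : ℝ := ((fil fun j => ω j = 0).card : ℝ)

theorem c0_tail {E : ℝ} (hr : 0 < r) (hE : E ≤ r / (2 * (w + 1 : ℝ) ^ 2)) :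
    ((univ.filter fun ω : Fin r → Fin (w + 1) => 2 * (r / (w + 1 : ℝ)) ≤ c0 ω).card : ℝ) ≤
      (w + 1 : ℝ) ^ r * Real.exp (-E) := by
  classical
  have hr' : (0:ℝ) < r := by exact_mod_cast hr
  have hw : (0:ℝ) < (w + 1 : ℝ) := by positivity
  have hcard : (Fintype.card (Fin (w + 1)) : ℝ) = w + 1 := by
    rw [Fintype.card_fin]
    push_cast
    rfl
  have hupd : ∀ (ω : Fin r → Fin (w + 1)) (j : Fin r) (v : Fin (w + 1)),
      |c0 (Function.update ω j v) - c0 ω| ≤ 1 := by
    intro ω j v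
    have hone : ∀ ω ω' : Fin r → Fin (w + 1), (∀ j', j' ≠ j → ω j' = ω' j') → c0 ω ≤ c0 ω' + 1 := by
      intro ω ω' hω
      have h1 : (fil fun j => ω j = 0) ⊆ (fil fun j => ω' j = 0) ∪ {j} := by
        intro j' hj'
        rw [mem_union, mem_singleton, mem_fil]
        rw [mem_fil] at hj'
        by_cases h : j' = j
        · exact Or.inr h
        · left
          rw [← hω j' h]
          exact hj'
      have h2 := (card_le_card h1).trans (card_union_le _ _)
      rw [card_singleton] at h2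
      unfold c0
      exact_mod_cast h2
    have h1 := hone (Function.update ω j v) ω fun j' hj' => Function.update_of_ne hj' _ _
    have h2 := hone ω (Function.update ω j v) fun j' hj' => (Function.update_of_ne hj' _ _).symm
    rw [abs_le]
    constructor <;> linarith
  have hsum : ∑ ω : Fin r → Fin (w + 1), c0 ω = r / (w + 1 : ℝ) * (w + 1 : ℝ) ^ r := by
    have h1 : ∀ ω : Fin r → Fin (w + 1), c0 ω = nA (fun j : Fin r => ({j} : Finset (Fin r))) ω := by
      intro ω
      unfold c0 nA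
      congr 2
      refine fil_congr fun j => ?_
      simp
    simp only [h1]
    rw [sum_nA]
    congr 1
    simp only [card_singleton, pow_one]
    rw [Finset.sum_const, card_univ, Fintype.card_fin, nsmul_eq_mul]
    ring
  have h := mcd_upper (κ := Fin (w + 1)) (fun ω : Fin r → Fin (w + 1) => c0 ω) (fun _ => 1)
    (fun ω j v => hupd ω j v) (r : ℝ) (r / (w + 1 : ℝ)) (r / (w + 1 : ℝ)) hr' (by
      rw [Finset.sum_const, card_univ, Fintype.card_fin, nsmul_eq_mul]
      simp) (by positivity) (by rw [hsum, hcard, Fintype.card_fin])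
  rw [hcard, Fintype.card_fin] at h
  have e1 : (r:ℝ) / (w + 1) + r / (w + 1) = 2 * (r / (w + 1)) := by ring
  rw [e1] at h
  refine h.trans (mul_le_mul_of_nonneg_left ?_ (by positivity))
  rw [Real.exp_le_exp, neg_le_neg_iff]
  refine hE.trans (le_of_eq ?_)
  field_simp

end general

/-- a good colouring -/
theorem exists_col (P : Mach (Cell n) (ZMod 2) V) {T L k : ℕ} (hL : 0 < L) (hr : 0 < r)
    (hk : 2 * T ≤ n * (k + 1)) {ρ q e : ℕ} (hq : 0 < q) {σ E : ℝ}
    (hρ : 4 * ρ * (4 * (w + 1 : ℝ) ^ k) ≤ n) (hρ0 : 0 < ρ)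
    (hσ0 : 0 < σ) (hσ : r * (L : ℝ) ^ 2 ≤ σ) (hE : E ≤ (4 * ρ : ℝ) ^ 2 / (2 * σ))
    (hE2 : E ≤ r / (2 * (w + 1 : ℝ) ^ 2))
    (hc : 2 * (r / (w + 1 : ℝ)) * L ≤ ((n / q) * (e + 1) : ℕ)) :
    ∃ ω : Fin r → Fin (w + 1),
      ((fil fun z => ¬ Good P T L ω ρ q e z).card : ℝ) ≤ 2 ^ (3 * n) * (3 * Real.exp (-E)) := by
  classical
  have hw : (0:ℝ) < (w + 1 : ℝ) := by positivity
  set N2 : ℝ := (w + 1 : ℝ) ^ r with hN2
  have hN20 : 0 < N2 := by rw [hN2]; positivity
  have hOc : (Fintype.card (Fin r → Fin (w + 1)) : ℝ) = N2 := by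
    rw [Fintype.card_fun, Fintype.card_fin, Fintype.card_fin, hN2]
    push_cast
    rfl
  -- one input
  have h1 : ∀ z : Cell n → ZMod 2,
      ((fil fun ω : Fin r → Fin (w + 1) => ¬ Good P T L ω ρ q e z).card : ℝ) ≤
        N2 * (3 * Real.exp (-E)) := by
    intro z
    set S : Fin 3 → Fin n → Finset (Fin r) := fun s i => segs P T L r z (s, i) with hS
    have hsum : ∀ s, ∑ i, (S s i).card ≤ T := by
      intro s
      refine le_trans ?_ (sum_segs P T L r z)
      rw [Fintype.sum_prod_type]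
      exact Finset.single_le_sum (f := fun s => ∑ i, (segs P T L r z (s, i)).card)
        (fun _ _ => Nat.zero_le _) (mem_univ s)
    have hseg : ∀ s j, (fil fun i => j ∈ S s i).card ≤ L := by
      intro s j
      refine le_trans ?_ (seg_le P T L r hL z j)
      refine card_le_card_of_injOn (fun i => (s, i)) ?_ ?_
      · intro i hi
        have h2 := mem_fil.1 (mem_coe.1 hi)
        exact mem_coe.2 (mem_fil.2 h2)
      · intro i _ i' _ h
        exact (Prod.mk.inj h).2
    have hnA : ∀ s (ω : Fin r → Fin (w + 1)), nA (S s) ω = ((DS s (UN P T L ω z)).card : ℝ) := by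
      intro s ω
      unfold nA
      congr 2
      ext i
      rw [mem_fil, mem_DS]
      unfold UN
      rw [mem_fil, hS]
      simp only
      push Not
      rfl
    have htail : ∀ s, ((univ.filter fun ω : Fin r → Fin (w + 1) => nA (S s) ω ≤ 4 * ρ).card : ℝ) ≤
        N2 * Real.exp (-E) := by
      intro s
      refine tail_nA (S s) L (hseg s) T k (hsum s) (by rw [Fintype.card_fin]; exact hk) ?_
        (by positivity) hσ0 hσ hE
      rw [Fintype.card_fin, one_div, inv_pow]
      have h3 : (0:ℝ) < (w + 1 : ℝ) ^ k := by positivity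
      rw [div_mul_eq_mul_div, le_div_iff₀ (by norm_num : (0:ℝ) < 2), ← div_eq_mul_inv,
        le_div_iff₀ h3]
      linarith
    have hc0 := c0_tail (w := w) hr hE2
    have hsub : (fil fun ω : Fin r → Fin (w + 1) => ¬ Good P T L ω ρ q e z) ⊆
        ((univ.filter fun ω : Fin r → Fin (w + 1) => nA (S 0) ω ≤ 4 * ρ) ∪
        (univ.filter fun ω : Fin r → Fin (w + 1) => nA (S 1) ω ≤ 4 * ρ)) ∪
        (univ.filter fun ω : Fin r → Fin (w + 1) => 2 * (r / (w + 1 : ℝ)) ≤ c0 ω) := by
      intro ω hω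
      rw [mem_fil] at hω
      rw [mem_union, mem_union, mem_filter, mem_filter, mem_filter]
      by_contra hcon
      push Not at hcon
      obtain ⟨⟨a1, a2⟩, a3⟩ := hcon
      have b1 := a1 (mem_univ _)
      have b2 := a2 (mem_univ _)
      have b3 := a3 (mem_univ _)
      apply hω
      rw [hnA] at b1 b2
      refine ⟨⟨by exact_mod_cast b1.le, by exact_mod_cast b2.le⟩, exists_fam hq ?_⟩
      have h4 : (univ \ DS 2 (UF P T L ω z)).card ≤ (fil fun j => ω j = 0).card * L := by
        have h5 : (univ \ DS 2 (UF P T L ω z)) ⊆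
            (fil fun j => ω j = 0).biUnion fun j => fil fun i => j ∈ S 2 i := by
          intro i hi
          have h6 := (mem_sdiff.1 hi).2
          rw [mem_DS, not_not] at h6
          unfold UF at h6
          rw [mem_fil] at h6
          obtain ⟨j, hj, hj0⟩ := h6
          exact mem_biUnion.2 ⟨j, mem_fil.2 hj0, mem_fil.2 hj⟩
        refine (card_le_card h5).trans (card_biUnion_le.trans ?_)
        calc ∑ j ∈ fil (fun j => ω j = 0), (fil fun i => j ∈ S 2 i).card ≤
              ∑ _j ∈ fil (fun j => ω j = 0), L := Finset.sum_le_sum fun j _ => hseg 2 j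
          _ = _ := by rw [Finset.sum_const, smul_eq_mul]
      have h5 : ((univ \ DS 2 (UF P T L ω z)).card : ℝ) < ((n / q) * (e + 1) : ℕ) := by
        calc ((univ \ DS 2 (UF P T L ω z)).card : ℝ) ≤ c0 ω * L := by
              unfold c0
              exact_mod_cast h4
          _ < 2 * (r / (w + 1 : ℝ)) * L := by
              have : (0:ℝ) < L := by exact_mod_cast hL
              exact mul_lt_mul_of_pos_right b3 this
          _ ≤ _ := hc
      exact_mod_cast h5
    have hcard := (card_le_card hsub).trans ((card_union_le _ _).trans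
      (Nat.add_le_add_right (card_union_le _ _) _))
    have hcard' : ((fil fun ω : Fin r → Fin (w + 1) => ¬ Good P T L ω ρ q e z).card : ℝ) ≤
        ((univ.filter fun ω : Fin r → Fin (w + 1) => nA (S 0) ω ≤ 4 * ρ).card : ℝ) +
        ((univ.filter fun ω : Fin r → Fin (w + 1) => nA (S 1) ω ≤ 4 * ρ).card : ℝ) +
        ((univ.filter fun ω : Fin r → Fin (w + 1) => 2 * (r / (w + 1 : ℝ)) ≤ c0 ω).card : ℝ) := by
      exact_mod_cast hcard
    have := htail 0
    have := htail 1
    linarith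
  -- the average
  by_contra hcon
  push Not at hcon
  have h2 : ∑ ω : Fin r → Fin (w + 1), ((fil fun z => ¬ Good P T L ω ρ q e z).card : ℝ) =
      ∑ z : Cell n → ZMod 2,
        ((fil fun ω : Fin r → Fin (w + 1) => ¬ Good P T L ω ρ q e z).card : ℝ) := by
    have e1 : ∀ ω : Fin r → Fin (w + 1),
        ((fil fun z => ¬ Good P T L ω ρ q e z).card : ℝ) =
        ∑ z, if ¬ Good P T L ω ρ q e z then (1:ℝ) else 0 := by
      intro ω
      rw [← Finset.sum_filter, Finset.sum_const, nsmul_eq_mul, mul_one]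
      congr 2
      ext z
      rw [mem_fil, mem_filter]
      exact ⟨fun h => ⟨mem_univ _, h⟩, fun h => h.2⟩
    have e2 : ∀ z : Cell n → ZMod 2,
        ((fil fun ω : Fin r → Fin (w + 1) => ¬ Good P T L ω ρ q e z).card : ℝ) =
        ∑ ω : Fin r → Fin (w + 1), if ¬ Good P T L ω ρ q e z then (1:ℝ) else 0 := by
      intro z
      rw [← Finset.sum_filter, Finset.sum_const, nsmul_eq_mul, mul_one]
      congr 2
      ext ω
      rw [mem_fil, mem_filter]
      exact ⟨fun h => ⟨mem_univ _, h⟩, fun h => h.2⟩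
    rw [Finset.sum_congr rfl fun ω _ => e1 ω, Finset.sum_congr rfl fun z _ => e2 z, Finset.sum_comm]
  have h3 : ∑ z : Cell n → ZMod 2,
        ((fil fun ω : Fin r → Fin (w + 1) => ¬ Good P T L ω ρ q e z).card : ℝ) ≤
      2 ^ (3 * n) * (N2 * (3 * Real.exp (-E))) := by
    refine (Finset.sum_le_sum fun z _ => h1 z).trans (le_of_eq ?_)
    rw [Finset.sum_const, nsmul_eq_mul, card_univ, card_pi, card_cell]
  have h4 : ∑ _ω : Fin r → Fin (w + 1), (2:ℝ) ^ (3 * n) * (3 * Real.exp (-E)) <
      ∑ ω : Fin r → Fin (w + 1), ((fil fun z => ¬ Good P T L ω ρ q e z).card : ℝ) :=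
    Finset.sum_lt_sum_of_nonempty ⟨fun _ => 0, mem_univ _⟩ fun ω _ => hcon ω
  rw [Finset.sum_const, card_univ, nsmul_eq_mul, hOc, h2] at h4
  linarith [h3, h4, mul_left_comm N2 ((2:ℝ) ^ (3 * n)) (3 * Real.exp (-E))]

end Pool.Agent.Lib_helper26.TB
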