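import Pool.Agent.Lib_helper26.TB.Runs

/-!
# Small machines have a small correlation with the cubic form
-/

set_option autoImplicit false
set_option linter.unusedSectionVars false

namespace Pool.Agent.Lib_helper26.TB

open Finset
open Pool.Agent.Lib_helper26.TS (fil mem_fil fil_congr card_fixed)
open Pool.Agent.Lib_helper26.TQ (Mach)

variable {n : ℕ} {V : Type} [Fintype V] {w r : ℕ}

theorem corr {M : Fin n → Fin n → Fin n → ZMod 2} (hM : Rich M) (P : Mach (Cell n) (ZMod 2) V)
    {T L : ℕ} (hL : 0 < L) (hT : T ≤ r * L) (ω : Fin r → Fin (w + 1)) {ρ q e m : ℕ}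
    (hρ : n ≤ ρ ^ 2) (hm : q - e ≤ ρ * m) (hm0 : 0 < m) (hme : Even m) {E : ℝ} (hE0 : 0 ≤ E)
    (hE : 2 * ((n.choose (4 * ρ) : ℝ) ^ 2) / 2 ^ (q - e) ≤ E ^ m) :
    |∑ z ∈ fil (P.Accepts T), sg (cub M z)| ≤
      ((fil fun z => ¬ Good P T L ω ρ q e z).card : ℝ) +
      (Fintype.card V : ℝ) ^ (r + 1) * ((fam n q e).card * (2 ^ (3 * n) * E)) := by
  classical
  set F : Finset (Finset (Fin n) × Finset (Fin n)) :=
    (univ : Finset (Fin n)).powersetCard (4 * ρ) ×ˢ (univ : Finset (Fin n)).powersetCard (4 * ρ)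
    with hF
  have hFm : ∀ p ∈ F, p.1.card = 4 * ρ ∧ p.2.card = 4 * ρ := by
    intro p hp
    rw [hF, mem_product, mem_powersetCard, mem_powersetCard] at hp
    exact ⟨hp.1.2, hp.2.2⟩
  have hFc : (F.card : ℝ) = (n.choose (4 * ρ) : ℝ) ^ 2 := by
    rw [hF, card_product, card_powersetCard, card_univ, Fintype.card_fin]
    push_cast
    ring
  -- split off the bad inputs
  set A1 := fil fun z => P.Accepts T z ∧ Good P T L ω ρ q e z with hA1
  set A2 := fil fun z => P.Accepts T z ∧ ¬ Good P T L ω ρ q e z with hA2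
  have hsplit : ∑ z ∈ fil (P.Accepts T), sg (cub M z) =
      ∑ z ∈ A1, sg (cub M z) + ∑ z ∈ A2, sg (cub M z) := by
    rw [← Finset.sum_union]
    · refine Finset.sum_congr ?_ fun _ _ => rfl
      ext z
      rw [mem_union, hA1, hA2, mem_fil, mem_fil, mem_fil]
      tauto
    · rw [Finset.disjoint_left]
      intro z h1 h2
      rw [hA1, mem_fil] at h1
      rw [hA2, mem_fil] at h2
      exact h2.2 h1.2
  rw [hsplit]
  refine (abs_add_le _ _).trans ?_
  rw [add_comm]
  refine add_le_add ?_ ?_
  · refine (Finset.abs_sum_le_sum_abs _ _).trans ?_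
    rw [Finset.sum_congr rfl fun z _ => abs_sg _, Finset.sum_const, nsmul_eq_mul, mul_one]
    have : A2 ⊆ fil fun z => ¬ Good P T L ω ρ q e z := by
      intro z hz
      rw [hA2, mem_fil] at hz
      exact mem_fil.2 hz.2
    exact_mod_cast card_le_card this
  · set key : (Cell n → ZMod 2) → (Fin (r + 1) → V) × Finset (Fin n) ×
        (Finset (Fin n) × Finset (Fin n)) := fun x =>
      (fun j => P.state x (min (j.val * L) T), pick q e (DS 2 (UF P T L ω x)),
        pr ρ (UN P T L ω x)) with hkey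
    set t : Finset ((Fin (r + 1) → V) × Finset (Fin n) × (Finset (Fin n) × Finset (Fin n))) :=
      univ ×ˢ (fam n q e ×ˢ F) with ht
    have hmaps : ∀ z ∈ A1, key z ∈ t := by
      intro z hz
      rw [hA1, mem_fil] at hz
      obtain ⟨-, ⟨g1, g2⟩, g3⟩ := hz
      rw [ht, mem_product, mem_product, hF, mem_product, mem_powersetCard, mem_powersetCard]
      exact ⟨mem_univ _, pick_mem g3, ⟨subset_univ _, trunc_card g1⟩,
        ⟨subset_univ _, trunc_card g2⟩⟩
    rw [← Finset.sum_fiberwise_of_maps_to hmaps]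
    have hfil : ∀ κ : (Fin (r + 1) → V) × Finset (Fin n) × (Finset (Fin n) × Finset (Fin n)),
        (A1.filter fun z => key z = κ) = fil (Cls P T L ω ρ q e κ.1 κ.2.1 κ.2.2) := by
      intro κ
      ext z
      rw [mem_filter, hA1, mem_fil, mem_fil, hkey]
      simp only [Cls, Prod.ext_iff, funext_iff]
      tauto
    refine (Finset.abs_sum_le_sum_abs _ _).trans ?_
    simp only [hfil]
    rw [ht, Finset.sum_product]
    have hone : ∀ (b : Fin (r + 1) → V), ∑ y ∈ fam n q e ×ˢ F,
        |∑ z ∈ fil (Cls P T L ω ρ q e b y.1 y.2), sg (cub M z)| ≤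
        (fam n q e).card * (2 ^ (3 * n) * E) := by
      intro b
      rw [Finset.sum_product]
      calc _ ≤ ∑ _Q ∈ fam n q e, 2 ^ (3 * n) * E := by
            refine Finset.sum_le_sum fun Q hQ => ?_
            have hQc := fam_mem_card hQ
            refine family hM hρ (by rw [hQc]; exact hm) hm0 hme F hFm
              (Cls P T L ω ρ q e b Q) (fun p _ => cls_closed P hL hT ω ρ q e b Q p)
              (fun p _ p' _ z z' v hz hz' h h' =>
                cls_disj P hL hT ω ρ q e b Q p p' z z' v hz hz' h h') hE0 ?_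
            rw [hFc, hQc]
            exact hE
        _ = _ := by rw [Finset.sum_const, nsmul_eq_mul]
    refine (Finset.sum_le_sum fun b _ => hone b).trans (le_of_eq ?_)
    rw [Finset.sum_const, card_univ, Fintype.card_fun, Fintype.card_fin, nsmul_eq_mul]
    push_cast
    rfl

end Pool.Agent.Lib_helper26.TB
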