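import Pool.Agent.Lib_helper26.TB.Rank

/-!
# A tensor all of whose slices have a large rank on all large rectangles
-/

set_option autoImplicit false
set_option linter.unusedSectionVars false

namespace Pool.Agent.Lib_helper26.TB

open Finset

/-- fibres of surjective homomorphisms have the same size -/
theorem fiber_card {G H : Type} [AddCommGroup G] [AddCommGroup H] [Fintype G] [Fintype H]
    [DecidableEq H] (Φ : G →+ H) (hΦ : Function.Surjective Φ) (p : H → Prop) [DecidablePred p] :
    (univ.filter fun g => p (Φ g)).card * Fintype.card H =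
      (univ.filter p).card * Fintype.card G := by
  classical
  have hc : ∀ h : H, (univ.filter fun g => Φ g = h).card = (univ.filter fun g => Φ g = 0).card :=
    fun h => AddMonoidHom.card_fiber_eq_of_mem_range Φ (hΦ h) (hΦ 0)
  have h1 : (univ.filter fun g => p (Φ g)).card =
      (univ.filter p).card * (univ.filter fun g => Φ g = 0).card := by
    rw [Finset.card_eq_sum_card_fiberwise (f := Φ) (t := univ.filter p)]
    · calc _ = ∑ _h ∈ univ.filter p, (univ.filter fun g => Φ g = 0).card := by
            refine Finset.sum_congr rfl fun h hh => ?_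
            rw [← hc h, Finset.filter_filter]
            congr 1
            refine Finset.filter_congr fun g _ => ?_
            constructor
            · exact fun h' => h'.2
            · rintro rfl
              exact ⟨(mem_filter.1 hh).2, rfl⟩
        _ = _ := by rw [Finset.sum_const, smul_eq_mul]
    · intro g hg
      exact mem_coe.2 (mem_filter.2 ⟨mem_univ _, (mem_filter.1 (mem_coe.1 hg)).2⟩)
  have h2 : Fintype.card G = Fintype.card H * (univ.filter fun g => Φ g = 0).card := by
    rw [← card_univ, Finset.card_eq_sum_card_fiberwise (f := Φ) (t := univ)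
      (fun _ _ => mem_coe.2 (mem_univ _))]
    rw [Finset.sum_congr rfl fun h _ => hc h, Finset.sum_const, smul_eq_mul, card_univ]
  rw [h1, h2]
  ring

variable {n : ℕ}

/-- the kernel of a slice on a rectangle -/
def kerN (M : Fin n → Fin n → Fin n → ZMod 2) (y : Fin n → ZMod 2) (A B : Finset (Fin n)) :
    Finset (Fin n → ZMod 2) :=
  univ.filter fun x => ∀ j ∈ B, ∑ i ∈ A, (∑ l, y l * M i j l) * x i = 0

/-- all slices have large rank on all large rectangles -/
def Rich (M : Fin n → Fin n → Fin n → ZMod 2) : Prop :=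
  ∀ (y : Fin n → ZMod 2) (A B : Finset (Fin n)) (ρ : ℕ), y ≠ 0 → A.card = 4 * ρ →
    B.card = 4 * ρ → n ≤ ρ ^ 2 → (kerN M y A B).card * 2 ^ ρ ≤ 2 ^ n

/-- a slice on a rectangle, as a homomorphism -/
def slice (y : Fin n → ZMod 2) (A B : Finset (Fin n)) :
    (Fin n → Fin n → Fin n → ZMod 2) →+ (A → B → ZMod 2) where
  toFun M i j := ∑ l, y l * M i j l
  map_zero' := by
    funext i j
    simp
  map_add' M M' := by
    funext i j
    simp only [Pi.add_apply, mul_add, Finset.sum_add_distrib]

theorem slice_surj {y : Fin n → ZMod 2} (hy : y ≠ 0) (A B : Finset (Fin n)) :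
    Function.Surjective (slice y A B) := by
  classical
  obtain ⟨l0, hl0⟩ := Function.ne_iff.1 hy
  have h1 : y l0 = 1 := by
    have : ∀ a : ZMod 2, a ≠ 0 → a = 1 := by decide
    exact this _ hl0
  intro N
  refine ⟨fun i j l => if h : i ∈ A ∧ j ∈ B ∧ l = l0 then N ⟨i, h.1⟩ ⟨j, h.2.1⟩ else 0, ?_⟩
  funext i j
  show ∑ l, y l * (if h : (i : Fin n) ∈ A ∧ (j : Fin n) ∈ B ∧ l = l0 then
    N ⟨i, h.1⟩ ⟨j, h.2.1⟩ else 0) = _
  rw [Finset.sum_eq_single l0]
  · rw [dif_pos ⟨i.2, j.2, rfl⟩, h1, one_mul]
  · intro l _ hl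
    rw [dif_neg (fun h => hl h.2.2), mul_zero]
  · intro h
    exact absurd (mem_univ _) h

/-- restriction of vectors -/
def restr (A : Finset (Fin n)) : (Fin n → ZMod 2) →+ (A → ZMod 2) where
  toFun x i := x i
  map_zero' := rfl
  map_add' _ _ := rfl

theorem restr_surj (A : Finset (Fin n)) : Function.Surjective (restr A) := by
  classical
  intro x
  refine ⟨fun i => if h : i ∈ A then x ⟨i, h⟩ else 0, ?_⟩
  funext i
  show (if h : (i : Fin n) ∈ A then x ⟨i, h⟩ else 0) = _
  rw [dif_pos i.2]

theorem card_kerN (M : Fin n → Fin n → Fin n → ZMod 2) (y : Fin n → ZMod 2)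
    (A B : Finset (Fin n)) :
    (kerN M y A B).card * 2 ^ A.card = (ker (slice y A B M)).card * 2 ^ n := by
  classical
  have h := fiber_card (restr A) (restr_surj A)
    (fun x => ∀ j, ∑ i, slice y A B M i j * x i = 0)
  rw [Fintype.card_fun, Fintype.card_fun, ZMod.card, Fintype.card_fin, Fintype.card_coe] at h
  have e : kerN M y A B =
      univ.filter fun x => ∀ j, ∑ i, slice y A B M i j * (restr A x) i = 0 := by
    unfold kerN
    refine Finset.filter_congr fun x _ => ?_
    rw [Subtype.forall]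
    refine forall₂_congr fun j hj => ?_
    rw [← Finset.sum_coe_sort A (fun i => (∑ l, y l * M i j l) * x i)]
    rfl
  rw [e]
  exact h

/-- few tensors are bad for a given slice and rectangle -/
theorem bad_tensors {y : Fin n → ZMod 2} (hy : y ≠ 0) {A B : Finset (Fin n)} {ρ : ℕ}
    (hA : A.card = 4 * ρ) (hB : B.card = 4 * ρ) :
    (univ.filter fun M : Fin n → Fin n → Fin n → ZMod 2 =>
      2 ^ n < (kerN M y A B).card * 2 ^ ρ).card * 2 ^ (8 * ρ ^ 2) ≤
      Fintype.card (Fin n → Fin n → Fin n → ZMod 2) := by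
  classical
  have h := fiber_card (slice y A B) (slice_surj hy A B)
    (fun N => 2 ^ Fintype.card A < (ker N).card * 2 ^ ρ)
  have hc := bad_count (α := A) (β := B) ρ
  have e : (univ.filter fun M : Fin n → Fin n → Fin n → ZMod 2 =>
      2 ^ n < (kerN M y A B).card * 2 ^ ρ) =
      univ.filter fun M => 2 ^ Fintype.card A < (ker (slice y A B M)).card * 2 ^ ρ := by
    refine Finset.filter_congr fun M _ => ?_
    have h1 := card_kerN M y A B
    rw [Fintype.card_coe]
    have h2 : 0 < 2 ^ A.card := by positivity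
    have h3 : 0 < 2 ^ n := by positivity
    constructor
    · intro h4
      have h5 : 2 ^ n * 2 ^ A.card < (kerN M y A B).card * 2 ^ ρ * 2 ^ A.card :=
        Nat.mul_lt_mul_of_pos_right h4 h2
      have h6 : (kerN M y A B).card * 2 ^ ρ * 2 ^ A.card =
          2 ^ n * ((ker (slice y A B M)).card * 2 ^ ρ) := by
        calc _ = ((kerN M y A B).card * 2 ^ A.card) * 2 ^ ρ := by ring
          _ = _ := by rw [h1]; ring
      rw [h6] at h5
      exact Nat.lt_of_mul_lt_mul_left h5
    · intro h4
      have h5 : 2 ^ A.card * 2 ^ n < (ker (slice y A B M)).card * 2 ^ ρ * 2 ^ n :=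
        Nat.mul_lt_mul_of_pos_right h4 h3
      have h6 : (ker (slice y A B M)).card * 2 ^ ρ * 2 ^ n =
          2 ^ A.card * ((kerN M y A B).card * 2 ^ ρ) := by
        calc _ = ((ker (slice y A B M)).card * 2 ^ n) * 2 ^ ρ := by ring
          _ = _ := by rw [← h1]; ring
      rw [h6] at h5
      exact Nat.lt_of_mul_lt_mul_left h5
  rw [e]
  rw [Fintype.card_fun (α := A), Fintype.card_fun, ZMod.card, Fintype.card_coe, Fintype.card_coe,
    hA, hB, ← pow_mul] at h
  rw [Fintype.card_coe, Fintype.card_coe, hA, hB] at hc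
  have h3 : 0 < 2 ^ (ρ * (4 * ρ + 4 * ρ)) := by positivity
  refine Nat.le_of_mul_le_mul_right ?_ h3
  calc _ = (univ.filter fun M => 2 ^ Fintype.card A < (ker (slice y A B M)).card * 2 ^ ρ).card *
        2 ^ (4 * ρ * (4 * ρ)) := by
        rw [mul_assoc, ← pow_add]
        congr 2
        ring
    _ = _ := by
        rw [Fintype.card_coe, hA]
        exact h
    _ ≤ 2 ^ (ρ * (4 * ρ + 4 * ρ)) * Fintype.card (Fin n → Fin n → Fin n → ZMod 2) :=
        Nat.mul_le_mul_right _ hc
    _ = _ := Nat.mul_comm _ _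

/-- there is a rich tensor -/
theorem exists_rich (n : ℕ) (hn : 0 < n) : ∃ M : Fin n → Fin n → Fin n → ZMod 2, Rich M := by
  classical
  by_contra hcon
  push Not at hcon
  -- the events
  set E : Finset ((Fin n → ZMod 2) × Finset (Fin n) × Finset (Fin n)) :=
    univ.filter fun e => e.1 ≠ 0 ∧ ∃ ρ, e.2.1.card = 4 * ρ ∧ e.2.2.card = 4 * ρ ∧ n ≤ ρ ^ 2 with hE
  have hsub : (univ : Finset (Fin n → Fin n → Fin n → ZMod 2)) ⊆
      E.biUnion fun e => univ.filter fun M : Fin n → Fin n → Fin n → ZMod 2 =>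
        2 ^ n < (kerN M e.1 e.2.1 e.2.2).card * 2 ^ (e.2.1.card / 4) := by
    intro M _
    have h1 := hcon M
    unfold Rich at h1
    push Not at h1
    obtain ⟨y, A, B, ρ, hy, hA, hB, hρ, hlt⟩ := h1
    rw [mem_biUnion]
    refine ⟨(y, A, B), ?_, ?_⟩
    · rw [hE, mem_filter]
      exact ⟨mem_univ _, hy, ρ, hA, hB, hρ⟩
    · rw [mem_filter]
      refine ⟨mem_univ _, ?_⟩
      simp only [hA]
      rw [Nat.mul_div_cancel_left ρ (by norm_num)]
      exact hlt
  set C := Fintype.card (Fin n → Fin n → Fin n → ZMod 2) with hC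
  have hC0 : 0 < C := Fintype.card_pos
  have hEc : E.card ≤ 2 ^ (3 * n) := by
    refine (card_le_univ E).trans (le_of_eq ?_)
    rw [Fintype.card_prod, Fintype.card_prod, Fintype.card_fun, ZMod.card, Fintype.card_finset,
      Fintype.card_fin, ← pow_add, ← pow_add]
    congr 1
    ring
  have h1 : C * 2 ^ (8 * n) ≤ 2 ^ (3 * n) * C := by
    calc C * 2 ^ (8 * n) ≤ (E.biUnion fun e => univ.filter
          fun M : Fin n → Fin n → Fin n → ZMod 2 =>
          2 ^ n < (kerN M e.1 e.2.1 e.2.2).card * 2 ^ (e.2.1.card / 4)).card * 2 ^ (8 * n) := by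
          refine Nat.mul_le_mul_right _ ?_
          rw [hC, ← card_univ]
          exact card_le_card hsub
      _ ≤ (∑ e ∈ E, (univ.filter fun M : Fin n → Fin n → Fin n → ZMod 2 =>
          2 ^ n < (kerN M e.1 e.2.1 e.2.2).card * 2 ^ (e.2.1.card / 4)).card) * 2 ^ (8 * n) :=
          Nat.mul_le_mul_right _ card_biUnion_le
      _ = ∑ e ∈ E, (univ.filter fun M : Fin n → Fin n → Fin n → ZMod 2 =>
          2 ^ n < (kerN M e.1 e.2.1 e.2.2).card * 2 ^ (e.2.1.card / 4)).card * 2 ^ (8 * n) := by
          rw [Finset.sum_mul]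
      _ ≤ ∑ _e ∈ E, C := by
          refine Finset.sum_le_sum fun e he => ?_
          rw [hE, mem_filter] at he
          obtain ⟨-, hy, ρ, hA, hB, hρ⟩ := he
          have h2 := bad_tensors hy hA hB
          rw [hA, Nat.mul_div_cancel_left ρ (by norm_num)]
          refine le_trans (Nat.mul_le_mul_left _ ?_) h2
          exact Nat.pow_le_pow_right (by norm_num) (Nat.mul_le_mul_left _ hρ)
      _ = E.card * C := by rw [Finset.sum_const, smul_eq_mul]
      _ ≤ 2 ^ (3 * n) * C := Nat.mul_le_mul_right _ hEc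
  rw [mul_comm] at h1
  have h2 := Nat.le_of_mul_le_mul_right h1 hC0
  have h3 := (Nat.pow_le_pow_iff_right (by norm_num : 1 < 2)).1 h2
  omega

end Pool.Agent.Lib_helper26.TB
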