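import Pool.Agent.Lib_helper26.TB.Defs
import Pool.Agent.Lib_helper26.TB.Char
import Pool.Agent.Lib_helper26.TB.Rich
import Pool.Agent.Lib_helper26.TS.Hits

/-!
# Moments for the cubic form
-/

set_option autoImplicit false
set_option linter.unusedSectionVars false

namespace Pool.Agent.Lib_helper26.TB

open Finset
open Pool.Agent.Lib_helper26.TS (fil mem_fil fil_congr card_fixed)

variable {n : ℕ}

/-- the cells of the word `s` with the numbers in `A` -/
def side (s : Fin 3) (A : Finset (Fin n)) : Finset (Cell n) :=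
  A.map ⟨fun i => (s, i), fun _ _ h => (Prod.mk.inj h).2⟩

theorem mem_side {s t : Fin 3} {i : Fin n} {A : Finset (Fin n)} :
    (t, i) ∈ side s A ↔ t = s ∧ i ∈ A := by
  unfold side
  rw [mem_map]
  constructor
  · rintro ⟨a, ha, h⟩
    obtain ⟨h1, h2⟩ := Prod.mk.inj h
    subst h1 h2
    exact ⟨rfl, ha⟩
  · rintro ⟨rfl, h⟩
    exact ⟨i, h, rfl⟩

theorem sum_side {s : Fin 3} {A : Finset (Fin n)} (f : Cell n → ZMod 2) :
    ∑ e ∈ side s A, f e = ∑ i ∈ A, f (s, i) := by
  unfold side
  rw [Finset.sum_map]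
  rfl

theorem card_cell : Fintype.card (Cell n) = 3 * n := by
  rw [Fintype.card_prod, Fintype.card_fin, Fintype.card_fin]

/-- the coefficient of a bit of the third word -/
def coef (M : Fin n → Fin n → Fin n → ZMod 2) (l : Fin n) (z : Cell n → ZMod 2) : ZMod 2 :=
  ∑ i, ∑ j, M i j l * z (0, i) * z (1, j)

theorem cub_eq (M : Fin n → Fin n → Fin n → ZMod 2) (z : Cell n → ZMod 2) :
    cub M z = ∑ l, z (2, l) * coef M l z := by
  unfold cub coef
  symm
  calc ∑ l, z (2, l) * ∑ i, ∑ j, M i j l * z (0, i) * z (1, j) =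
        ∑ l, ∑ i, ∑ j, M i j l * z (0, i) * z (1, j) * z (2, l) := by
        refine Finset.sum_congr rfl fun l _ => ?_
        rw [Finset.mul_sum]
        refine Finset.sum_congr rfl fun i _ => ?_
        rw [Finset.mul_sum]
        exact Finset.sum_congr rfl fun j _ => by ring
    _ = ∑ i, ∑ l, ∑ j, M i j l * z (0, i) * z (1, j) * z (2, l) := Finset.sum_comm
    _ = ∑ i, ∑ j, ∑ l, M i j l * z (0, i) * z (1, j) * z (2, l) :=
        Finset.sum_congr rfl fun i _ => Finset.sum_comm

theorem coef_mix (M : Fin n → Fin n → Fin n → ZMod 2) (l : Fin n) (Q : Finset (Fin n))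
    (y z : Cell n → ZMod 2) : coef M l (mix (side 2 Q) y z) = coef M l z := by
  unfold coef
  have h0 : ∀ i : Fin n, mix (side 2 Q) y z (0, i) = z (0, i) := fun i =>
    mix_neg (fun h => by simpa using (mem_side.1 h).1)
  have h1 : ∀ i : Fin n, mix (side 2 Q) y z (1, i) = z (1, i) := fun i =>
    mix_neg (fun h => by simpa using (mem_side.1 h).1)
  simp only [h0, h1]

theorem cub_mix (M : Fin n → Fin n → Fin n → ZMod 2) (Q : Finset (Fin n))
    (z y : Cell n → ZMod 2) : cub M (mix (side 2 Q) y z) =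
      (∑ l ∈ univ \ Q, z (2, l) * coef M l z) + ∑ e ∈ side 2 Q, y e * coef M e.2 z := by
  rw [cub_eq, sum_side, ← Finset.sum_sdiff (subset_univ Q)]
  congr 1
  · refine Finset.sum_congr rfl fun l hl => ?_
    rw [coef_mix, mix_neg]
    intro h
    exact (mem_sdiff.1 hl).2 (mem_side.1 h).2
  · refine Finset.sum_congr rfl fun l hl => ?_
    rw [coef_mix, mix_pos (mem_side.2 ⟨rfl, hl⟩)]

/-- the affine system has at most as many solutions as the linear one -/
theorem affine_le (M : Fin n → Fin n → Fin n → ZMod 2) (y : Fin n → ZMod 2)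
    (A B : Finset (Fin n)) (d : Fin n → ZMod 2) :
    (univ.filter fun x : Fin n → ZMod 2 =>
      ∀ j ∈ B, ∑ i, (∑ l, y l * M i j l) * (if i ∈ A then x i else d i) = 0).card ≤
      (kerN M y A B).card := by
  classical
  rcases Finset.eq_empty_or_nonempty (univ.filter fun x : Fin n → ZMod 2 =>
      ∀ j ∈ B, ∑ i, (∑ l, y l * M i j l) * (if i ∈ A then x i else d i) = 0) with h | ⟨x0, hx0⟩
  · rw [h, card_empty]
    exact Nat.zero_le _
  · refine card_le_card_of_injOn (fun x => x + x0) ?_ ?_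
    · intro x hx
      have h1 := (mem_filter.1 (mem_coe.1 hx)).2
      have h2 := (mem_filter.1 hx0).2
      refine mem_coe.2 (mem_filter.2 ⟨mem_univ _, fun j hj => ?_⟩)
      have h3 : ∑ i ∈ A, (∑ l, y l * M i j l) * (x + x0) i =
          ∑ i, (∑ l, y l * M i j l) * (if i ∈ A then x i else d i) +
          ∑ i, (∑ l, y l * M i j l) * (if i ∈ A then x0 i else d i) := by
        rw [← Finset.sum_add_distrib, ← Finset.sum_subset (subset_univ A)]
        · refine Finset.sum_congr rfl fun i hi => ?_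
          rw [if_pos hi, if_pos hi, Pi.add_apply]
          ring
        · intro i _ hi
          rw [if_neg hi, if_neg hi]
          exact CharTwo.add_self_eq_zero _
      rw [h3, h1 j hj, h2 j hj, add_zero]
    · intro x _ x' _ h
      exact add_right_cancel h

/-- the first word -/
def word0 (n : ℕ) : (Cell n → ZMod 2) →+ (Fin n → ZMod 2) where
  toFun z i := z (0, i)
  map_zero' := rfl
  map_add' _ _ := rfl

theorem word0_surj : Function.Surjective (word0 n) := fun x => ⟨fun e => x e.2, rfl⟩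

/-- the bias of a slice -/
theorem bias {M : Fin n → Fin n → Fin n → ZMod 2} (hM : Rich M) {v : Fin n → ZMod 2} (hv : v ≠ 0)
    {A B : Finset (Fin n)} {ρ : ℕ} (hA : A.card = 4 * ρ) (hB : B.card = 4 * ρ) (hρ : n ≤ ρ ^ 2)
    (z : Cell n → ZMod 2) :
    |∑ c, sg (∑ l, v l * coef M l (mix (side 0 A ∪ side 1 B) c z))| * 2 ^ ρ ≤ 2 ^ (3 * n) := by
  classical
  set P := side 0 A ∪ side 1 B with hP
  have hm0 : ∀ i, ((0 : Fin 3), i) ∈ P ↔ i ∈ A := by
    intro i
    rw [hP, mem_union, mem_side, mem_side]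
    simp
  have hm1 : ∀ i, ((1 : Fin 3), i) ∈ P ↔ i ∈ B := by
    intro i
    rw [hP, mem_union, mem_side, mem_side]
    simp
  set Nn : Fin n → Fin n → ZMod 2 := fun i j => ∑ l, v l * M i j l with hN
  set H : Fin n → (Cell n → ZMod 2) → ZMod 2 := fun j c =>
    ∑ i, Nn i j * (if i ∈ A then c (0, i) else z (0, i)) with hH
  set φ : (Cell n → ZMod 2) → ZMod 2 := fun w => ∑ l, v l * coef M l w with hφ
  have hφ' : ∀ w, φ w = ∑ j, w (1, j) * ∑ i, Nn i j * w (0, i) := by
    intro w
    rw [hφ]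
    simp only [coef, hN]
    calc ∑ l, v l * ∑ i, ∑ j, M i j l * w (0, i) * w (1, j) =
          ∑ l, ∑ i, ∑ j, v l * M i j l * w (0, i) * w (1, j) := by
          refine Finset.sum_congr rfl fun l _ => ?_
          rw [Finset.mul_sum]
          refine Finset.sum_congr rfl fun i _ => ?_
          rw [Finset.mul_sum]
          exact Finset.sum_congr rfl fun j _ => by ring
      _ = ∑ i, ∑ l, ∑ j, v l * M i j l * w (0, i) * w (1, j) := Finset.sum_comm
      _ = ∑ i, ∑ j, ∑ l, v l * M i j l * w (0, i) * w (1, j) :=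
          Finset.sum_congr rfl fun i _ => Finset.sum_comm
      _ = ∑ j, ∑ i, ∑ l, v l * M i j l * w (0, i) * w (1, j) := Finset.sum_comm
      _ = _ := by
          refine Finset.sum_congr rfl fun j _ => ?_
          rw [Finset.mul_sum]
          refine Finset.sum_congr rfl fun i _ => ?_
          rw [Finset.sum_mul, Finset.mul_sum]
          exact Finset.sum_congr rfl fun l _ => by ring
  -- average over the second word
  have h1 : ∑ c, sg (φ (mix P c z)) * 2 ^ (3 * n) =
      ∑ c, ∑ d, sg (φ (mix P (mix (side 1 B) d c) z)) := by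
    have := sum_mix (side 1 B) (fun c => sg (φ (mix P c z)))
    rw [card_cell] at this
    rw [← Finset.sum_mul, mul_comm]
    exact this.symm
  have h2 : ∀ c d, φ (mix P (mix (side 1 B) d c) z) =
      (∑ j ∈ univ \ B, z (1, j) * H j c) + ∑ e ∈ side 1 B, d e * H e.2 c := by
    intro c d
    rw [hφ', sum_side, ← Finset.sum_sdiff (subset_univ B)]
    have e0 : ∀ j, ∑ i, Nn i j * mix P (mix (side 1 B) d c) z (0, i) = H j c := by
      intro j
      rw [hH]
      simp only
      refine Finset.sum_congr rfl fun i _ => ?_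
      congr 1
      by_cases hi : i ∈ A
      · rw [mix_pos ((hm0 i).2 hi), if_pos hi, mix_neg]
        intro h
        simpa using (mem_side.1 h).1
      · rw [mix_neg (fun h => hi ((hm0 i).1 h)), if_neg hi]
    congr 1
    · refine Finset.sum_congr rfl fun j hj => ?_
      rw [e0, mix_neg]
      intro h
      exact (mem_sdiff.1 hj).2 ((hm1 j).1 h)
    · refine Finset.sum_congr rfl fun j hj => ?_
      rw [e0, mix_pos ((hm1 j).2 hj), mix_pos (mem_side.2 ⟨rfl, hj⟩)]
  have h3 : ∀ c, |∑ d, sg (φ (mix P (mix (side 1 B) d c) z))| ≤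
      if ∀ j ∈ B, H j c = 0 then (2:ℝ) ^ (3 * n) else 0 := by
    intro c
    have e1 : ∑ d, sg (φ (mix P (mix (side 1 B) d c) z)) =
        sg (∑ j ∈ univ \ B, z (1, j) * H j c) *
        ∑ d : Cell n → ZMod 2, sg (∑ e ∈ side 1 B, d e * H e.2 c) := by
      rw [Finset.mul_sum]
      exact Finset.sum_congr rfl fun d _ => by rw [h2, sg_add]
    rw [e1, abs_mul, abs_sg, one_mul, sum_vec (side 1 B) (fun e => H e.2 c), card_cell]
    have e2 : (∀ e ∈ side 1 B, H e.2 c = 0) ↔ ∀ j ∈ B, H j c = 0 := by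
      constructor
      · intro h j hj
        exact h (1, j) (mem_side.2 ⟨rfl, hj⟩)
      · rintro h ⟨s, j⟩ he
        exact h j (mem_side.1 he).2
    simp only [e2]
    split_ifs
    · rw [abs_of_nonneg (by positivity)]
    · rw [abs_zero]
  -- the number of solutions
  set D := univ.filter fun c : Cell n → ZMod 2 => ∀ j ∈ B, H j c = 0 with hD
  have h4 : |∑ c, sg (φ (mix P c z))| ≤ D.card := by
    have h5 : |∑ c, sg (φ (mix P c z))| * 2 ^ (3 * n) ≤ D.card * 2 ^ (3 * n) := by
      rw [← abs_of_nonneg (by positivity : (0:ℝ) ≤ 2 ^ (3 * n)), ← abs_mul, Finset.sum_mul, h1,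
        abs_of_nonneg (by positivity : (0:ℝ) ≤ 2 ^ (3 * n))]
      refine (Finset.abs_sum_le_sum_abs _ _).trans ((Finset.sum_le_sum fun c _ => h3 c).trans ?_)
      rw [← Finset.sum_filter, Finset.sum_const, nsmul_eq_mul]
    exact le_of_mul_le_mul_right h5 (by positivity)
  have h6 : D.card * 2 ^ n ≤ (kerN M v A B).card * 2 ^ (3 * n) := by
    have h7 := fiber_card (word0 n) word0_surj (fun x : Fin n → ZMod 2 =>
      ∀ j ∈ B, ∑ i, Nn i j * (if i ∈ A then x i else z (0, i)) = 0)
    rw [Fintype.card_fun, Fintype.card_fun, ZMod.card, Fintype.card_fin, card_cell] at h7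
    calc D.card * 2 ^ n = _ := h7
      _ ≤ _ := Nat.mul_le_mul_right _ (affine_le M v A B (fun i => z (0, i)))
  have h8 : D.card * 2 ^ ρ ≤ 2 ^ (3 * n) := by
    have h9 := hM v A B ρ hv hA hB hρ
    have h10 : 0 < 2 ^ n := by positivity
    refine Nat.le_of_mul_le_mul_right ?_ h10
    calc D.card * 2 ^ ρ * 2 ^ n = (D.card * 2 ^ n) * 2 ^ ρ := by ring
      _ ≤ ((kerN M v A B).card * 2 ^ (3 * n)) * 2 ^ ρ := Nat.mul_le_mul_right _ h6
      _ = ((kerN M v A B).card * 2 ^ ρ) * 2 ^ (3 * n) := by ring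
      _ ≤ 2 ^ n * 2 ^ (3 * n) := Nat.mul_le_mul_right _ h9
      _ = _ := Nat.mul_comm _ _
  calc |∑ c, sg (φ (mix P c z))| * 2 ^ ρ ≤ D.card * 2 ^ ρ :=
        mul_le_mul_of_nonneg_right h4 (by positivity)
    _ ≤ 2 ^ (3 * n) := by exact_mod_cast h8

/-- the moment bound for the cubic form -/
theorem cub_moment {M : Fin n → Fin n → Fin n → ZMod 2} (hM : Rich M)
    {A B Q : Finset (Fin n)} {ρ : ℕ} (hA : A.card = 4 * ρ) (hB : B.card = 4 * ρ) (hρ : n ≤ ρ ^ 2)
    {X : (Cell n → ZMod 2) → ℝ} (hX : ∀ z y, X (mix (side 2 Q) y z) = X z)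
    (hX1 : ∀ z, |X z| ≤ 1) {m : ℕ} (hm : Q.card ≤ ρ * m) :
    (∑ z, (∑ c, X (mix (side 0 A ∪ side 1 B) c z) *
      sg (cub M (mix (side 0 A ∪ side 1 B) c z))) ^ m) * 2 ^ Q.card ≤
      2 * (2 ^ (3 * n) * 2 ^ (3 * n * m)) := by
  classical
  set P := side 0 A ∪ side 1 B with hP
  have hPQ : Disjoint P (side 2 Q) := by
    rw [Finset.disjoint_left]
    rintro ⟨s, i⟩ h h'
    rw [hP, mem_union, mem_side, mem_side] at h
    have h2 := (mem_side.1 h').1
    subst h2
    simp at h
  have h1 := moment hPQ hX hX1 (f := cub M)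
    (g0 := fun z => ∑ l ∈ univ \ Q, z (2, l) * coef M l z) (g := fun e z => coef M e.2 z)
    (fun z y => cub_mix M Q z y) m
  rw [card_cell] at h1
  -- the inner sums
  have h2 : ∀ (z y : Cell n → ZMod 2),
      (∑ c, sg (∑ e ∈ side 2 Q, y e * coef M e.2 (mix P c z))) ^ m ≤
      (if ∀ e ∈ side 2 Q, y e = 0 then (2:ℝ) ^ (3 * n * m) else 0) +
        2 ^ (3 * n * m) / 2 ^ (ρ * m) := by
    intro z y
    by_cases hy : ∀ e ∈ side 2 Q, y e = 0
    · rw [if_pos hy]
      have e1 : ∀ c, sg (∑ e ∈ side 2 Q, y e * coef M e.2 (mix P c z)) = 1 := by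
        intro c
        rw [Finset.sum_eq_zero, sg_zero]
        intro e he
        rw [hy e he, zero_mul]
      rw [Finset.sum_congr rfl fun c _ => e1 c, Finset.sum_const, card_univ, nsmul_eq_mul, mul_one,
        card_pi, card_cell, ← pow_mul]
      have : (0:ℝ) ≤ 2 ^ (3 * n * m) / 2 ^ (ρ * m) := by positivity
      linarith
    · rw [if_neg hy, zero_add]
      set v : Fin n → ZMod 2 := fun l => if l ∈ Q then y (2, l) else 0 with hv
      have hv0 : v ≠ 0 := by
        push Not at hy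
        obtain ⟨⟨s, l⟩, he, hne⟩ := hy
        intro h
        apply hne
        obtain ⟨hs, hl⟩ := mem_side.1 he
        subst hs
        have := congrFun h l
        rw [hv] at this
        simp only [if_pos hl] at this
        exact this
      have e1 : ∀ c, ∑ e ∈ side 2 Q, y e * coef M e.2 (mix P c z) =
          ∑ l, v l * coef M l (mix P c z) := by
        intro c
        rw [sum_side (fun e => y e * coef M e.2 (mix P c z)), ← Finset.sum_subset (subset_univ Q)]
        · refine Finset.sum_congr rfl fun l hl => ?_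
          rw [hv]
          simp only [if_pos hl]
        · intro l _ hl
          rw [hv]
          simp only [if_neg hl, zero_mul]
      have e2 := bias hM hv0 hA hB hρ z
      rw [← hP] at e2
      rw [Finset.sum_congr rfl fun c _ => by rw [e1 c]]
      rw [pow_mul (2:ℝ) (3 * n) m, pow_mul (2:ℝ) ρ m, ← div_pow]
      refine (le_abs_self _).trans ?_
      rw [abs_pow]
      refine pow_le_pow_left₀ (abs_nonneg _) ?_ m
      rw [le_div_iff₀ (by positivity)]
      exact e2
  have h3 : ∀ z : Cell n → ZMod 2, ∑ y : Cell n → ZMod 2,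
      (∑ c, sg (∑ e ∈ side 2 Q, y e * coef M e.2 (mix P c z))) ^ m ≤
      2 ^ (3 * n * m) * (2 * (2 ^ (3 * n) / 2 ^ Q.card)) := by
    intro z
    refine (Finset.sum_le_sum fun y _ => h2 z y).trans ?_
    rw [Finset.sum_add_distrib, ← Finset.sum_filter, Finset.sum_const, Finset.sum_const,
      nsmul_eq_mul, nsmul_eq_mul, card_univ, card_pi, card_cell]
    have e1 : ((univ.filter fun y : Cell n → ZMod 2 => ∀ e ∈ side 2 Q, y e = 0).card : ℝ) =
        2 ^ (3 * n) / 2 ^ Q.card := by
      rw [eq_div_iff (by positivity)]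
      have h4 := card_fixed (side 2 Q) (fun _ : Cell n => (0 : ZMod 2))
      rw [card_cell, ZMod.card, side, card_map] at h4
      have h5 : (fil fun ω : Cell n → ZMod 2 => ∀ i ∈ side 2 Q, ω i = 0) =
          univ.filter fun y : Cell n → ZMod 2 => ∀ e ∈ side 2 Q, y e = 0 := by
        ext ω
        rw [mem_fil, mem_filter]
        exact ⟨fun h => ⟨mem_univ _, h⟩, fun h => h.2⟩
      rw [← h5]
      exact_mod_cast h4
    rw [e1]
    have e2 : (2:ℝ) ^ (3 * n * m) / 2 ^ (ρ * m) ≤ 2 ^ (3 * n * m) / 2 ^ Q.card := by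
      apply div_le_div_of_nonneg_left (by positivity) (by positivity)
      exact pow_le_pow_right₀ (by norm_num) hm
    calc (2:ℝ) ^ (3 * n) / 2 ^ Q.card * 2 ^ (3 * n * m) +
          2 ^ (3 * n) * (2 ^ (3 * n * m) / 2 ^ (ρ * m)) ≤
          2 ^ (3 * n) / 2 ^ Q.card * 2 ^ (3 * n * m) +
          2 ^ (3 * n) * (2 ^ (3 * n * m) / 2 ^ Q.card) := by gcongr
      _ = _ := by ring
  have h4 := h1.trans (Finset.sum_le_sum fun z _ => h3 z)
  rw [Finset.sum_const, nsmul_eq_mul, card_univ, card_pi, card_cell] at h4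
  have h5 : (0:ℝ) < 2 ^ (3 * n) := by positivity
  have h6 := le_of_mul_le_mul_left h4 h5
  calc _ ≤ (2 ^ (3 * n * m) * (2 * (2 ^ (3 * n) / 2 ^ Q.card))) * 2 ^ Q.card :=
        mul_le_mul_of_nonneg_right h6 (by positivity)
    _ = _ := by
        field_simp

end Pool.Agent.Lib_helper26.TB
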