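import Pool.Agent.Lib_helper26.TQ.Defs

/-!
# The cubic form
-/

set_option autoImplicit false

namespace Pool.Agent.Lib_helper26.TB

/-- The input cells: three words of `n` bits. -/
abbrev Cell (n : ℕ) : Type := Fin 3 × Fin n

/-- The cubic form `∑ M i j l * x i * y j * z l` of the three words `x`, `y`, `z`. -/
def cub {n : ℕ} (M : Fin n → Fin n → Fin n → ZMod 2) (z : Cell n → ZMod 2) : ZMod 2 :=
  ∑ i, ∑ j, ∑ l, M i j l * z (0, i) * z (1, j) * z (2, l)

end Pool.Agent.Lib_helper26.TB
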