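import Pool.Agent.Lib_helper26.TB.Cubic

/-!
# Character sums of the cubic form over families of sets closed under mixing
-/

set_option autoImplicit false
set_option linter.unusedSectionVars false

namespace Pool.Agent.Lib_helper26.TB

open Finset
open Pool.Agent.Lib_helper26.TS (fil mem_fil fil_congr card_fixed)

/-- closed under mixing -/
def Closed {I : Type} [DecidableEq I] (P Q : Finset I) (Z : (I → ZMod 2) → Prop) : Prop :=
  ∀ x y, Z x → Z y → (∀ i, i ∉ P → i ∉ Q → x i = y i) → Z (fun i => if i ∈ P then x i else y i)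

variable {n : ℕ}

/-- the cells of a pair -/
def PP (p : Finset (Fin n) × Finset (Fin n)) : Finset (Cell n) := side 0 p.1 ∪ side 1 p.2

theorem PP_disj (p : Finset (Fin n) × Finset (Fin n)) (Q : Finset (Fin n)) :
    Disjoint (PP p) (side 2 Q) := by
  rw [Finset.disjoint_left]
  rintro ⟨s, i⟩ h h'
  rw [PP, mem_union, mem_side, mem_side] at h
  have h2 := (mem_side.1 h').1
  subst h2
  simp at h

/-- the family bound -/
theorem family {M : Fin n → Fin n → Fin n → ZMod 2} (hM : Rich M) {Q : Finset (Fin n)} {ρ m : ℕ}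
    (hρ : n ≤ ρ ^ 2) (hm : Q.card ≤ ρ * m) (hm0 : 0 < m) (hme : Even m)
    (F : Finset (Finset (Fin n) × Finset (Fin n)))
    (hF : ∀ p ∈ F, p.1.card = 4 * ρ ∧ p.2.card = 4 * ρ)
    (Z : Finset (Fin n) × Finset (Fin n) → (Cell n → ZMod 2) → Prop)
    (hZ : ∀ p ∈ F, Closed (PP p) (side 2 Q) (Z p))
    (hdis : ∀ p ∈ F, ∀ p' ∈ F, ∀ z z' w : Cell n → ZMod 2, Z p z → Z p' z' → (∀ i, i ∉ PP p → z i = w i) →
      (∀ i, i ∉ PP p' → z' i = w i) → p = p')
    {E : ℝ} (hE0 : 0 ≤ E) (hE : 2 * (F.card : ℝ) / 2 ^ Q.card ≤ E ^ m) :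
    ∑ p ∈ F, |∑ z ∈ fil (Z p), sg (cub M z)| ≤ 2 ^ (3 * n) * E := by
  classical
  set X : Finset (Fin n) × Finset (Fin n) → (Cell n → ZMod 2) → ℝ := fun p z =>
    if ∃ z', Z p z' ∧ ∀ i, i ∉ side 2 Q → z' i = z i then 1 else 0 with hX
  set Y : Finset (Fin n) × Finset (Fin n) → (Cell n → ZMod 2) → Prop := fun p z =>
    ∃ z', Z p z' ∧ ∀ i, i ∉ PP p → z' i = z i with hY
  set J : Finset (Fin n) × Finset (Fin n) → (Cell n → ZMod 2) → ℝ := fun p z =>
    ∑ c, X p (mix (PP p) c z) * sg (cub M (mix (PP p) c z)) with hJ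
  have hXmix : ∀ p z y, X p (mix (side 2 Q) y z) = X p z := by
    intro p z y
    rw [hX]
    simp only
    congr 1
    refine propext (exists_congr fun z' => and_congr Iff.rfl (forall₂_congr fun i hi => ?_))
    rw [mix_neg hi]
  have hX1 : ∀ p z, |X p z| ≤ 1 := by
    intro p z
    rw [hX]
    simp only
    split_ifs <;> simp
  have hYmix : ∀ p z c, Y p (mix (PP p) c z) ↔ Y p z := by
    intro p z c
    rw [hY]
    refine exists_congr fun z' => and_congr Iff.rfl (forall₂_congr fun i hi => ?_)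
    rw [mix_neg hi]
  have hZXY : ∀ p ∈ F, ∀ z, Z p z ↔ (∃ z', Z p z' ∧ ∀ i, i ∉ side 2 Q → z' i = z i) ∧ Y p z := by
    intro p hp z
    constructor
    · exact fun h => ⟨⟨z, h, fun _ _ => rfl⟩, ⟨z, h, fun _ _ => rfl⟩⟩
    · rintro ⟨⟨x, hx, hxz⟩, ⟨y, hy, hyz⟩⟩
      have h1 := hZ p hp x y hx hy fun i hi hi' => (hxz i hi').trans (hyz i hi).symm
      have h3 : (fun i => if i ∈ PP p then x i else y i) = z := by
        funext i
        by_cases hi : i ∈ PP p
        · rw [if_pos hi, hxz i (Finset.disjoint_left.1 (PP_disj p Q) hi)]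
        · rw [if_neg hi, hyz i hi]
      rwa [h3] at h1
  -- one class
  have h1 : ∀ p ∈ F, 2 ^ (3 * n) * ∑ z ∈ fil (Z p), sg (cub M z) =
      ∑ z ∈ univ.filter (Y p), J p z := by
    intro p hp
    have e1 : ∑ z ∈ fil (Z p), sg (cub M z) =
        ∑ z, X p z * ((if Y p z then 1 else 0) * sg (cub M z)) := by
      have h6 : fil (Z p) = univ.filter (Z p) := by
        ext z
        rw [mem_fil, mem_filter]
        exact ⟨fun h => ⟨mem_univ _, h⟩, fun h => h.2⟩
      rw [h6, Finset.sum_filter]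
      refine Finset.sum_congr rfl fun z _ => ?_
      rw [hX]
      simp only
      by_cases hz : Z p z
      · have := (hZXY p hp z).1 hz
        rw [if_pos hz, if_pos this.1, if_pos this.2, one_mul, one_mul]
      · rw [if_neg hz]
        by_cases h7 : ∃ z', Z p z' ∧ ∀ i, i ∉ side 2 Q → z' i = z i
        · have h8 : ¬ Y p z := fun h8 => hz ((hZXY p hp z).2 ⟨h7, h8⟩)
          rw [if_neg h8, zero_mul, mul_zero]
        · rw [if_neg h7, zero_mul]
    rw [e1]
    have e2 := sum_mix (PP p) (fun z => X p z * ((if Y p z then 1 else 0) * sg (cub M z)))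
    rw [card_cell] at e2
    rw [← e2, Finset.sum_filter]
    refine Finset.sum_congr rfl fun z _ => ?_
    simp only [hYmix]
    rw [hJ]
    simp only
    split_ifs with h
    · exact Finset.sum_congr rfl fun c _ => by rw [one_mul]
    · exact Finset.sum_eq_zero fun c _ => by rw [zero_mul, mul_zero]
  set W := (F ×ˢ (univ : Finset (Cell n → ZMod 2))).filter (fun q => Y q.1 q.2) with hW
  have hWc : (W.card : ℝ) ≤ 2 ^ (3 * n) := by
    have h2 : W.card ≤ (univ : Finset (Cell n → ZMod 2)).card := by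
      refine card_le_card_of_injOn (fun q => q.2) (fun _ _ => mem_coe.2 (mem_univ _)) ?_
      intro q hq q' hq' hqq
      rw [mem_coe, hW, mem_filter, mem_product] at hq hq'
      obtain ⟨z, hz, hzz⟩ := hq.2
      obtain ⟨z', hz', hzz'⟩ := hq'.2
      simp only at hqq
      rw [← hqq] at hzz'
      exact Prod.ext (hdis q.1 hq.1.1 q'.1 hq'.1.1 z z' q.2 hz hz' hzz hzz') hqq
    have h3 : ((univ : Finset (Cell n → ZMod 2)).card : ℝ) = 2 ^ (3 * n) := by
      rw [card_univ, card_pi, card_cell]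
    rw [← h3]
    exact_mod_cast h2
  set S := ∑ p ∈ F, |∑ z ∈ fil (Z p), sg (cub M z)| with hS
  have hS0 : 0 ≤ S := Finset.sum_nonneg fun _ _ => abs_nonneg _
  have h2 : 2 ^ (3 * n) * S ≤ ∑ q ∈ W, |J q.1 q.2| := by
    rw [hS, Finset.mul_sum, hW, Finset.sum_filter, Finset.sum_product]
    refine Finset.sum_le_sum fun p hp => ?_
    rw [← abs_of_nonneg (by positivity : (0:ℝ) ≤ 2 ^ (3 * n)), ← abs_mul, h1 p hp]
    refine (Finset.abs_sum_le_sum_abs _ _).trans (le_of_eq ?_)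
    rw [Finset.sum_filter]
  obtain ⟨k, rfl⟩ : ∃ k, m = k + 1 := ⟨m - 1, by omega⟩
  have h3 : (∑ q ∈ W, |J q.1 q.2|) ^ (k + 1) ≤
      (2 ^ (3 * n)) ^ k * ∑ q ∈ W, |J q.1 q.2| ^ (k + 1) := by
    rcases W.eq_empty_or_nonempty with h0 | h0
    · rw [h0, Finset.sum_empty, Finset.sum_empty, mul_zero, zero_pow (Nat.succ_ne_zero k)]
    · have h4 := pow_sum_div_card_le_sum_pow (s := W) (f := fun q => |J q.1 q.2|)
        (fun _ _ => abs_nonneg _) k
      have h5 : (0:ℝ) < W.card := by exact_mod_cast card_pos.2 h0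
      rw [div_le_iff₀ (by positivity)] at h4
      refine h4.trans ?_
      rw [mul_comm]
      refine mul_le_mul_of_nonneg_right (pow_le_pow_left₀ h5.le hWc k) ?_
      exact Finset.sum_nonneg fun _ _ => by positivity
  have h4 : (∑ q ∈ W, |J q.1 q.2| ^ (k + 1)) * 2 ^ Q.card ≤
      F.card * (2 * (2 ^ (3 * n) * 2 ^ (3 * n * (k + 1)))) := by
    calc (∑ q ∈ W, |J q.1 q.2| ^ (k + 1)) * 2 ^ Q.card ≤
          (∑ p ∈ F, ∑ z, (J p z) ^ (k + 1)) * 2 ^ Q.card := by
          refine mul_le_mul_of_nonneg_right ?_ (by positivity)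
          rw [← Finset.sum_product']
          have e : ∀ q : (Finset (Fin n) × Finset (Fin n)) × (Cell n → ZMod 2),
              |J q.1 q.2| ^ (k + 1) = (J q.1 q.2) ^ (k + 1) := fun q => hme.pow_abs _
          rw [Finset.sum_congr rfl fun q _ => e q]
          exact Finset.sum_le_sum_of_subset_of_nonneg (filter_subset _ _)
            fun q _ _ => hme.pow_nonneg _
      _ = ∑ p ∈ F, (∑ z, (J p z) ^ (k + 1)) * 2 ^ Q.card := by rw [Finset.sum_mul]
      _ ≤ ∑ _p ∈ F, 2 * (2 ^ (3 * n) * 2 ^ (3 * n * (k + 1))) := by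
          refine Finset.sum_le_sum fun p hp => ?_
          exact cub_moment hM (hF p hp).1 (hF p hp).2 hρ (hXmix p) (hX1 p) hm
      _ = _ := by rw [Finset.sum_const, nsmul_eq_mul]
  -- put together
  have h5 : (2 ^ (3 * n) * S) ^ (k + 1) ≤ (2 ^ (3 * n) * (2 ^ (3 * n) * E)) ^ (k + 1) := by
    have h6 : (2 ^ (3 * n) * S) ^ (k + 1) * 2 ^ Q.card ≤
        (2 ^ (3 * n) * (2 ^ (3 * n) * E)) ^ (k + 1) * 2 ^ Q.card := by
      rw [div_le_iff₀ (by positivity)] at hE
      calc (2 ^ (3 * n) * S) ^ (k + 1) * 2 ^ Q.card ≤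
            (∑ q ∈ W, |J q.1 q.2|) ^ (k + 1) * 2 ^ Q.card := by gcongr
        _ ≤ ((2 ^ (3 * n)) ^ k * ∑ q ∈ W, |J q.1 q.2| ^ (k + 1)) * 2 ^ Q.card := by gcongr
        _ = (2 ^ (3 * n)) ^ k * ((∑ q ∈ W, |J q.1 q.2| ^ (k + 1)) * 2 ^ Q.card) := by ring
        _ ≤ (2 ^ (3 * n)) ^ k * (F.card * (2 * (2 ^ (3 * n) * 2 ^ (3 * n * (k + 1))))) := by
            gcongr
        _ = (2 * F.card) * ((2 ^ (3 * n)) ^ (k + 1) * (2 ^ (3 * n)) ^ (k + 1)) := by
            rw [pow_mul (2:ℝ) (3 * n) (k + 1), pow_succ ((2:ℝ) ^ (3 * n)) k]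
            ring
        _ ≤ (E ^ (k + 1) * 2 ^ Q.card) * ((2 ^ (3 * n)) ^ (k + 1) * (2 ^ (3 * n)) ^ (k + 1)) := by
            gcongr
        _ = _ := by
            rw [mul_pow, mul_pow]
            ring
    exact le_of_mul_le_mul_right h6 (by positivity)
  have h6 := le_of_pow_le_pow_left₀ (Nat.succ_ne_zero k) (by positivity) h5
  exact le_of_mul_le_mul_left h6 (by positivity)

end Pool.Agent.Lib_helper26.TB
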