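import Pool.Agent.Lib_helper26.TB.Main
import Pool.Agent.Lib_helper26.TQ.Modes

/-!
# The cubic form is in parity mode, but not in PP mode
-/

set_option autoImplicit false
set_option linter.unusedSectionVars false

namespace Pool.Agent.Lib_helper26.TB

open Finset
open Pool.Agent.Lib_helper26.TS (fil mem_fil fil_congr card_fixed)
open Pool.Agent.Lib_helper26.TQ (Mach InPP InParity InPSPACE constM constM_accepts)

variable {n : ℕ} {V : Type} [Fintype V]

theorem sg_neg (a : ZMod 2) : sg a = -1 ↔ a = 1 := by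
  rcases zmod2 a with rfl | rfl
  · rw [sg_zero]
    norm_num
  · rw [sg_one]
    simp

/-- the inequality of the counts -/
theorem pp_count {M : Fin n → Fin n → Fin n → ZMod 2} (W T : ℕ)
    (P : Fin (2 ^ W) → Mach (Cell n) (ZMod 2) V)
    (hP : ∀ z, cub M z = 1 ↔ 2 ^ W < 2 * Nat.card {w // (P w).Accepts T z}) (D : ℝ)
    (hD : ∀ Q : Mach (Cell n) (ZMod 2) V, |∑ z ∈ fil (Q.Accepts T), sg (cub M z)| ≤ D) :
    (2 : ℝ) ^ (3 * n) / 2 ≤ 4 * 2 ^ W * D := by
  classical
  set N : ℝ := (2 : ℝ) ^ (3 * n) with hN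
  set a : (Cell n → ZMod 2) → ℝ := fun z => ((fil fun w => (P w).Accepts T z).card : ℝ) with ha
  have hcard : ∀ z, Nat.card {w // (P w).Accepts T z} = (fil fun w => (P w).Accepts T z).card := by
    intro z
    rw [Nat.card_eq_fintype_card, Fintype.card_subtype]
    congr 1
  have hD0 : |∑ z : Cell n → ZMod 2, sg (cub M z)| ≤ D := by
    have h := hD (constM (P ⟨0, by positivity⟩) True)
    have h2 : (fil fun z : Cell n → ZMod 2 => (constM (P ⟨0, by positivity⟩) True).Accepts T z) =
        univ := by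
      ext z
      rw [mem_fil, constM_accepts]
      simp
    rw [h2] at h
    exact h
  -- pointwise
  have h1 : ∀ z, (1 - sg (cub M z)) / 2 ≤ -sg (cub M z) * (2 * a z - 2 ^ W) := by
    intro z
    rcases zmod2 (cub M z) with h | h
    · have h3 : ¬ (2 ^ W < 2 * Nat.card {w // (P w).Accepts T z}) := by
        rw [← hP z, h]
        decide
      push Not at h3
      rw [hcard] at h3
      have h4 : 2 * a z ≤ (2:ℝ) ^ W := by
        show 2 * ((fil fun w => (P w).Accepts T z).card : ℝ) ≤ 2 ^ W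
        exact_mod_cast h3
      rw [h, sg_zero]
      linarith
    · have h3 := (hP z).1 h
      rw [hcard] at h3
      have h4 : (2:ℝ) ^ W + 1 ≤ 2 * a z := by
        show (2:ℝ) ^ W + 1 ≤ 2 * ((fil fun w => (P w).Accepts T z).card : ℝ)
        exact_mod_cast h3
      rw [h, sg_one]
      linarith
  have h5 := Finset.sum_le_sum fun z (_ : z ∈ (univ : Finset (Cell n → ZMod 2))) => h1 z
  have h6 : ∑ z : Cell n → ZMod 2, (1 - sg (cub M z)) / 2 =
      N / 2 - (∑ z, sg (cub M z)) / 2 := by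
    rw [← Finset.sum_div, Finset.sum_sub_distrib, Finset.sum_const, card_univ, nsmul_eq_mul,
      mul_one, card_pi, card_cell, hN]
    ring
  have h7 : ∑ z : Cell n → ZMod 2, -sg (cub M z) * (2 * a z - 2 ^ W) =
      -2 * (∑ z, sg (cub M z) * a z) + 2 ^ W * ∑ z, sg (cub M z) := by
    rw [Finset.mul_sum, Finset.mul_sum, ← Finset.sum_add_distrib]
    exact Finset.sum_congr rfl fun z _ => by ring
  have h8 : ∑ z, sg (cub M z) * a z = ∑ w, ∑ z ∈ fil ((P w).Accepts T), sg (cub M z) := by
    have e1 : ∀ z, sg (cub M z) * a z = ∑ w, if (P w).Accepts T z then sg (cub M z) else 0 := by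
      intro z
      rw [← Finset.sum_filter, Finset.sum_const, nsmul_eq_mul, mul_comm]
      congr 3
    rw [Finset.sum_congr rfl fun z _ => e1 z, Finset.sum_comm]
    refine Finset.sum_congr rfl fun w _ => ?_
    rw [← Finset.sum_filter]
    refine Finset.sum_congr ?_ fun _ _ => rfl
    ext z
    rw [mem_fil, mem_filter]
    exact ⟨fun h => h.2, fun h => ⟨mem_univ _, h⟩⟩
  have h9 : |∑ w, ∑ z ∈ fil ((P w).Accepts T), sg (cub M z)| ≤ 2 ^ W * D := by
    refine (Finset.abs_sum_le_sum_abs _ _).trans ((Finset.sum_le_sum fun w _ => hD (P w)).trans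
      (le_of_eq ?_))
    rw [Finset.sum_const, card_univ, Fintype.card_fin, nsmul_eq_mul]
    push_cast
    rfl
  rw [h6, h7, h8] at h5
  have h10 := abs_le.1 h9
  have h11 := abs_le.1 hD0
  have hW : (1:ℝ) ≤ 2 ^ W := one_le_pow₀ (by norm_num)
  have hD00 : 0 ≤ D := (abs_nonneg _).trans hD0
  have h12 : (2:ℝ) ^ W * ∑ z : Cell n → ZMod 2, sg (cub M z) ≤ 2 ^ W * D :=
    mul_le_mul_of_nonneg_left h11.2 (by positivity)
  nlinarith [h10.1, h11.2, h11.1]

/-- the lower bound -/
theorem cub_pp {M : Fin n → Fin n → Fin n → ZMod 2} (hM : Rich M) {k T W : ℕ} (hk : 1 ≤ k)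
    (hT : T ≤ k * (3 * n))
    (h : InPP (Cell n) (ZMod 2) T V W (fun z => cub M z = 1)) :
    n < (Nat.log 2 (Fintype.card V) + 1) * (W + 1) * (k + 1) ^ (1280 * k) := by
  by_contra hcon
  push Not at hcon
  obtain ⟨P, hP⟩ := h
  have hpar : Par n k (Nat.log 2 (Fintype.card V) + 1) W := ⟨hk, by omega, hcon⟩
  have hc := pp_count W T P hP _ fun Q => corr_small hM hpar hT
    (Nat.lt_pow_succ_log_self (by norm_num) _).le Q
  have h1 : 4 * 2 ^ W * ((2 : ℝ) ^ (3 * n) * (4 / 2 ^ (W + 8))) = 2 ^ (3 * n) / 16 := by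
    rw [pow_add]
    field_simp
    norm_num
  rw [h1] at hc
  have h2 : (0:ℝ) < 2 ^ (3 * n) := by positivity
  linarith

/-- three steps: the product of three bits and a constant -/
def triM (M : Fin n → Fin n → Fin n → ZMod 2) (p : Fin n × Fin n × Fin n) :
    Mach (Cell n) (ZMod 2) (ZMod 2) where
  start := M p.1 p.2.1 p.2.2
  query := fun t _ => if t = 0 then (0, p.1) else if t = 1 then (1, p.2.1) else (2, p.2.2)
  next := fun t v a => if t < 3 then v * a else v
  acc := fun v => v = 1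

theorem triM_state (M : Fin n → Fin n → Fin n → ZMod 2) (p : Fin n × Fin n × Fin n)
    (z : Cell n → ZMod 2) (t : ℕ) : (triM M p).state z (t + 3) =
      M p.1 p.2.1 p.2.2 * z (0, p.1) * z (1, p.2.1) * z (2, p.2.2) := by
  induction t with
  | zero => rfl
  | succ t ih =>
    have h : (triM M p).state z (t + 1 + 3) = (triM M p).state z (t + 3) := by
      show (if t + 3 < 3 then (triM M p).state z (t + 3) *
        z ((triM M p).query (t + 3) ((triM M p).state z (t + 3))) else
          (triM M p).state z (t + 3)) = _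
      rw [if_neg (by omega)]
    rw [h, ih]

theorem odd_card {ι : Type} [Fintype ι] (p : ι → Prop) [DecidablePred p] :
    Odd (Nat.card {w // p w}) ↔ ∑ w, (if p w then (1 : ZMod 2) else 0) = 1 := by
  classical
  rw [← Finset.sum_filter, Finset.sum_const, nsmul_eq_mul, mul_one, Nat.card_eq_fintype_card,
    Fintype.card_subtype, ← ZMod.natCast_eq_one_iff_odd]

/-- the cubic form is in parity mode -/
theorem cub_parity (M : Fin n → Fin n → Fin n → ZMod 2) (hn : 0 < n) {T : ℕ} (hT : 3 ≤ T) :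
    InParity (Cell n) (ZMod 2) T (ZMod 2) (Nat.clog 2 (n ^ 3)) (fun z => cub M z = 1) := by
  classical
  set e := Fintype.equivFin (Fin n × Fin n × Fin n) with he
  set c := Fintype.card (Fin n × Fin n × Fin n) with hc
  have hc3 : c = n ^ 3 := by
    rw [hc, Fintype.card_prod, Fintype.card_prod, Fintype.card_fin]
    ring
  have hcl : c ≤ 2 ^ Nat.clog 2 (n ^ 3) := by
    rw [hc3]
    exact Nat.le_pow_clog (by norm_num) _
  obtain ⟨t, rfl⟩ : ∃ t, T = t + 3 := ⟨T - 3, by omega⟩
  let p0 : Fin n × Fin n × Fin n := (⟨0, hn⟩, ⟨0, hn⟩, ⟨0, hn⟩)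
  let P : Fin (2 ^ Nat.clog 2 (n ^ 3)) → Mach (Cell n) (ZMod 2) (ZMod 2) :=
    fun w => if h : w.val < c then triM M (e.symm ⟨w.val, h⟩) else constM (triM M p0) False
  refine ⟨P, fun z => ?_⟩
  rw [odd_card]
  set g : Fin n × Fin n × Fin n → ZMod 2 := fun p =>
    M p.1 p.2.1 p.2.2 * z (0, p.1) * z (1, p.2.1) * z (2, p.2.2) with hg
  have h1 : ∀ w, (if (P w).Accepts (t + 3) z then (1 : ZMod 2) else 0) =
      if h : w.val < c then g (e.symm ⟨w.val, h⟩) else 0 := by
    intro w
    by_cases h : w.val < c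
    · rw [dif_pos h]
      have e1 : P w = triM M (e.symm ⟨w.val, h⟩) := by simp only [P, dif_pos h]
      rw [e1]
      have e2 : (triM M (e.symm ⟨w.val, h⟩)).Accepts (t + 3) z ↔ g (e.symm ⟨w.val, h⟩) = 1 := by
        show (triM M (e.symm ⟨w.val, h⟩)).state z (t + 3) = 1 ↔ _
        rw [triM_state]
      rcases zmod2 (g (e.symm ⟨w.val, h⟩)) with h3 | h3
      · rw [h3, if_neg]
        rw [e2, h3]
        decide
      · rw [h3, if_pos]
        rw [e2, h3]
    · rw [dif_neg h]
      have e1 : P w = constM (triM M p0) False := by simp only [P, dif_neg h]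
      rw [e1, if_neg]
      rw [constM_accepts]
      exact id
  rw [Finset.sum_congr rfl fun w _ => h1 w]
  have h2 : cub M z = ∑ p, g p := by
    rw [hg, Fintype.sum_prod_type]
    unfold cub
    refine Finset.sum_congr rfl fun i _ => ?_
    rw [Fintype.sum_prod_type]
  have h3 : (∑ w : Fin (2 ^ Nat.clog 2 (n ^ 3)), if h : w.val < c then
      g (e.symm ⟨w.val, h⟩) else 0) = ∑ p, g p := by
    have h4 := Fin.sum_univ_eq_sum_range (fun i => if h : i < c then g (e.symm ⟨i, h⟩) else 0)
    rw [h4 (2 ^ Nat.clog 2 (n ^ 3))]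
    have h5 : ∑ p, g p = ∑ i ∈ range c, (if h : i < c then g (e.symm ⟨i, h⟩) else 0) := by
      rw [← h4 c, ← Equiv.sum_comp e.symm]
      refine Finset.sum_congr rfl fun a _ => ?_
      rw [dif_pos a.2]
    rw [h5]
    symm
    refine Finset.sum_subset (fun i hi => ?_) fun i _ hi => ?_
    · rw [mem_range] at hi ⊢
      omega
    · rw [mem_range] at hi
      rw [dif_neg hi]
  rw [h3]
  show cub M z = 1 ↔ _
  rw [h2]

end Pool.Agent.Lib_helper26.TB
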