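import Pool.Agent.Lib_helper26.TB.Blocks
import Pool.Agent.Lib_helper26.TB.PP

/-!
# The sum of the cubic forms is in parity mode, but not in PP mode
-/

set_option autoImplicit false
set_option linter.unusedSectionVars false

namespace Pool.Agent.Lib_helper26.TB

open Finset
open Pool.Agent.Lib_helper26.TS (fil mem_fil fil_congr)
open Pool.Agent.Lib_helper26.TQ (Mach InPP InParity InPSPACE constM constM_accepts)

/-- the inequality of the counts, in general -/
theorem pp_count_gen {X : Type} [Fintype X] (F : X → ZMod 2) (W : ℕ) (acc : Fin (2 ^ W) → X → Prop)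
    (hP : ∀ z, F z = 1 ↔ 2 ^ W < 2 * Nat.card {w // acc w z}) (D : ℝ)
    (hD0 : |∑ z, sg (F z)| ≤ D) (hD : ∀ w, |∑ z ∈ fil (acc w), sg (F z)| ≤ D) :
    (Fintype.card X : ℝ) / 2 ≤ 4 * 2 ^ W * D := by
  classical
  set N : ℝ := (Fintype.card X : ℝ) with hN
  set a : X → ℝ := fun z => ((fil fun w => acc w z).card : ℝ) with ha
  have hcard : ∀ z, Nat.card {w // acc w z} = (fil fun w => acc w z).card := by
    intro z
    rw [Nat.card_eq_fintype_card, Fintype.card_subtype]
    congr 1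
  have h1 : ∀ z, (1 - sg (F z)) / 2 ≤ -sg (F z) * (2 * a z - 2 ^ W) := by
    intro z
    rcases zmod2 (F z) with h | h
    · have h3 : ¬ (2 ^ W < 2 * Nat.card {w // acc w z}) := by
        rw [← hP z, h]
        decide
      push Not at h3
      rw [hcard] at h3
      have h4 : 2 * a z ≤ (2:ℝ) ^ W := by
        show 2 * ((fil fun w => acc w z).card : ℝ) ≤ 2 ^ W
        exact_mod_cast h3
      rw [h, sg_zero]
      linarith
    · have h3 := (hP z).1 h
      rw [hcard] at h3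
      have h4 : (2:ℝ) ^ W + 1 ≤ 2 * a z := by
        show (2:ℝ) ^ W + 1 ≤ 2 * ((fil fun w => acc w z).card : ℝ)
        exact_mod_cast h3
      rw [h, sg_one]
      linarith
  have h5 := Finset.sum_le_sum fun z (_ : z ∈ (univ : Finset X)) => h1 z
  have h6 : ∑ z : X, (1 - sg (F z)) / 2 = N / 2 - (∑ z, sg (F z)) / 2 := by
    rw [← Finset.sum_div, Finset.sum_sub_distrib, Finset.sum_const, card_univ, nsmul_eq_mul,
      mul_one, hN]
    ring
  have h7 : ∑ z : X, -sg (F z) * (2 * a z - 2 ^ W) =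
      -2 * (∑ z, sg (F z) * a z) + 2 ^ W * ∑ z, sg (F z) := by
    rw [Finset.mul_sum, Finset.mul_sum, ← Finset.sum_add_distrib]
    exact Finset.sum_congr rfl fun z _ => by ring
  have h8 : ∑ z, sg (F z) * a z = ∑ w, ∑ z ∈ fil (acc w), sg (F z) := by
    have e1 : ∀ z, sg (F z) * a z = ∑ w, if acc w z then sg (F z) else 0 := by
      intro z
      rw [← Finset.sum_filter, Finset.sum_const, nsmul_eq_mul, mul_comm]
      congr 3
    rw [Finset.sum_congr rfl fun z _ => e1 z, Finset.sum_comm]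
    refine Finset.sum_congr rfl fun w _ => ?_
    rw [← Finset.sum_filter]
    refine Finset.sum_congr ?_ fun _ _ => rfl
    ext z
    rw [mem_fil, mem_filter]
    exact ⟨fun h => h.2, fun h => ⟨mem_univ _, h⟩⟩
  have h9 : |∑ w, ∑ z ∈ fil (acc w), sg (F z)| ≤ 2 ^ W * D := by
    refine (Finset.abs_sum_le_sum_abs _ _).trans ((Finset.sum_le_sum fun w _ => hD w).trans
      (le_of_eq ?_))
    rw [Finset.sum_const, card_univ, Fintype.card_fin, nsmul_eq_mul]
    push_cast
    rfl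
  rw [h6, h7, h8] at h5
  have h10 := abs_le.1 h9
  have h11 := abs_le.1 hD0
  have hW : (1:ℝ) ≤ 2 ^ W := one_le_pow₀ (by norm_num)
  have hD00 : 0 ≤ D := (abs_nonneg _).trans hD0
  have h12 : (2:ℝ) ^ W * ∑ z : X, sg (F z) ≤ 2 ^ W * D :=
    mul_le_mul_of_nonneg_left h11.2 (by positivity)
  nlinarith [h10.1, h11.2, h11.1]

/-- sums of the answers of few machines are in parity mode -/
theorem parity_sum {I V Mon : Type} [Fintype Mon] {T w : ℕ}
    (g : Mon → (I → ZMod 2) → ZMod 2) (Q : Mon → Mach I (ZMod 2) V)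
    (hQ : ∀ m z, (Q m).Accepts T z ↔ g m z = 1) (m0 : Mon) (hc : Fintype.card Mon ≤ 2 ^ w) :
    InParity I (ZMod 2) T V w (fun z => ∑ m, g m z = 1) := by
  classical
  set e := Fintype.equivFin Mon with he
  set c := Fintype.card Mon with hcd
  let P : Fin (2 ^ w) → Mach I (ZMod 2) V :=
    fun v => if h : v.val < c then Q (e.symm ⟨v.val, h⟩) else constM (Q m0) False
  refine ⟨P, fun z => ?_⟩
  rw [odd_card]
  have h1 : ∀ v, (if (P v).Accepts T z then (1 : ZMod 2) else 0) =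
      if h : v.val < c then g (e.symm ⟨v.val, h⟩) z else 0 := by
    intro v
    by_cases h : v.val < c
    · rw [dif_pos h]
      have e1 : P v = Q (e.symm ⟨v.val, h⟩) := by simp only [P, dif_pos h]
      have e2 := hQ (e.symm ⟨v.val, h⟩) z
      rw [← e1] at e2
      rcases zmod2 (g (e.symm ⟨v.val, h⟩) z) with h3 | h3
      · rw [h3, if_neg]
        rw [e2, h3]
        decide
      · rw [h3, if_pos]
        rw [e2, h3]
    · rw [dif_neg h]
      have e1 : P v = constM (Q m0) False := by simp only [P, dif_neg h]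
      rw [e1, if_neg]
      rw [constM_accepts]
      exact id
  rw [Finset.sum_congr rfl fun v _ => h1 v]
  have h4 := Fin.sum_univ_eq_sum_range (fun i => if h : i < c then g (e.symm ⟨i, h⟩) z else 0)
  have h3 : (∑ v : Fin (2 ^ w), if h : v.val < c then
      g (e.symm ⟨v.val, h⟩) z else 0) = ∑ m, g m z := by
    rw [h4 (2 ^ w)]
    have h5 : ∑ m, g m z = ∑ i ∈ range c, (if h : i < c then g (e.symm ⟨i, h⟩) z else 0) := by
      rw [← h4 c, ← Equiv.sum_comp e.symm]
      refine Finset.sum_congr rfl fun a _ => ?_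
      rw [dif_pos a.2]
    rw [h5]
    symm
    refine Finset.sum_subset (fun i hi => ?_) fun i _ hi => ?_
    · rw [mem_range] at hi ⊢
      omega
    · rw [mem_range] at hi
      rw [dif_neg hi]
  rw [h3]

variable {n L : ℕ}

/-- four steps: the product of four bits -/
def quadM (m : (Fin n × Fin n × Fin n) × Fin L) : Mach (LCell n L) (ZMod 2) (ZMod 2) where
  start := 1
  query := fun t _ => if t = 0 then Sum.inl m.1 else if t = 1 then Sum.inr (m.2, (0, m.1.1)) else
    if t = 2 then Sum.inr (m.2, (1, m.1.2.1)) else Sum.inr (m.2, (2, m.1.2.2))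
  next := fun t v a => if t < 4 then v * a else v
  acc := fun v => v = 1

theorem quadM_state (m : (Fin n × Fin n × Fin n) × Fin L) (z : LCell n L → ZMod 2) (t : ℕ) :
    (quadM m).state z (t + 4) = z (Sum.inl m.1) * z (Sum.inr (m.2, (0, m.1.1))) *
      z (Sum.inr (m.2, (1, m.1.2.1))) * z (Sum.inr (m.2, (2, m.1.2.2))) := by
  induction t with
  | zero =>
    show 1 * z (Sum.inl m.1) * z (Sum.inr (m.2, (0, m.1.1))) *
      z (Sum.inr (m.2, (1, m.1.2.1))) * z (Sum.inr (m.2, (2, m.1.2.2))) = _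
    rw [one_mul]
  | succ t ih =>
    have h : (quadM m).state z (t + 1 + 4) = (quadM m).state z (t + 4) := by
      show (if t + 4 < 4 then (quadM m).state z (t + 4) *
        z ((quadM m).query (t + 4) ((quadM m).state z (t + 4))) else
          (quadM m).state z (t + 4)) = _
      rw [if_neg (by omega)]
    rw [h, ih]

/-- the sum is in parity mode -/
theorem cubSum_parity (hn : 0 < n) (hL : 0 < L) {T : ℕ} (hT : 4 ≤ T) :
    InParity (LCell n L) (ZMod 2) T (ZMod 2) (Nat.clog 2 (n ^ 3 * L))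
      (fun z => cubSum z = 1) := by
  obtain ⟨t, rfl⟩ : ∃ t, T = t + 4 := ⟨T - 4, by omega⟩
  have h := parity_sum (I := LCell n L) (V := ZMod 2) (Mon := (Fin n × Fin n × Fin n) × Fin L)
    (T := t + 4) (w := Nat.clog 2 (n ^ 3 * L))
    (fun m z => z (Sum.inl m.1) * z (Sum.inr (m.2, (0, m.1.1))) *
      z (Sum.inr (m.2, (1, m.1.2.1))) * z (Sum.inr (m.2, (2, m.1.2.2)))) quadM (by
      intro m z
      show (quadM m).state z (t + 4) = 1 ↔ _
      rw [quadM_state]) ((⟨0, hn⟩, ⟨0, hn⟩, ⟨0, hn⟩), ⟨0, hL⟩) (by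
      refine le_trans (le_of_eq ?_) (Nat.le_pow_clog (by norm_num) _)
      rw [Fintype.card_prod, Fintype.card_prod, Fintype.card_prod, Fintype.card_fin,
        Fintype.card_fin]
      ring)
  have e : ∀ z : LCell n L → ZMod 2, cubSum z =
      ∑ m : (Fin n × Fin n × Fin n) × Fin L, z (Sum.inl m.1) * z (Sum.inr (m.2, (0, m.1.1))) *
      z (Sum.inr (m.2, (1, m.1.2.1))) * z (Sum.inr (m.2, (2, m.1.2.2))) := by
    intro z
    rw [Fintype.sum_prod_type, Finset.sum_comm]
    unfold cubSum cub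
    refine Finset.sum_congr rfl fun l _ => ?_
    rw [Fintype.sum_prod_type]
    refine Finset.sum_congr rfl fun i _ => ?_
    rw [Fintype.sum_prod_type]
  simp only [e]
  exact h

/-- the number of input bits -/
theorem card_LCell : Fintype.card (LCell n (n ^ 2)) = 4 * n ^ 3 := by
  rw [Fintype.card_sum, Fintype.card_prod, Fintype.card_prod, Fintype.card_prod,
    Fintype.card_prod, Fintype.card_fin, Fintype.card_fin, Fintype.card_fin]
  ring

variable {V : Type} [Fintype V]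

theorem par_total {k s W l : ℕ} (hk : 1 ≤ k) (hs : 1 ≤ s) (hl : 1 ≤ l)
    (h : s * (W + 1) ^ 2 * l * (k + 1) ^ (30728 * k) ≤ n) :
    Par n (6 * k) (s + (k + l + 5) * (W + 4) + (k + 3 * l + 3)) (2 * W + 2) := by
  refine ⟨by omega, by omega, le_trans ?_ h⟩
  have hkl : 1 ≤ k * l := Nat.mul_pos hk hl
  have h1 : s + (k + l + 5) * (W + 4) + (k + 3 * l + 3) ≤ 36 * (s * ((k + 1) * l) * (W + 1)) := by
    have a1 : k ≤ (k + 1) * l := by nlinarith
    have a2 : l ≤ (k + 1) * l := by nlinarith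
    have a3 : 1 ≤ (k + 1) * l := by nlinarith
    generalize (k + 1) * l = y at a1 a2 a3 ⊢
    have a4 : s ≤ s * y * (W + 1) := by
      calc s = s * 1 * 1 := by ring
        _ ≤ s * y * (W + 1) := Nat.mul_le_mul (Nat.mul_le_mul_left _ a3) (by omega)
    have a5 : y * (W + 1) ≤ s * y * (W + 1) :=
      Nat.mul_le_mul_right _ (Nat.le_mul_of_pos_left _ hs)
    have a6 : (k + l + 5) * (W + 4) ≤ 28 * (y * (W + 1)) := by
      calc (k + l + 5) * (W + 4) ≤ (7 * y) * (4 * (W + 1)) := Nat.mul_le_mul (by omega) (by omega)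
        _ = _ := by ring
    have a7 : k + 3 * l + 3 ≤ 7 * (y * (W + 1)) := by
      calc k + 3 * l + 3 ≤ 7 * (y * 1) := by omega
        _ ≤ _ := Nat.mul_le_mul_left _ (Nat.mul_le_mul_left _ (by omega))
    have a8 : s * y * (W + 1) = s * y * (W + 1) := rfl
    omega
  have h2 : (6 * k + 1) ≤ (k + 1) ^ 4 := by
    have : 2 ^ 3 * (k + 1) ≤ (k + 1) ^ 3 * (k + 1) :=
      Nat.mul_le_mul_right _ (Nat.pow_le_pow_left (by omega) 3)
    calc 6 * k + 1 ≤ 2 ^ 3 * (k + 1) := by omega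
      _ ≤ (k + 1) ^ 3 * (k + 1) := this
      _ = (k + 1) ^ 4 := by ring
  have h3 : (6 * k + 1) ^ (1280 * (6 * k)) ≤ (k + 1) ^ (30720 * k) := by
    calc (6 * k + 1) ^ (1280 * (6 * k)) ≤ ((k + 1) ^ 4) ^ (1280 * (6 * k)) :=
          Nat.pow_le_pow_left h2 _
      _ = (k + 1) ^ (30720 * k) := by
          rw [← pow_mul]
          congr 1
          ring
  have h4 : 108 * (k + 1) ≤ (k + 1) ^ (8 * k) := by
    calc 108 * (k + 1) ≤ (k + 1) ^ 7 * (k + 1) := by
          refine Nat.mul_le_mul_right _ ?_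
          calc 108 ≤ 2 ^ 7 := by norm_num
            _ ≤ (k + 1) ^ 7 := Nat.pow_le_pow_left (by omega) 7
      _ = (k + 1) ^ 8 := by ring
      _ ≤ (k + 1) ^ (8 * k) := Nat.pow_le_pow_right (by omega) (by omega)
  calc (s + (k + l + 5) * (W + 4) + (k + 3 * l + 3)) * (2 * W + 2 + 1) *
        (6 * k + 1) ^ (1280 * (6 * k)) ≤
        (36 * (s * ((k + 1) * l) * (W + 1))) * (3 * (W + 1)) * (k + 1) ^ (30720 * k) :=
        Nat.mul_le_mul (Nat.mul_le_mul h1 (by omega)) h3
    _ = s * (W + 1) ^ 2 * l * ((108 * (k + 1)) * (k + 1) ^ (30720 * k)) := by ring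
    _ ≤ s * (W + 1) ^ 2 * l * ((k + 1) ^ (8 * k) * (k + 1) ^ (30720 * k)) := by gcongr
    _ = s * (W + 1) ^ 2 * l * (k + 1) ^ (30728 * k) := by
        rw [← pow_add]
        congr 2
        ring

/-- the lower bound for the sum -/
theorem cubSum_pp (hn : 0 < n) {k T W : ℕ} (hk : 1 ≤ k) (hT : T ≤ k * (4 * n ^ 3))
    (h : InPP (LCell n (n ^ 2)) (ZMod 2) T V W (fun z => cubSum z = 1)) :
    n < (Nat.log 2 (Fintype.card V) + 1) * (W + 1) ^ 2 * (Nat.log 2 n + 1) *
      (k + 1) ^ (30728 * k) := by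
  classical
  by_contra hcon
  push Not at hcon
  obtain ⟨M, hM⟩ := exists_rich n hn
  obtain ⟨P, hP⟩ := h
  obtain ⟨s, hs⟩ : ∃ s, s = Nat.log 2 (Fintype.card V) + 1 := ⟨_, rfl⟩
  obtain ⟨l, hl⟩ : ∃ l, l = Nat.log 2 n + 1 := ⟨_, rfl⟩
  rw [← hs, ← hl] at hcon
  have hpar := par_total hk (by omega) (by omega) hcon
  have hVs : Fintype.card V ≤ 2 ^ s := by
    rw [hs]
    exact (Nat.lt_pow_succ_log_self (by norm_num) _).le
  have hnl : n < 2 ^ l := by
    rw [hl]
    exact Nat.lt_pow_succ_log_self (by norm_num) _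
  have hk2 : k < 2 ^ k := Nat.lt_two_pow_self
  have hkn : 1 ≤ k * n := Nat.mul_pos hk hn
  obtain ⟨B, hB⟩ : ∃ B, B = 16 * (k * n) := ⟨_, rfl⟩
  have hL0 : 0 < n ^ 2 := by positivity
  have hB2 : B + 2 ≤ 2 ^ (k + l + 5) := by
    calc B + 2 ≤ 2 ^ 5 * (k * n) := by omega
      _ ≤ 2 ^ 5 * (2 ^ k * 2 ^ l) := Nat.mul_le_mul_left _ (Nat.mul_le_mul hk2.le hnl.le)
      _ = _ := by rw [← pow_add, ← pow_add]; congr 1; ring
  have hn3 : 1 ≤ k * n ^ 3 := Nat.mul_pos hk (by positivity)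
  have hT2 : T + 1 ≤ 2 ^ (k + 3 * l + 3) := by
    calc T + 1 ≤ 2 ^ 3 * (k * n ^ 3) := by
          have : k * (4 * n ^ 3) = 4 * (k * n ^ 3) := by ring
          omega
      _ ≤ 2 ^ 3 * (2 ^ k * (2 ^ l) ^ 3) :=
          Nat.mul_le_mul_left _ (Nat.mul_le_mul hk2.le (Nat.pow_le_pow_left hnl.le 3))
      _ = _ := by rw [← pow_mul, ← pow_add, ← pow_add]; congr 1; ring
  have hcard : Fintype.card ((V × (Fin (W + 4) → Fin (B + 2))) × Fin (T + 1)) ≤
      2 ^ (s + (k + l + 5) * (W + 4) + (k + 3 * l + 3)) := by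
    rw [Fintype.card_prod, Fintype.card_prod, Fintype.card_fun, Fintype.card_fin,
      Fintype.card_fin, Fintype.card_fin]
    calc Fintype.card V * (B + 2) ^ (W + 4) * (T + 1) ≤
          2 ^ s * (2 ^ (k + l + 5)) ^ (W + 4) * 2 ^ (k + 3 * l + 3) :=
          Nat.mul_le_mul (Nat.mul_le_mul hVs (Nat.pow_le_pow_left hB2 _)) hT2
      _ = _ := by rw [← pow_mul, ← pow_add, ← pow_add]
  have hBk : B ≤ 6 * k * (3 * n) := by
    have : 6 * k * (3 * n) = 18 * (k * n) := by ring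
    omega
  have hTB : 4 * T ≤ n ^ 2 * (B + 1) := by
    calc 4 * T ≤ 4 * (k * (4 * n ^ 3)) := Nat.mul_le_mul_left _ hT
      _ = n ^ 2 * B := by rw [hB]; ring
      _ ≤ _ := Nat.mul_le_mul_left _ (Nat.le_succ B)
  set X := Fin (n ^ 2) → Cell n → ZMod 2 with hX
  set K : ℝ := (Fintype.card X : ℝ) with hK
  have hK0 : 0 < K := by
    rw [hK]
    exact_mod_cast Fintype.card_pos
  set D : ℝ := K * (((W + 4 : ℕ) : ℝ) * (4 / 2 ^ (2 * W + 2 + 8)) + 1 / 4 ^ (W + 4)) with hD
  have hcor : ∀ Q : Mach (LCell n (n ^ 2)) (ZMod 2) V,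
      |∑ p ∈ fil (fun p : X => Q.Accepts T (inp M p)), sg (cubSum (inp M p))| ≤ D := fun Q =>
    block_corr Q (0, ⟨0, hn⟩) hL0 hTB fun Q' => corr_small hM hpar hBk hcard Q'
  have hmain := pp_count_gen (fun p : X => cubSum (inp M p)) W
    (fun w p => (P w).Accepts T (inp M p)) (fun p => hP (inp M p)) D (by
      have h1 := hcor (constM (P ⟨0, by positivity⟩) True)
      have h2 : (fil fun p : X => (constM (P ⟨0, by positivity⟩) True).Accepts T (inp M p)) =
          univ := by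
        ext p
        rw [mem_fil, constM_accepts]
        simp
      rw [h2] at h1
      exact h1) fun w => hcor (P w)
  have h3 : 4 * 2 ^ W * D ≤ K * (5 / 64) := by
    have e1 : 4 * 2 ^ W * D = K * ((4 * 2 ^ W * (((W + 4 : ℕ) : ℝ) * (4 / 2 ^ (2 * W + 2 + 8)))) +
        4 * 2 ^ W * (1 / 4 ^ (W + 4))) := by
      rw [hD]
      ring
    rw [e1]
    refine mul_le_mul_of_nonneg_left ?_ hK0.le
    have e2 : ((W + 4 : ℕ) : ℝ) ≤ 4 * 2 ^ W := by
      have : W + 4 ≤ 4 * 2 ^ W := by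
        have := @Nat.lt_two_pow_self W
        omega
      exact_mod_cast this
    have e3 : 4 * 2 ^ W * (((W + 4 : ℕ) : ℝ) * (4 / 2 ^ (2 * W + 2 + 8))) ≤ 4 / 64 := by
      calc 4 * 2 ^ W * (((W + 4 : ℕ) : ℝ) * (4 / 2 ^ (2 * W + 2 + 8))) ≤
            4 * 2 ^ W * ((4 * 2 ^ W) * (4 / 2 ^ (2 * W + 2 + 8))) := by gcongr
        _ = 4 / 64 := by
            rw [show 2 * W + 2 + 8 = W + W + 10 by ring, pow_add, pow_add]
            field_simp
            norm_num
    have e4 : (4:ℝ) * 2 ^ W * (1 / 4 ^ (W + 4)) ≤ 1 / 64 := by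
      rw [pow_add, show (4:ℝ) ^ W = 2 ^ W * 2 ^ W by rw [← mul_pow]; norm_num]
      rw [mul_one_div, div_le_div_iff₀ (by positivity) (by norm_num)]
      have : (1:ℝ) ≤ 2 ^ W := one_le_pow₀ (by norm_num)
      nlinarith [show (0:ℝ) < 2 ^ W by positivity]
    linarith
  have h4 : K / 2 ≤ K * (5 / 64) := hmain.trans h3
  nlinarith

end Pool.Agent.Lib_helper26.TB
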