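import Pool.Agent.Lib_helper26.TB.GapDefs
import Pool.Agent.Lib_helper26.TB.Total

/-!
# Lower bounds for randomised machines with a small gap
-/

set_option autoImplicit false
set_option linter.unusedSectionVars false

namespace Pool.Agent.Lib_helper26.TB

open Finset
open Pool.Agent.Lib_helper26.TS (fil mem_fil fil_congr)
open Pool.Agent.Lib_helper26.TQ (Mach InPP InParity InPSPACE constM constM_accepts)

/-- the inequality for a gap -/
theorem gap_count {X Ω : Type} [Fintype X] [Fintype Ω] (F : X → ZMod 2) (W : ℕ)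
    (acc : Ω → X → Prop) [∀ ω x, Decidable (acc ω x)] (p : Ω → ℝ) (hp : ∀ ω, 0 ≤ p ω)
    (hp1 : ∑ ω, p ω = 1)
    (hP : ∀ z, (F z = 1 → 1 / 2 + 1 / 2 ^ W ≤ ∑ ω, if acc ω z then p ω else 0) ∧
      (¬ F z = 1 → (∑ ω, if acc ω z then p ω else 0) ≤ 1 / 2 - 1 / 2 ^ W)) (D : ℝ)
    (hD0 : |∑ z, sg (F z)| ≤ D) (hD : ∀ ω, |∑ z ∈ fil (acc ω), sg (F z)| ≤ D) :
    (Fintype.card X : ℝ) * (2 / 2 ^ W) ≤ 3 * D := by
  classical
  set a : X → ℝ := fun z => ∑ ω, if acc ω z then p ω else 0 with ha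
  have h1 : ∀ z, 2 / 2 ^ W ≤ -sg (F z) * (2 * a z - 1) := by
    intro z
    rcases zmod2 (F z) with h | h
    · have h3 := (hP z).2 (by rw [h]; decide)
      rw [h, sg_zero]
      have h4 : a z ≤ 1 / 2 - 1 / 2 ^ W := h3
      have h5 : (2:ℝ) / 2 ^ W = 2 * (1 / 2 ^ W) := by ring
      rw [h5]
      linarith
    · have h3 := (hP z).1 h
      rw [h, sg_one]
      have h4 : 1 / 2 + 1 / 2 ^ W ≤ a z := h3
      have h5 : (2:ℝ) / 2 ^ W = 2 * (1 / 2 ^ W) := by ring
      rw [h5]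
      linarith
  have h5 := Finset.sum_le_sum fun z (_ : z ∈ (univ : Finset X)) => h1 z
  rw [Finset.sum_const, card_univ, nsmul_eq_mul] at h5
  have h7 : ∑ z : X, -sg (F z) * (2 * a z - 1) =
      -2 * (∑ z, sg (F z) * a z) + ∑ z, sg (F z) := by
    rw [Finset.mul_sum, ← Finset.sum_add_distrib]
    exact Finset.sum_congr rfl fun z _ => by ring
  have h8 : ∑ z, sg (F z) * a z = ∑ ω, p ω * ∑ z ∈ fil (acc ω), sg (F z) := by
    have e1 : ∀ z, sg (F z) * a z = ∑ ω, if acc ω z then p ω * sg (F z) else 0 := by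
      intro z
      rw [ha]
      simp only
      rw [Finset.mul_sum]
      refine Finset.sum_congr rfl fun ω _ => ?_
      split_ifs
      · ring
      · ring
    rw [Finset.sum_congr rfl fun z _ => e1 z, Finset.sum_comm]
    refine Finset.sum_congr rfl fun ω _ => ?_
    rw [← Finset.sum_filter, Finset.mul_sum]
    refine Finset.sum_congr ?_ fun _ _ => rfl
    ext z
    rw [mem_fil, mem_filter]
    exact ⟨fun h => h.2, fun h => ⟨mem_univ _, h⟩⟩
  have h9 : |∑ ω, p ω * ∑ z ∈ fil (acc ω), sg (F z)| ≤ D := by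
    refine (Finset.abs_sum_le_sum_abs _ _).trans ?_
    calc ∑ ω, |p ω * ∑ z ∈ fil (acc ω), sg (F z)| ≤ ∑ ω, p ω * D := by
          refine Finset.sum_le_sum fun ω _ => ?_
          rw [abs_mul, abs_of_nonneg (hp ω)]
          exact mul_le_mul_of_nonneg_left (hD ω) (hp ω)
      _ = D := by rw [← Finset.sum_mul, hp1, one_mul]
  rw [h7, h8] at h5
  have h10 := abs_le.1 h9
  have h11 := abs_le.1 hD0
  linarith [h10.1, h11.2]

variable {n : ℕ} {V : Type} [Fintype V]

/-- the lower bound for the cubic form -/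
theorem cub_gap {M : Fin n → Fin n → Fin n → ZMod 2} (hM : Rich M) {k T W : ℕ} (hk : 1 ≤ k)
    (hT : T ≤ k * (3 * n))
    (h : InGap (Cell n) (ZMod 2) T V W (fun z => cub M z = 1)) :
    n < (Nat.log 2 (Fintype.card V) + 1) * (W + 1) * (k + 1) ^ (1280 * k) := by
  classical
  by_contra hcon
  push Not at hcon
  obtain ⟨Ω, hΩ, p, P, hp, hp1, hP⟩ := h
  have hpar : Par n k (Nat.log 2 (Fintype.card V) + 1) W := ⟨hk, by omega, hcon⟩
  have hcor : ∀ Q : Mach (Cell n) (ZMod 2) V,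
      |∑ z ∈ fil (Q.Accepts T), sg (cub M z)| ≤ (2 : ℝ) ^ (3 * n) * (4 / 2 ^ (W + 8)) := fun Q =>
    corr_small hM hpar hT (Nat.lt_pow_succ_log_self (by norm_num) _).le Q
  obtain ⟨ω0⟩ : Nonempty Ω := by
    by_contra hne
    rw [not_nonempty_iff] at hne
    rw [Finset.univ_eq_empty, Finset.sum_empty] at hp1
    exact zero_ne_one hp1
  have hc := gap_count (fun z => cub M z) W (fun ω z => (P ω).Accepts T z) p hp hp1
    (fun z => by
      have h1 := hP z
      refine ⟨fun h2 => (h1.1 h2).trans (le_of_eq ?_), fun h2 => (le_of_eq ?_).trans (h1.2 h2)⟩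
      · exact Finset.sum_congr rfl fun ω _ => by congr
      · exact Finset.sum_congr rfl fun ω _ => by congr) _ (by
      have h1 := hcor (constM (P ω0) True)
      have h2 : (fil fun z : Cell n → ZMod 2 => (constM (P ω0) True).Accepts T z) =
          univ := by
        ext z
        rw [mem_fil, constM_accepts]
        simp
      rw [h2] at h1
      exact h1) fun ω => hcor (P ω)
  have h1 : (Fintype.card (Cell n → ZMod 2) : ℝ) = 2 ^ (3 * n) := by
    rw [card_pi, card_cell]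
  rw [h1] at hc
  have h2 : (0:ℝ) < 2 ^ (3 * n) := by positivity
  have h3 : (0:ℝ) < 2 ^ W := by positivity
  have h4 : 3 * ((2 : ℝ) ^ (3 * n) * (4 / 2 ^ (W + 8))) = 2 ^ (3 * n) * (3 / 64 / 2 ^ W) := by
    rw [pow_add]
    field_simp
    norm_num
  rw [h4] at hc
  have h5 := le_of_mul_le_mul_left hc h2
  rw [div_le_div_iff_of_pos_right h3] at h5
  norm_num at h5

/-- the correlation of a machine with the sum -/
theorem cubSum_corr {M : Fin n → Fin n → Fin n → ZMod 2} (hM : Rich M) (hn : 0 < n) {k T W : ℕ}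
    (hk : 1 ≤ k) (hT : T ≤ k * (4 * n ^ 3))
    (hcon : (Nat.log 2 (Fintype.card V) + 1) * (W + 1) ^ 2 * (Nat.log 2 n + 1) *
      (k + 1) ^ (30728 * k) ≤ n) (Q : Mach (LCell n (n ^ 2)) (ZMod 2) V) :
    |∑ p ∈ fil (fun p : Fin (n ^ 2) → Cell n → ZMod 2 => Q.Accepts T (inp M p)),
      sg (cubSum (inp M p))| ≤
      (Fintype.card (Fin (n ^ 2) → Cell n → ZMod 2) : ℝ) * (5 / 256 / 2 ^ W) := by
  classical
  obtain ⟨s, hs⟩ : ∃ s, s = Nat.log 2 (Fintype.card V) + 1 := ⟨_, rfl⟩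
  obtain ⟨l, hl⟩ : ∃ l, l = Nat.log 2 n + 1 := ⟨_, rfl⟩
  rw [← hs, ← hl] at hcon
  have hpar := par_total hk (by omega) (by omega) hcon
  have hVs : Fintype.card V ≤ 2 ^ s := by
    rw [hs]
    exact (Nat.lt_pow_succ_log_self (by norm_num) _).le
  have hnl : n < 2 ^ l := by
    rw [hl]
    exact Nat.lt_pow_succ_log_self (by norm_num) _
  have hk2 : k < 2 ^ k := Nat.lt_two_pow_self
  have hkn : 1 ≤ k * n := Nat.mul_pos hk hn
  obtain ⟨B, hB⟩ : ∃ B, B = 16 * (k * n) := ⟨_, rfl⟩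
  have hL0 : 0 < n ^ 2 := by positivity
  have hB2 : B + 2 ≤ 2 ^ (k + l + 5) := by
    calc B + 2 ≤ 2 ^ 5 * (k * n) := by omega
      _ ≤ 2 ^ 5 * (2 ^ k * 2 ^ l) := Nat.mul_le_mul_left _ (Nat.mul_le_mul hk2.le hnl.le)
      _ = _ := by rw [← pow_add, ← pow_add]; congr 1; ring
  have hn3 : 1 ≤ k * n ^ 3 := Nat.mul_pos hk (by positivity)
  have hT2 : T + 1 ≤ 2 ^ (k + 3 * l + 3) := by
    calc T + 1 ≤ 2 ^ 3 * (k * n ^ 3) := by
          have : k * (4 * n ^ 3) = 4 * (k * n ^ 3) := by ring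
          omega
      _ ≤ 2 ^ 3 * (2 ^ k * (2 ^ l) ^ 3) :=
          Nat.mul_le_mul_left _ (Nat.mul_le_mul hk2.le (Nat.pow_le_pow_left hnl.le 3))
      _ = _ := by rw [← pow_mul, ← pow_add, ← pow_add]; congr 1; ring
  have hcard : Fintype.card ((V × (Fin (W + 4) → Fin (B + 2))) × Fin (T + 1)) ≤
      2 ^ (s + (k + l + 5) * (W + 4) + (k + 3 * l + 3)) := by
    rw [Fintype.card_prod, Fintype.card_prod, Fintype.card_fun, Fintype.card_fin,
      Fintype.card_fin, Fintype.card_fin]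
    calc Fintype.card V * (B + 2) ^ (W + 4) * (T + 1) ≤
          2 ^ s * (2 ^ (k + l + 5)) ^ (W + 4) * 2 ^ (k + 3 * l + 3) :=
          Nat.mul_le_mul (Nat.mul_le_mul hVs (Nat.pow_le_pow_left hB2 _)) hT2
      _ = _ := by rw [← pow_mul, ← pow_add, ← pow_add]
  have hBk : B ≤ 6 * k * (3 * n) := by
    have : 6 * k * (3 * n) = 18 * (k * n) := by ring
    omega
  have hTB : 4 * T ≤ n ^ 2 * (B + 1) := by
    calc 4 * T ≤ 4 * (k * (4 * n ^ 3)) := Nat.mul_le_mul_left _ hT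
      _ = n ^ 2 * B := by rw [hB]; ring
      _ ≤ _ := Nat.mul_le_mul_left _ (Nat.le_succ B)
  refine (block_corr Q (0, ⟨0, hn⟩) hL0 hTB fun Q' => corr_small hM hpar hBk hcard Q').trans ?_
  refine mul_le_mul_of_nonneg_left ?_ (Nat.cast_nonneg _)
  have hW : (0:ℝ) < 2 ^ W := by positivity
  rw [le_div_iff₀ hW]
  have e2 : ((W + 4 : ℕ) : ℝ) ≤ 4 * 2 ^ W := by
    have : W + 4 ≤ 4 * 2 ^ W := by
      have := @Nat.lt_two_pow_self W
      omega
    exact_mod_cast this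
  have e3 : ((W + 4 : ℕ) : ℝ) * (4 / 2 ^ (2 * W + 2 + 8)) * 2 ^ W ≤ 4 / 256 := by
    calc ((W + 4 : ℕ) : ℝ) * (4 / 2 ^ (2 * W + 2 + 8)) * 2 ^ W ≤
          (4 * 2 ^ W) * (4 / 2 ^ (2 * W + 2 + 8)) * 2 ^ W := by gcongr
      _ = 4 / 256 := by
          rw [show 2 * W + 2 + 8 = W + W + 10 by ring, pow_add, pow_add]
          field_simp
          norm_num
  have e4 : (1:ℝ) / 4 ^ (W + 4) * 2 ^ W ≤ 1 / 256 := by
    rw [pow_add, show (4:ℝ) ^ W = 2 ^ W * 2 ^ W by rw [← mul_pow]; norm_num]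
    rw [one_div_mul_eq_div, div_le_div_iff₀ (by positivity) (by norm_num)]
    have : (1:ℝ) ≤ 2 ^ W := one_le_pow₀ (by norm_num)
    nlinarith
  rw [add_mul]
  linarith

/-- the lower bound for the sum, with a gap -/
theorem cubSum_gap (hn : 0 < n) {k T W : ℕ} (hk : 1 ≤ k) (hT : T ≤ k * (4 * n ^ 3))
    (h : InGap (LCell n (n ^ 2)) (ZMod 2) T V W (fun z => cubSum z = 1)) :
    n < (Nat.log 2 (Fintype.card V) + 1) * (W + 1) ^ 2 * (Nat.log 2 n + 1) *
      (k + 1) ^ (30728 * k) := by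
  classical
  by_contra hcon
  push Not at hcon
  obtain ⟨M, hM⟩ := exists_rich n hn
  obtain ⟨Ω, hΩ, p, P, hp, hp1, hP⟩ := h
  obtain ⟨ω0⟩ : Nonempty Ω := by
    by_contra hne
    rw [not_nonempty_iff] at hne
    rw [Finset.univ_eq_empty, Finset.sum_empty] at hp1
    exact zero_ne_one hp1
  have hcor := fun Q : Mach (LCell n (n ^ 2)) (ZMod 2) V => cubSum_corr hM hn hk hT hcon Q
  have hc := gap_count (fun z : Fin (n ^ 2) → Cell n → ZMod 2 => cubSum (inp M z)) W
    (fun ω z => (P ω).Accepts T (inp M z)) p hp hp1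
    (fun z => by
      have h1 := hP (inp M z)
      refine ⟨fun h2 => (h1.1 h2).trans (le_of_eq ?_), fun h2 => (le_of_eq ?_).trans (h1.2 h2)⟩
      · exact Finset.sum_congr rfl fun ω _ => by congr
      · exact Finset.sum_congr rfl fun ω _ => by congr) _ (by
      have h1 := hcor (constM (P ω0) True)
      have h2 : (fil fun z : Fin (n ^ 2) → Cell n → ZMod 2 =>
          (constM (P ω0) True).Accepts T (inp M z)) = univ := by
        ext z
        rw [mem_fil, constM_accepts]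
        simp
      rw [h2] at h1
      exact h1) fun ω => hcor (P ω)
  have h2 : (0:ℝ) < (Fintype.card (Fin (n ^ 2) → Cell n → ZMod 2) : ℝ) := by
    exact_mod_cast Fintype.card_pos
  have h3 : (0:ℝ) < 2 ^ W := by positivity
  rw [← mul_assoc, mul_comm 3 (Fintype.card (Fin (n ^ 2) → Cell n → ZMod 2) : ℝ), mul_assoc] at hc
  have h5 := le_of_mul_le_mul_left hc h2
  rw [← mul_div_assoc, div_le_div_iff_of_pos_right h3] at h5
  norm_num at h5

end Pool.Agent.Lib_helper26.TB
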