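import Pool.Agent.Lib_helper26.TQ.Defs

/-!
# Randomised mode with a gap
-/

set_option autoImplicit false

namespace Pool.Agent.Lib_helper26.TB

open Pool.Agent.Lib_helper26.TQ (Mach)

open Classical in
/-- Randomised mode with error at most `1/2 - 1/2^W`: there are a finite probability space `Ω`
(of any size: any number of random bits) and machines `P ω` such that every input of `L` is accepted
with probability at least `1/2 + 1/2^W`, every other input with probability at most
`1/2 - 1/2^W`. -/
def InGap (I A : Type) (T : ℕ) (V : Type) (W : ℕ) (L : (I → A) → Prop) : Prop :=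
  ∃ (Ω : Type) (_ : Fintype Ω) (p : Ω → ℝ) (P : Ω → Mach I A V),
    (∀ ω, 0 ≤ p ω) ∧ ∑ ω, p ω = 1 ∧ ∀ x,
      (L x → 1 / 2 + 1 / 2 ^ W ≤ ∑ ω, if (P ω).Accepts T x then p ω else 0) ∧
      (¬ L x → (∑ ω, if (P ω).Accepts T x then p ω else 0) ≤ 1 / 2 - 1 / 2 ^ W)

end Pool.Agent.Lib_helper26.TB
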