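import Pool.Agent.Lib_helper26.TB.Family

/-!
# Choosing small sets of cells
-/

set_option autoImplicit false
set_option linter.unusedSectionVars false

namespace Pool.Agent.Lib_helper26.TB

open Finset

variable {n : ℕ}

/-- a subset of size `a` -/
noncomputable def trunc (a : ℕ) (D : Finset (Fin n)) : Finset (Fin n) :=
  if h : a ≤ D.card then (exists_subset_card_eq h).choose else ∅

theorem trunc_sub {a : ℕ} {D : Finset (Fin n)} (h : a ≤ D.card) : trunc a D ⊆ D := by
  unfold trunc
  rw [dif_pos h]
  exact (exists_subset_card_eq h).choose_spec.1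

theorem trunc_card {a : ℕ} {D : Finset (Fin n)} (h : a ≤ D.card) : (trunc a D).card = a := by
  unfold trunc
  rw [dif_pos h]
  exact (exists_subset_card_eq h).choose_spec.2

/-- the blocks -/
def blk (q b : ℕ) : Finset (Fin n) := univ.filter fun l => l.val / q = b

theorem blk_card {q b : ℕ} (hq : 0 < q) (hb : b < n / q) : (blk q b : Finset (Fin n)).card = q := by
  have h1 : (b + 1) * q ≤ n := by
    calc (b + 1) * q ≤ (n / q) * q := Nat.mul_le_mul_right q hb
      _ ≤ n := Nat.div_mul_le_self n q
  rw [← Finset.card_map Fin.valEmbedding]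
  have h2 : (blk q b : Finset (Fin n)).map Fin.valEmbedding = Finset.Ico (b * q) ((b + 1) * q) := by
    ext x
    simp only [blk, mem_map, mem_filter, mem_univ, true_and, Fin.valEmbedding_apply, mem_Ico]
    constructor
    · rintro ⟨l, hl, rfl⟩
      have := (Nat.div_eq_iff hq).1 hl
      have h3 : (b + 1) * q = b * q + q := by ring
      omega
    · rintro ⟨h3, h4⟩
      refine ⟨⟨x, by omega⟩, ?_, rfl⟩
      rw [Nat.div_eq_iff hq]
      have h5 : (b + 1) * q = b * q + q := by ring
      simp only
      omega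
  rw [h2, Nat.card_Ico]
  have h3 : (b + 1) * q = b * q + q := by ring
  omega

/-- the candidates -/
def fam (n q e : ℕ) : Finset (Finset (Fin n)) :=
  (range (n / q)).biUnion fun b => (blk q b).powersetCard (q - e)

theorem fam_card {q e : ℕ} (hq : 0 < q) (he : e ≤ q) :
    (fam n q e).card ≤ n * q.choose e := by
  refine card_biUnion_le.trans ?_
  calc ∑ b ∈ range (n / q), ((blk q b : Finset (Fin n)).powersetCard (q - e)).card
      = ∑ _b ∈ range (n / q), q.choose e := by
        refine Finset.sum_congr rfl fun b hb => ?_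
        rw [card_powersetCard, blk_card hq (mem_range.1 hb), Nat.choose_symm he]
    _ = (n / q) * q.choose e := by rw [Finset.sum_const, smul_eq_mul, card_range]
    _ ≤ n * q.choose e := Nat.mul_le_mul_right _ (Nat.div_le_self n q)

theorem fam_mem_card {q e : ℕ} {Q : Finset (Fin n)} (h : Q ∈ fam n q e) : Q.card = q - e := by
  obtain ⟨b, _, hQ⟩ := mem_biUnion.1 h
  exact (mem_powersetCard.1 hQ).2

theorem exists_fam {q e : ℕ} (hq : 0 < q) {D : Finset (Fin n)}
    (h : (univ \ D).card < (n / q) * (e + 1)) : ∃ Q ∈ fam n q e, Q ⊆ D := by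
  classical
  by_contra hcon
  push Not at hcon
  have h1 : ∀ b ∈ range (n / q), e + 1 ≤ ((blk q b : Finset (Fin n)) \ D).card := by
    intro b hb
    by_contra h2
    push Not at h2
    have h3 : ((blk q b : Finset (Fin n)) \ D).card + ((blk q b : Finset (Fin n)) ∩ D).card = q := by
      rw [card_sdiff_add_card_inter, blk_card hq (mem_range.1 hb)]
    obtain ⟨Q, hQ, hQc⟩ := exists_subset_card_eq (s := (blk q b : Finset (Fin n)) ∩ D)
      (n := q - e) (by omega)
    refine hcon Q ?_ (hQ.trans inter_subset_right)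
    exact mem_biUnion.2 ⟨b, hb, mem_powersetCard.2 ⟨hQ.trans inter_subset_left, hQc⟩⟩
  have h2 : (n / q) * (e + 1) ≤ (univ \ D).card := by
    calc (n / q) * (e + 1) = ∑ _b ∈ range (n / q), (e + 1) := by
          rw [Finset.sum_const, smul_eq_mul, card_range]
      _ ≤ ∑ b ∈ range (n / q), ((blk q b : Finset (Fin n)) \ D).card :=
          Finset.sum_le_sum h1
      _ = ((range (n / q)).biUnion fun b => (blk q b : Finset (Fin n)) \ D).card := by
          rw [card_biUnion]
          intro b _ b' _ hbb
          rw [Function.onFun, Finset.disjoint_left]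
          intro x hx hx'
          rw [mem_sdiff, blk, mem_filter] at hx hx'
          exact hbb (hx.1.2.symm.trans hx'.1.2)
      _ ≤ _ := by
          refine card_le_card fun x hx => ?_
          obtain ⟨b, _, hx⟩ := mem_biUnion.1 hx
          exact mem_sdiff.2 ⟨mem_univ _, (mem_sdiff.1 hx).2⟩
  omega

/-- a candidate inside `D` -/
noncomputable def pick (q e : ℕ) (D : Finset (Fin n)) : Finset (Fin n) := by
  classical
  exact if h : ∃ Q ∈ fam n q e, Q ⊆ D then h.choose else ∅

theorem pick_mem {q e : ℕ} {D : Finset (Fin n)} (h : ∃ Q ∈ fam n q e, Q ⊆ D) :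
    pick q e D ∈ fam n q e := by
  unfold pick
  rw [dif_pos h]
  exact h.choose_spec.1

theorem pick_sub {q e : ℕ} {D : Finset (Fin n)} (h : ∃ Q ∈ fam n q e, Q ⊆ D) :
    pick q e D ⊆ D := by
  unfold pick
  rw [dif_pos h]
  exact h.choose_spec.2

/-- binomial coefficients -/
theorem choose_bound {N a h u : ℕ} (hN : N ≤ 2 ^ h * u) : (N.choose a : ℝ) ≤ 2 ^ (2 * u + h * a) := by
  rcases le_or_gt a N with ha | ha
  · set x : ℝ := 1 / 2 ^ h with hx
    have hx0 : 0 < x := by rw [hx]; positivity
    have h1 : x ^ a * (N.choose a : ℝ) ≤ (x + 1) ^ N := by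
      rw [add_pow]
      have h2 : x ^ a * 1 ^ (N - a) * (N.choose a : ℝ) ≤
          ∑ m ∈ range (N + 1), x ^ m * 1 ^ (N - m) * (N.choose m : ℝ) :=
        Finset.single_le_sum (f := fun m => x ^ m * 1 ^ (N - m) * (N.choose m : ℝ))
          (fun m _ => by positivity) (mem_range.2 (by omega))
      simpa using h2
    have h3 : (x + 1) ^ N ≤ 2 ^ (2 * u) := by
      calc (x + 1) ^ N ≤ (Real.exp x) ^ N :=
            pow_le_pow_left₀ (by positivity) (Real.add_one_le_exp x) N
        _ = Real.exp (N * x) := by rw [← Real.exp_nat_mul]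
        _ ≤ Real.exp (u * 1) := by
            rw [Real.exp_le_exp, hx, mul_one, mul_one_div, div_le_iff₀ (by positivity), mul_comm]
            exact_mod_cast hN
        _ = (Real.exp 1) ^ u := by rw [Real.exp_nat_mul]
        _ ≤ 4 ^ u := by
            refine pow_le_pow_left₀ (Real.exp_pos 1).le ?_ u
            have := Real.exp_one_lt_d9
            linarith
        _ = 2 ^ (2 * u) := by rw [pow_mul]; norm_num
    have h4 : (N.choose a : ℝ) = (x ^ a * (N.choose a : ℝ)) * 2 ^ (h * a) := by
      rw [hx, pow_mul, div_pow, one_pow]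
      field_simp
    rw [h4, pow_add]
    exact mul_le_mul_of_nonneg_right (h1.trans h3) (by positivity)
  · rw [Nat.choose_eq_zero_of_lt ha, Nat.cast_zero]
    positivity

end Pool.Agent.Lib_helper26.TB
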