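import Mathlib

/-!
# Few matrices over the field with two elements have a small rank
-/

set_option autoImplicit false

namespace Pool.Agent.Lib_helper26.TB

open Finset

/-- A linear map with a small range factors through a small space. -/
theorem factor {F U V : Type} [Field F] [AddCommGroup U] [Module F U] [AddCommGroup V] [Module F V]
    [FiniteDimensional F U] [FiniteDimensional F V] (f : U →ₗ[F] V) {ρ : ℕ}
    (h : Module.finrank F (LinearMap.range f) ≤ ρ) :
    ∃ (a : U →ₗ[F] (Fin ρ → F)) (b : (Fin ρ → F) →ₗ[F] V), f = b ∘ₗ a := by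
  obtain ⟨i, hi⟩ := (finrank_le_iff_exists_linearMap (R := F)
    (M := LinearMap.range f) (M' := Fin ρ → F)).1 (by rw [Module.finrank_fin_fun]; exact h)
  obtain ⟨p, hp⟩ := LinearMap.exists_leftInverse_of_injective i (LinearMap.ker_eq_bot.2 hi)
  refine ⟨i ∘ₗ f.rangeRestrict, (LinearMap.range f).subtype ∘ₗ p, ?_⟩
  ext x
  have h1 : p (i (f.rangeRestrict x)) = f.rangeRestrict x := LinearMap.congr_fun hp _
  simp [h1]

variable {α β : Type} [Fintype α] [Fintype β] [DecidableEq α] [DecidableEq β]

/-- the linear map of a matrix -/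
def lin (B : α → β → ZMod 2) : (α → ZMod 2) →ₗ[ZMod 2] (β → ZMod 2) where
  toFun x j := ∑ i, B i j * x i
  map_add' x y := by
    funext j
    simp only [Pi.add_apply, mul_add, Finset.sum_add_distrib]
  map_smul' c x := by
    funext j
    simp only [Pi.smul_apply, smul_eq_mul, RingHom.id_apply, Finset.mul_sum]
    exact Finset.sum_congr rfl fun i _ => by ring

/-- the kernel -/
def ker (B : α → β → ZMod 2) : Finset (α → ZMod 2) :=
  univ.filter fun x => ∀ j, ∑ i, B i j * x i = 0

theorem card_ker (B : α → β → ZMod 2) :
    (ker B).card * 2 ^ Module.finrank (ZMod 2) (LinearMap.range (lin B)) =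
      2 ^ Fintype.card α := by
  classical
  have h1 : (ker B).card = Nat.card (LinearMap.ker (lin B)) := by
    rw [Nat.card_eq_fintype_card, Fintype.card_subtype]
    congr 1
    ext x
    simp only [ker, mem_filter, mem_univ, true_and, LinearMap.mem_ker, lin, LinearMap.coe_mk,
      AddHom.coe_mk, funext_iff, Pi.zero_apply]
  have h2 : Nat.card (LinearMap.ker (lin B)) =
      2 ^ Module.finrank (ZMod 2) (LinearMap.ker (lin B)) := by
    rw [Module.natCard_eq_pow_finrank (K := ZMod 2), Nat.card_zmod]
  rw [h1, h2, ← pow_add, add_comm, LinearMap.finrank_range_add_finrank_ker,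
    Module.finrank_fintype_fun_eq_card]

/-- few matrices have a large kernel -/
theorem bad_count (ρ : ℕ) :
    (univ.filter fun B : α → β → ZMod 2 => 2 ^ Fintype.card α < (ker B).card * 2 ^ ρ).card ≤
      2 ^ (ρ * (Fintype.card α + Fintype.card β)) := by
  classical
  have hsub : (univ.filter fun B : α → β → ZMod 2 =>
      2 ^ Fintype.card α < (ker B).card * 2 ^ ρ) ⊆
      (univ : Finset ((α → Fin ρ → ZMod 2) × (Fin ρ → β → ZMod 2))).image
        (fun q => fun i j => ∑ s, q.1 i s * q.2 s j) := by
    intro B hB
    rw [mem_filter] at hB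
    have h1 : Module.finrank (ZMod 2) (LinearMap.range (lin B)) ≤ ρ := by
      by_contra hcon
      push Not at hcon
      have h2 := card_ker B
      have h3 : (ker B).card * 2 ^ ρ ≤
          (ker B).card * 2 ^ Module.finrank (ZMod 2) (LinearMap.range (lin B)) :=
        Nat.mul_le_mul_left _ (Nat.pow_le_pow_right (by norm_num) hcon.le)
      omega
    obtain ⟨a, b, hab⟩ := factor (lin B) h1
    rw [mem_image]
    refine ⟨(fun i s => a (Pi.single i 1) s, fun s j => b (Pi.single s 1) j), mem_univ _, ?_⟩
    funext i j
    simp only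
    have e1 : B i j = lin B (Pi.single i 1) j := by
      simp only [lin, LinearMap.coe_mk, AddHom.coe_mk]
      rw [Finset.sum_eq_single i]
      · simp
      · intro i' _ hi'
        rw [Pi.single_eq_of_ne hi', mul_zero]
      · intro h
        exact absurd (mem_univ _) h
    rw [e1, hab, LinearMap.comp_apply]
    set v := a (Pi.single i 1) with hv
    have e2 : v = ∑ s, v s • (Pi.single s (1 : ZMod 2) : Fin ρ → ZMod 2) := by
      funext s
      rw [Finset.sum_apply, Finset.sum_eq_single s]
      · simp
      · intro s' _ hs'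
        simp [Pi.single_eq_of_ne hs'.symm]
      · intro h
        exact absurd (mem_univ _) h
    conv_rhs => rw [e2, map_sum, Finset.sum_apply]
    refine Finset.sum_congr rfl fun s _ => ?_
    rw [map_smul]
    rfl
  refine (card_le_card hsub).trans (card_image_le.trans (le_of_eq ?_))
  rw [card_univ, Fintype.card_prod, Fintype.card_fun, Fintype.card_fun, Fintype.card_fun,
    Fintype.card_fun, Fintype.card_fin, ZMod.card, ← pow_mul, ← pow_mul, ← pow_add]
  congr 1
  ring

end Pool.Agent.Lib_helper26.TB
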