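import Pool.Agent.Lib_helper26.TQ.Runs
import Pool.Agent.Lib_helper26.TB.Pick

/-!
# The classes of inputs of a machine
-/

set_option autoImplicit false
set_option linter.unusedSectionVars false

namespace Pool.Agent.Lib_helper26.TB

open Finset
open Pool.Agent.Lib_helper26.TS (fil mem_fil fil_congr card_fixed)
open Pool.Agent.Lib_helper26.TQ (Mach segs mem_segs Oc state_mix segs_mix)

section general

variable {I A V : Type}

/-- recovering the cells read in the segments with a property -/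
theorem recover (M : Mach I A V) {T L r : ℕ} (hL : 0 < L) (c : Fin r → Prop) (x y : I → A)
    (hb : ∀ j, j * L ≤ T → M.state x (j * L) = M.state y (j * L))
    (h : ∀ e, (∃ j ∈ segs M T L r x e, c j) → (∃ j ∈ segs M T L r y e, c j) → x e = y e) :
    ∀ e j, c j → (j ∈ segs M T L r x e ↔ j ∈ segs M T L r y e) := by
  have key : ∀ t ≤ T, ∀ j : Fin r, c j → j.val * L ≤ t → t ≤ (j.val + 1) * L →
      M.state x t = M.state y t := by
    intro t
    induction t with
    | zero =>
      intro _ j _ _ _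
      rfl
    | succ t ih =>
      intro ht j hj hj1 hj2
      by_cases h1 : j.val * L ≤ t
      · have h3 := ih (by omega) j hj h1 (by omega)
        have h4 : t / L = j.val := by
          rw [Nat.div_eq_iff hL]
          have h5 : (j.val + 1) * L = j.val * L + L := by ring
          omega
        show M.next t (M.state x t) (x (M.query t (M.state x t))) =
          M.next t (M.state y t) (y (M.query t (M.state y t)))
        have h5 : x (M.query t (M.state x t)) = y (M.query t (M.state x t)) := by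
          refine h _ ⟨j, mem_segs.2 ⟨t, by omega, h4, rfl⟩, hj⟩
            ⟨j, mem_segs.2 ⟨t, by omega, h4, by rw [h3]⟩, hj⟩
        rw [h5, h3]
      · have h2 : j.val * L = t + 1 := by omega
        have h3 := hb j.val (by omega)
        rw [h2] at h3
        exact h3
  intro e j hj
  have hst : ∀ t, t < T → t / L = j.val → M.state x t = M.state y t := by
    intro t ht htj
    have h1 := (Nat.div_eq_iff hL).1 htj
    refine key t ht.le j hj h1.1 ?_
    have : (j.val + 1) * L = j.val * L + L := by ring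
    omega
  rw [mem_segs, mem_segs]
  refine exists_congr fun t => and_congr_right fun ht => and_congr_right fun htj => ?_
  rw [hst t ht htj]

/-- the mixed run has the same states at the boundaries -/
theorem state_bd (M : Mach I A V) {T L r : ℕ} (hL : 0 < L) (hT : T ≤ r * L) (ω : Oc r I)
    (x y z : I → A) (hb : ∀ j, j * L ≤ T → M.state x (j * L) = M.state y (j * L))
    (hz1 : ∀ e, (∃ j ∈ segs M T L r x e, ω (Sum.inl j) = true) → z e = x e)
    (hz2 : ∀ e, (∃ j ∈ segs M T L r y e, ω (Sum.inl j) = false) → z e = y e) :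
    ∀ t ≤ T, M.state x t = M.state y t → M.state z t = M.state x t := by
  intro t ht hxy'
  have hst := state_mix M hL ω x y z hb hz1 hz2
  rcases Nat.eq_zero_or_pos r with h0 | h0
  · rw [h0, zero_mul] at hT
    have : t = 0 := by omega
    subst this
    rfl
  · have h1 : min (t / L) (r - 1) < r := by omega
    have h2 := hst t ht ⟨min (t / L) (r - 1), h1⟩
      ((Nat.mul_le_mul_right L (min_le_left _ _)).trans (Nat.div_mul_le_self t L)) (by
        show t ≤ (min (t / L) (r - 1) + 1) * L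
        rcases le_total (t / L) (r - 1) with h | h
        · rw [min_eq_left h]
          have h5 := Nat.div_add_mod t L
          have h6 := Nat.mod_lt t hL
          have h7 : (t / L + 1) * L = L * (t / L) + L := by ring
          omega
        · rw [min_eq_right h, Nat.sub_add_cancel h0]
          exact ht.trans hT)
    rw [h2, ← hxy', ite_self]

end general

variable {n : ℕ} {V : Type} {w r : ℕ}

/-- the cells read in segments of colour zero -/
noncomputable def UF (M : Mach (Cell n) (ZMod 2) V) (T L : ℕ) (ω : Fin r → Fin (w + 1))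
    (x : Cell n → ZMod 2) : Finset (Cell n) := fil fun e => ∃ j ∈ segs M T L r x e, ω j = 0

/-- the cells read in the other segments -/
noncomputable def UN (M : Mach (Cell n) (ZMod 2) V) (T L : ℕ) (ω : Fin r → Fin (w + 1))
    (x : Cell n → ZMod 2) : Finset (Cell n) := fil fun e => ∃ j ∈ segs M T L r x e, ω j ≠ 0

/-- the cells of the word `s` outside `U` -/
def DS (s : Fin 3) (U : Finset (Cell n)) : Finset (Fin n) := univ.filter fun i => (s, i) ∉ U

theorem mem_DS {s : Fin 3} {U : Finset (Cell n)} {i : Fin n} : i ∈ DS s U ↔ (s, i) ∉ U := by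
  simp [DS]

/-- the pair of an input -/
noncomputable def pr (ρ : ℕ) (U : Finset (Cell n)) : Finset (Fin n) × Finset (Fin n) :=
  (trunc (4 * ρ) (DS 0 U), trunc (4 * ρ) (DS 1 U))

/-- the good inputs -/
def Good (M : Mach (Cell n) (ZMod 2) V) (T L : ℕ) (ω : Fin r → Fin (w + 1)) (ρ q e : ℕ)
    (x : Cell n → ZMod 2) : Prop :=
  (4 * ρ ≤ (DS 0 (UN M T L ω x)).card ∧ 4 * ρ ≤ (DS 1 (UN M T L ω x)).card) ∧
    ∃ Q ∈ fam n q e, Q ⊆ DS 2 (UF M T L ω x)

theorem pr_disj {ρ : ℕ} {U : Finset (Cell n)} (h : 4 * ρ ≤ (DS 0 U).card ∧ 4 * ρ ≤ (DS 1 U).card)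
    {e : Cell n} (he : e ∈ PP (pr ρ U)) : e ∉ U := by
  obtain ⟨s, i⟩ := e
  rw [PP, mem_union, mem_side, mem_side] at he
  rcases he with ⟨rfl, he⟩ | ⟨rfl, he⟩
  · exact mem_DS.1 (trunc_sub h.1 he)
  · exact mem_DS.1 (trunc_sub h.2 he)

/-- the class -/
def Cls (M : Mach (Cell n) (ZMod 2) V) (T L : ℕ) (ω : Fin r → Fin (w + 1)) (ρ q e : ℕ)
    (b : Fin (r + 1) → V) (Q : Finset (Fin n)) (p : Finset (Fin n) × Finset (Fin n))
    (x : Cell n → ZMod 2) : Prop :=
  (Good M T L ω ρ q e x ∧ (∀ j : Fin (r + 1), M.state x (min (j.val * L) T) = b j) ∧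
    pr ρ (UN M T L ω x) = p ∧ pick q e (DS 2 (UF M T L ω x)) = Q) ∧ M.Accepts T x

theorem bd_eq {M : Mach (Cell n) (ZMod 2) V} {T L : ℕ} (hL : 0 < L) (hT : T ≤ r * L)
    {b : Fin (r + 1) → V} {x y : Cell n → ZMod 2}
    (hx : ∀ j : Fin (r + 1), M.state x (min (j.val * L) T) = b j)
    (hy : ∀ j : Fin (r + 1), M.state y (min (j.val * L) T) = b j) :
    ∀ j, j * L ≤ T → M.state x (j * L) = M.state y (j * L) := by
  intro j hj
  rcases le_or_gt j r with h | h
  · have h1 := hx ⟨j, by omega⟩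
    have h2 := hy ⟨j, by omega⟩
    simp only at h1 h2
    rw [min_eq_left hj] at h1 h2
    rw [h1, h2]
  · have h3 : (r + 1) * L ≤ j * L := Nat.mul_le_mul_right L h
    have h4 : (r + 1) * L = r * L + L := by ring
    omega

/-- the classes are closed under mixing -/
theorem cls_closed (M : Mach (Cell n) (ZMod 2) V) {T L : ℕ} (hL : 0 < L) (hT : T ≤ r * L)
    (ω : Fin r → Fin (w + 1)) (ρ q e : ℕ) (b : Fin (r + 1) → V) (Q : Finset (Fin n))
    (p : Finset (Fin n) × Finset (Fin n)) :
    Closed (PP p) (side 2 Q) (Cls M T L ω ρ q e b Q p) := by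
  rintro x y ⟨⟨gx, hx1, hx2, hx3⟩, hx4⟩ ⟨⟨gy, hy1, hy2, hy3⟩, hy4⟩ hxy
  set z : Cell n → ZMod 2 := fun i => if i ∈ PP p then x i else y i with hz
  have hb := bd_eq hL hT hx1 hy1
  set ω' : Oc r (Cell n) := Sum.elim (fun j => decide (ω j = 0)) (fun _ => true) with hω'
  have ht : ∀ j, ω' (Sum.inl j) = true ↔ ω j = 0 := by
    intro j
    rw [hω', Sum.elim_inl, decide_eq_true_iff]
  have hf : ∀ j, ω' (Sum.inl j) = false ↔ ω j ≠ 0 := by
    intro j
    rw [hω', Sum.elim_inl, decide_eq_false_iff_not]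
  have hz1 : ∀ e, (∃ j ∈ segs M T L r x e, ω' (Sum.inl j) = true) → z e = x e := by
    rintro a ⟨j, hj, hω⟩
    rw [hz]
    simp only
    by_cases hP : a ∈ PP p
    · rw [if_pos hP]
    · rw [if_neg hP]
      refine (hxy a hP ?_).symm
      obtain ⟨s, l⟩ := a
      intro hQ
      obtain ⟨rfl, hl⟩ := mem_side.1 hQ
      rw [← hx3] at hl
      have := mem_DS.1 (pick_sub gx.2 hl)
      exact this (mem_fil.2 ⟨j, hj, (ht j).1 hω⟩)
  have hz2 : ∀ e, (∃ j ∈ segs M T L r y e, ω' (Sum.inl j) = false) → z e = y e := by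
    rintro a ⟨j, hj, hω⟩
    rw [hz]
    simp only
    rw [if_neg]
    intro hP
    rw [← hy2] at hP
    exact pr_disj gy.1 hP (mem_fil.2 ⟨j, hj, (hf j).1 hω⟩)
  have hsg := segs_mix M hL ω' x y z hb hz1 hz2
  have hbd := state_bd M hL hT ω' x y z hb hz1 hz2
  have hUN : UN M T L ω z = UN M T L ω y := by
    unfold UN
    refine fil_congr fun a => exists_congr fun j => ?_
    rw [hsg a j]
    by_cases hj : ω j = 0
    · simp [hj]
    · rw [if_neg (fun h => hj ((ht j).1 h))]
  have hUF : UF M T L ω z = UF M T L ω x := by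
    unfold UF
    refine fil_congr fun a => exists_congr fun j => ?_
    rw [hsg a j]
    by_cases hj : ω j = 0
    · rw [if_pos ((ht j).2 hj)]
    · simp [hj]
  have hbT : M.state x T = M.state y T := by
    have h1 := hx1 ⟨r, by omega⟩
    have h2 := hy1 ⟨r, by omega⟩
    simp only at h1 h2
    rw [min_eq_right hT] at h1 h2
    rw [h1, h2]
  refine ⟨⟨⟨?_, ?_⟩, fun j => ?_, ?_, ?_⟩, ?_⟩
  · rw [hUN]
    exact gy.1
  · rw [hUF]
    exact gx.2
  · rw [hbd _ (min_le_right _ _) (by rw [hx1 j, hy1 j]), hx1 j]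
  · rw [hUN]
    exact hy2
  · rw [hUF]
    exact hx3
  · show M.acc (M.state z T)
    rw [hbd T le_rfl hbT]
    exact hx4

/-- the subcubes are disjoint -/
theorem cls_disj (M : Mach (Cell n) (ZMod 2) V) {T L : ℕ} (hL : 0 < L) (hT : T ≤ r * L)
    (ω : Fin r → Fin (w + 1)) (ρ q e : ℕ) (b : Fin (r + 1) → V) (Q : Finset (Fin n))
    (p p' : Finset (Fin n) × Finset (Fin n)) (z z' v : Cell n → ZMod 2)
    (hz : Cls M T L ω ρ q e b Q p z) (hz' : Cls M T L ω ρ q e b Q p' z')
    (h : ∀ i, i ∉ PP p → z i = v i) (h' : ∀ i, i ∉ PP p' → z' i = v i) : p = p' := by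
  obtain ⟨⟨g1, a1, a2, a3⟩, -⟩ := hz
  obtain ⟨⟨g2, b1, b2, b3⟩, -⟩ := hz'
  have hb := bd_eq hL hT a1 b1
  have hr := recover M (T := T) hL (fun j : Fin r => ω j ≠ 0) z z' hb (by
    intro a ha hb
    have h1 : a ∉ PP p := by
      intro hP
      rw [← a2] at hP
      exact pr_disj g1.1 hP (mem_fil.2 ha)
    have h2 : a ∉ PP p' := by
      intro hP
      rw [← b2] at hP
      exact pr_disj g2.1 hP (mem_fil.2 hb)
    rw [h a h1, h' a h2])
  have hUN : UN M T L ω z = UN M T L ω z' := by
    unfold UN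
    refine fil_congr fun a => exists_congr fun j => ?_
    constructor
    · rintro ⟨h1, h2⟩
      exact ⟨(hr a j h2).1 h1, h2⟩
    · rintro ⟨h1, h2⟩
      exact ⟨(hr a j h2).2 h1, h2⟩
  rw [← a2, ← b2, hUN]

end Pool.Agent.Lib_helper26.TB
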