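import Pool.Agent.Lib_helper26.TQ.Defs

/-!
# A machine on one block of the input
-/

set_option autoImplicit false
set_option linter.unusedSectionVars false

namespace Pool.Agent.Lib_helper26.TB

open Finset
open Pool.Agent.Lib_helper26.TQ (Mach)

variable {I A J V : Type}

/-- the input `y` with contents `x` in the block -/
def put (blk : I → Option J) (y : I → A) (x : J → A) : I → A := fun i =>
  match blk i with
  | some c => x c
  | none => y i

theorem put_some {blk : I → Option J} {y : I → A} {x : J → A} {i : I} {c : J}
    (h : blk i = some c) : put blk y x i = x c := by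
  simp [put, h]

theorem put_none {blk : I → Option J} {y : I → A} {x : J → A} {i : I}
    (h : blk i = none) : put blk y x i = y i := by
  simp [put, h]

/-- the number of reads before time `t` of the cells with a property -/
def rds (Q : Mach I A V) (b : I → Bool) (z : I → A) : ℕ → ℕ
  | 0 => 0
  | t + 1 => rds Q b z t + if b (Q.query t (Q.state z t)) then 1 else 0

theorem rds_succ (Q : Mach I A V) (b : I → Bool) (z : I → A) (t : ℕ) :
    rds Q b z (t + 1) = rds Q b z t + if b (Q.query t (Q.state z t)) then 1 else 0 := rfl

theorem rds_mono (Q : Mach I A V) (b : I → Bool) (z : I → A) {t t' : ℕ} (h : t ≤ t') :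
    rds Q b z t ≤ rds Q b z t' := by
  induction t' with
  | zero =>
    have : t = 0 := by omega
    rw [this]
  | succ t' ih =>
    rcases Nat.lt_or_ge t (t' + 1) with h1 | h1
    · refine (ih (by omega)).trans ?_
      rw [rds_succ]
      exact Nat.le_add_right _ _
    · have : t = t' + 1 := by omega
      rw [this]

/-- run without reading the block -/
def skp (Q : Mach I A V) (blk : I → Option J) (y : I → A) (T : ℕ) : ℕ → V → ℕ → V × ℕ
  | 0, v, t => (v, t)
  | f + 1, v, t => if t < T ∧ (blk (Q.query t v)).isSome = false then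
      skp Q blk y T f (Q.next t v (y (Q.query t v))) (t + 1) else (v, t)

theorem skp_spec (Q : Mach I A V) (blk : I → Option J) (y : I → A) (T : ℕ) (x : J → A) :
    ∀ (f : ℕ) (t : ℕ), t ≤ T → T ≤ t + f → ∃ t', t ≤ t' ∧ t' ≤ T ∧
      skp Q blk y T f (Q.state (put blk y x) t) t = (Q.state (put blk y x) t', t') ∧
      (t' = T ∨ (blk (Q.query t' (Q.state (put blk y x) t'))).isSome = true) ∧
      rds Q (fun i => (blk i).isSome) (put blk y x) t' =
        rds Q (fun i => (blk i).isSome) (put blk y x) t := by
  intro f
  induction f with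
  | zero =>
    intro t h1 h2
    exact ⟨t, le_rfl, h1, rfl, Or.inl (by omega), rfl⟩
  | succ f ih =>
    intro t h1 h2
    by_cases h : t < T ∧ (blk (Q.query t (Q.state (put blk y x) t))).isSome = false
    · obtain ⟨t', a1, a2, a3, a4, a5⟩ := ih (t + 1) (by omega) (by omega)
      refine ⟨t', by omega, a2, ?_, a4, ?_⟩
      · rw [skp, if_pos h, ← a3]
        have e : Q.state (put blk y x) (t + 1) = Q.next t (Q.state (put blk y x) t)
            (put blk y x (Q.query t (Q.state (put blk y x) t))) := rfl
        rw [e, put_none (Option.isSome_eq_false_iff.1 h.2 |> Option.isNone_iff_eq_none.1)]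
      · rw [a5, rds_succ]
        simp only [h.2]
        simp
    · refine ⟨t, le_rfl, h1, ?_, ?_, rfl⟩
      · rw [skp, if_neg h]
      · rcases Nat.lt_or_ge t T with h3 | h3
        · right
          by_contra h4
          exact h ⟨h3, by simpa using h4⟩
        · left
          omega

/-- pack the time -/
def pk (T : ℕ) (p : V × ℕ) : V × Fin (T + 1) := (p.1, ⟨min p.2 T, by omega⟩)

/-- the machine on the block -/
def skM (Q : Mach I A V) (blk : I → Option J) (y : I → A) (T : ℕ) (c0 : J) :
    Mach J A (V × Fin (T + 1)) where
  start := pk T (skp Q blk y T T Q.start 0)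
  query := fun _ p => (blk (Q.query p.2.val p.1)).getD c0
  next := fun _ p a => if p.2.val < T then
    pk T (skp Q blk y T T (Q.next p.2.val p.1 a) (p.2.val + 1)) else p
  acc := fun p => p.2.val = T ∧ Q.acc p.1

theorem skM_state (Q : Mach I A V) (blk : I → Option J) (y : I → A) (T : ℕ) (c0 : J)
    (x : J → A) (τ : ℕ) : ∃ t, ∃ ht : t ≤ T,
      (skM Q blk y T c0).state x τ = (Q.state (put blk y x) t, ⟨t, by omega⟩) ∧
      (t = T ∨ (blk (Q.query t (Q.state (put blk y x) t))).isSome = true) ∧
      rds Q (fun i => (blk i).isSome) (put blk y x) t ≤ τ ∧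
      (t < T → rds Q (fun i => (blk i).isSome) (put blk y x) t = τ) := by
  induction τ with
  | zero =>
    obtain ⟨t', a1, a2, a3, a4, a5⟩ := skp_spec Q blk y T x T 0 (Nat.zero_le _) (by omega)
    refine ⟨t', a2, ?_, a4, ?_, ?_⟩
    · show pk T (skp Q blk y T T Q.start 0) = _
      have e : Q.start = Q.state (put blk y x) 0 := rfl
      rw [e, a3]
      unfold pk
      simp [min_eq_left a2]
    · rw [a5]
      exact le_rfl
    · intro _
      rw [a5]
      rfl
  | succ τ ih =>
    obtain ⟨t, ht, b1, b2, b3, b4⟩ := ih
    rcases Nat.lt_or_ge t T with h | h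
    · have h5 : (blk (Q.query t (Q.state (put blk y x) t))).isSome = true := by
        rcases b2 with b2 | b2
        · omega
        · exact b2
      obtain ⟨c, hc⟩ := Option.isSome_iff_exists.1 h5
      have e0 : (skM Q blk y T c0).state x (τ + 1) =
          pk T (skp Q blk y T T (Q.state (put blk y x) (t + 1)) (t + 1)) := by
        show (if ((skM Q blk y T c0).state x τ).2.val < T then
          pk T (skp Q blk y T T (Q.next ((skM Q blk y T c0).state x τ).2.val
            ((skM Q blk y T c0).state x τ).1
            (x ((blk (Q.query ((skM Q blk y T c0).state x τ).2.val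
              ((skM Q blk y T c0).state x τ).1)).getD c0)))
            (((skM Q blk y T c0).state x τ).2.val + 1)) else (skM Q blk y T c0).state x τ) = _
        rw [b1]
        simp only
        rw [if_pos h, hc, Option.getD_some]
        have e : Q.state (put blk y x) (t + 1) = Q.next t (Q.state (put blk y x) t)
            (put blk y x (Q.query t (Q.state (put blk y x) t))) := rfl
        rw [e, put_some hc]
      have e1 : rds Q (fun i => (blk i).isSome) (put blk y x) (t + 1) = τ + 1 := by
        rw [rds_succ, b4 h]
        simp only [h5]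
        simp
      obtain ⟨t', a1, a2, a3, a4, a5⟩ := skp_spec Q blk y T x T (t + 1) (by omega) (by omega)
      refine ⟨t', a2, ?_, a4, ?_, ?_⟩
      · rw [e0, a3]
        unfold pk
        simp [min_eq_left a2]
      · rw [a5, e1]
      · intro _
        rw [a5, e1]
    · have hT : t = T := by omega
      refine ⟨t, ht, ?_, Or.inl hT, by omega, fun h' => by omega⟩
      show (if ((skM Q blk y T c0).state x τ).2.val < T then
          pk T (skp Q blk y T T (Q.next ((skM Q blk y T c0).state x τ).2.val
            ((skM Q blk y T c0).state x τ).1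
            (x ((blk (Q.query ((skM Q blk y T c0).state x τ).2.val
              ((skM Q blk y T c0).state x τ).1)).getD c0)))
            (((skM Q blk y T c0).state x τ).2.val + 1)) else (skM Q blk y T c0).state x τ) = _
      rw [b1]
      simp only
      rw [if_neg (by omega)]

theorem skM_accepts (Q : Mach I A V) (blk : I → Option J) (y : I → A) (T : ℕ) (c0 : J)
    (x : J → A) (B : ℕ) : (skM Q blk y T c0).Accepts B x ↔
      Q.Accepts T (put blk y x) ∧ rds Q (fun i => (blk i).isSome) (put blk y x) T ≤ B := by
  obtain ⟨t, ht, b1, b2, b3, b4⟩ := skM_state Q blk y T c0 x B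
  show (((skM Q blk y T c0).state x B).2.val = T ∧ Q.acc ((skM Q blk y T c0).state x B).1) ↔ _
  rw [b1]
  simp only
  constructor
  · rintro ⟨rfl, h2⟩
    exact ⟨h2, b3⟩
  · rintro ⟨h1, h2⟩
    have hT : t = T := by
      by_contra hne
      have h3 : t < T := by omega
      have h4 := b4 h3
      have h5 : (blk (Q.query t (Q.state (put blk y x) t))).isSome = true := by
        rcases b2 with b2 | b2
        · omega
        · exact b2
      have h6 := rds_mono Q (fun i => (blk i).isSome) (put blk y x) (show t + 1 ≤ T from h3)
      rw [rds_succ, h4] at h6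
      simp only [h5] at h6
      simp at h6
      omega
    subst hT
    exact ⟨rfl, h1⟩

/-- the machine with counters up to `B + 1` of the reads of several blocks -/
def ctM (Q : Mach I A V) {r : ℕ} (bl : Fin r → I → Bool) (B j : ℕ) :
    Mach I A (V × (Fin r → Fin (B + 2))) where
  start := (Q.start, fun _ => 0)
  query := fun t p => Q.query t p.1
  next := fun t p a => (Q.next t p.1 a, fun i =>
    if bl i (Q.query t p.1) then ⟨min ((p.2 i).val + 1) (B + 1), by omega⟩ else p.2 i)
  acc := fun p => Q.acc p.1 ∧ ∀ i : Fin r, i.val < j → (p.2 i).val = B + 1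

theorem ctM_state (Q : Mach I A V) {r : ℕ} (bl : Fin r → I → Bool) (B j : ℕ) (z : I → A) (t : ℕ) :
    (ctM Q bl B j).state z t = (Q.state z t, fun i => ⟨min (rds Q (bl i) z t) (B + 1), by omega⟩) := by
  induction t with
  | zero =>
    show (Q.start, fun _ => (0 : Fin (B + 2))) = _
    refine Prod.ext rfl (funext fun i => Fin.ext ?_)
    simp [rds]
  | succ t ih =>
    show (ctM Q bl B j).next t ((ctM Q bl B j).state z t)
      (z ((ctM Q bl B j).query t ((ctM Q bl B j).state z t))) = _
    rw [ih]
    refine Prod.ext rfl (funext fun i => Fin.ext ?_)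
    show (if bl i (Q.query t (Q.state z t)) then
      (⟨min (min (rds Q (bl i) z t) (B + 1) + 1) (B + 1), by omega⟩ : Fin (B + 2)) else
      ⟨min (rds Q (bl i) z t) (B + 1), by omega⟩).val = min (rds Q (bl i) z (t + 1)) (B + 1)
    rw [rds_succ]
    split_ifs with h
    · simp only
      omega
    · simp

theorem ctM_rds (Q : Mach I A V) {r : ℕ} (bl : Fin r → I → Bool) (B j : ℕ) (z : I → A)
    (b : I → Bool) (t : ℕ) : rds (ctM Q bl B j) b z t = rds Q b z t := by
  induction t with
  | zero => rfl
  | succ t ih =>
    rw [rds_succ, rds_succ, ih]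
    show _ + (if b (Q.query t ((ctM Q bl B j).state z t).1) then 1 else 0) = _
    rw [ctM_state]

theorem ctM_accepts (Q : Mach I A V) {r : ℕ} (bl : Fin r → I → Bool) (B j : ℕ) (z : I → A)
    (T : ℕ) : (ctM Q bl B j).Accepts T z ↔
      Q.Accepts T z ∧ ∀ i : Fin r, i.val < j → B < rds Q (bl i) z T := by
  show (Q.acc ((ctM Q bl B j).state z T).1 ∧
    ∀ i : Fin r, i.val < j → (((ctM Q bl B j).state z T).2 i).val = B + 1) ↔ _
  rw [ctM_state]
  simp only
  refine and_congr Iff.rfl (forall₂_congr fun i _ => ?_)
  omega

end Pool.Agent.Lib_helper26.TB
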